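import Mathlib

/-!
Parity of the number of points of a cubic curve over a finite field of odd characteristic.
-/

set_option autoImplicit false

namespace Pool.Agent.W343.BSD

variable {F : Type*} [Field F] [Finite F]

/-- the number of affine points has the parity of the number of points with `y = 0` -/
theorem count_parity (h2 : (2 : F) ≠ 0) (A B : F) :
    ((Nat.card {P : F × F // P.2 ^ 2 = P.1 ^ 3 + A * P.1 + B} : ℕ) : ZMod 2) =
      (Nat.card {x : F // x ^ 3 + A * x + B = 0} : ℕ) := by
  classical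
  have : Fintype F := Fintype.ofFinite F
  set s : Finset (F × F) := Finset.univ.filter fun P => P.2 ^ 2 = P.1 ^ 3 + A * P.1 + B with hs
  set t : Finset F := Finset.univ.filter fun x => x ^ 3 + A * x + B = 0 with ht
  have h1 : Nat.card {P : F × F // P.2 ^ 2 = P.1 ^ 3 + A * P.1 + B} = s.card := by
    rw [Nat.card_eq_fintype_card, Fintype.card_subtype]
  have h3 : Nat.card {x : F // x ^ 3 + A * x + B = 0} = t.card := by
    rw [Nat.card_eq_fintype_card, Fintype.card_subtype]
  rw [h1, h3]
  have h4 : s.card = (s.filter fun P => P.2 = 0).card + (s.filter fun P => ¬ P.2 = 0).card :=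
    (Finset.card_filter_add_card_filter_not _).symm
  have h5 : (s.filter fun P => P.2 = 0).card = t.card := by
    symm
    refine Finset.card_bij (fun x _ => (x, 0)) ?_ ?_ ?_
    · intro x hx
      rw [ht, Finset.mem_filter] at hx
      rw [Finset.mem_filter, hs, Finset.mem_filter]
      refine ⟨⟨Finset.mem_univ _, ?_⟩, rfl⟩
      show (0 : F) ^ 2 = x ^ 3 + A * x + B
      rw [hx.2]; ring
    · intro x _ y _ h
      exact congrArg Prod.fst h
    · rintro ⟨x, y⟩ hP
      rw [Finset.mem_filter, hs, Finset.mem_filter] at hP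
      obtain ⟨⟨-, h6⟩, h7⟩ := hP
      dsimp only at h6 h7
      refine ⟨x, ?_, by rw [h7]⟩
      rw [ht, Finset.mem_filter]
      refine ⟨Finset.mem_univ _, ?_⟩
      rw [← h6, h7]; ring
  have h6 : (((s.filter fun P => ¬ P.2 = 0).card : ℕ) : ZMod 2) = 0 := by
    rw [Finset.card_eq_sum_ones, Nat.cast_sum]
    refine Finset.sum_involution (fun P _ => (P.1, -P.2)) ?_ ?_ ?_ ?_
    · intro P _
      rw [Nat.cast_one]
      exact CharTwo.add_self_eq_zero 1
    · rintro ⟨x, y⟩ hP _ h
      rw [Finset.mem_filter] at hP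
      apply hP.2
      have h7 : -y = y := congrArg Prod.snd h
      have h8 : (2 : F) * y = 0 := by linear_combination -h7
      exact (mul_eq_zero.1 h8).resolve_left h2
    · rintro ⟨x, y⟩ hP
      rw [Finset.mem_filter, hs, Finset.mem_filter] at hP ⊢
      obtain ⟨⟨-, h7⟩, h8⟩ := hP
      dsimp only at h7 h8 ⊢
      refine ⟨⟨Finset.mem_univ _, ?_⟩, by simpa using h8⟩
      rw [← h7]; ring
    · rintro ⟨x, y⟩ _
      simp
  rw [h4, Nat.cast_add, h6, add_zero, h5]

omit [Finite F] in
/-- simple roots for nonzero discriminant -/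
theorem simple_root {A B r : F} (hΔ : 4 * A ^ 3 + 27 * B ^ 2 ≠ 0)
    (hr : r ^ 3 + A * r + B = 0) : 3 * r ^ 2 + A ≠ 0 := by
  intro h
  apply hΔ
  have h1 : A = -(3 * r ^ 2) := by linear_combination h
  have h2 : B = 2 * r ^ 3 := by
    rw [h1] at hr
    linear_combination hr
  rw [h1, h2]; ring

/-- a cubic with nonzero discriminant and a root has an odd number of roots -/
theorem roots_odd {A B : F} (hΔ : 4 * A ^ 3 + 27 * B ^ 2 ≠ 0)
    (hr : ∃ r : F, r ^ 3 + A * r + B = 0) :
    ((Nat.card {x : F // x ^ 3 + A * x + B = 0} : ℕ) : ZMod 2) = 1 := by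
  classical
  have : Fintype F := Fintype.ofFinite F
  obtain ⟨r, hr⟩ := hr
  set t : Finset F := Finset.univ.filter fun x => x ^ 3 + A * x + B = 0 with ht
  have h3 : Nat.card {x : F // x ^ 3 + A * x + B = 0} = t.card := by
    rw [Nat.card_eq_fintype_card, Fintype.card_subtype]
  have hrt : r ∈ t := by
    rw [ht, Finset.mem_filter]; exact ⟨Finset.mem_univ _, hr⟩
  rw [h3, ← Finset.card_erase_add_one hrt, Nat.cast_add, Nat.cast_one]
  have h4 : (((t.erase r).card : ℕ) : ZMod 2) = 0 := by
    rw [Finset.card_eq_sum_ones, Nat.cast_sum]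
    have key : ∀ x ∈ t.erase r, x ^ 2 + r * x + r ^ 2 + A = 0 := by
      intro x hx
      rw [Finset.mem_erase, ht, Finset.mem_filter] at hx
      obtain ⟨hxr, -, hx⟩ := hx
      have h5 : (x - r) * (x ^ 2 + r * x + r ^ 2 + A) = 0 := by linear_combination hx - hr
      exact (mul_eq_zero.1 h5).resolve_left (sub_ne_zero.2 hxr)
    refine Finset.sum_involution (fun x _ => -r - x) ?_ ?_ ?_ ?_
    · intro x _
      rw [Nat.cast_one]
      exact CharTwo.add_self_eq_zero 1
    · intro x hx _ h
      have h6 := key x hx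
      rw [Finset.mem_erase, ht, Finset.mem_filter] at hx
      have h5 := simple_root hΔ hx.2.2
      apply h5
      have h7 : r = -(2 * x) := by linear_combination -h
      rw [h7] at h6
      linear_combination h6
    · intro x hx
      have h6 := key x hx
      rw [Finset.mem_erase, ht, Finset.mem_filter] at hx ⊢
      refine ⟨?_, Finset.mem_univ _, ?_⟩
      · intro h
        have h5 := simple_root hΔ hr
        apply h5
        have h7 : x = -(2 * r) := by linear_combination -h
        rw [h7] at h6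
        linear_combination h6
      · have h8 : (-r - x) ^ 3 + A * (-r - x) + B =
            (r ^ 3 + A * r + B) + (-r - x - r) * (x ^ 2 + r * x + r ^ 2 + A) := by ring
        rw [h8, hr, h6]; ring
    · intro x _
      ring
  rw [h4, zero_add]

/-- no roots -/
theorem roots_none {A B : F} (h : ¬ ∃ r : F, r ^ 3 + A * r + B = 0) :
    Nat.card {x : F // x ^ 3 + A * x + B = 0} = 0 := by
  have : IsEmpty {x : F // x ^ 3 + A * x + B = 0} := ⟨fun x => h ⟨x.1, x.2⟩⟩
  exact Nat.card_of_isEmpty

omit [Finite F] in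
/-- a cubic with a node has two roots -/
theorem roots_node (h2 : (2 : F) ≠ 0) (h3 : (3 : F) ≠ 0) {A B : F}
    (hΔ : 4 * A ^ 3 + 27 * B ^ 2 = 0) (hA : A ≠ 0) :
    Nat.card {x : F // x ^ 3 + A * x + B = 0} = 2 := by
  classical
  have hB : B ≠ 0 := by
    rintro rfl
    have h4 : (2 : F) ^ 2 * A ^ 3 = 0 := by linear_combination hΔ
    rcases mul_eq_zero.1 h4 with h | h
    · exact h2 (pow_eq_zero_iff (two_ne_zero) |>.1 h)
    · exact hA (pow_eq_zero_iff (three_ne_zero) |>.1 h)
  set β : F := 3 * B / A with hβ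
  have hβA : β * A = 3 * B := div_mul_cancel₀ _ hA
  have hβ0 : β ≠ 0 := div_ne_zero (mul_ne_zero h3 hB) hA
  -- `4 A = -3 β ^ 2`, `4 B = -β ^ 3`
  have e1 : 4 * A = -(3 * β ^ 2) := by
    have h5 : A ^ 2 * (4 * A + 3 * β ^ 2) = 0 := by
      have : A ^ 2 * (4 * A + 3 * β ^ 2) = 4 * A ^ 3 + 3 * (β * A) ^ 2 := by ring
      rw [this, hβA]
      linear_combination hΔ
    have h6 := (mul_eq_zero.1 h5).resolve_left (pow_ne_zero 2 hA)
    linear_combination h6
  have e2 : 4 * B = -β ^ 3 := by
    have h5 : 3 * (4 * B + β ^ 3) = 0 := by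
      have : 3 * (4 * B + β ^ 3) = 4 * (3 * B) + 3 * β ^ 3 := by ring
      rw [this, ← hβA]
      linear_combination β * e1
    have h6 := (mul_eq_zero.1 h5).resolve_left h3
    linear_combination h6
  have h4 : (4 : F) ≠ 0 := by
    have : (4 : F) = 2 * 2 := by norm_num
    rw [this]; exact mul_ne_zero h2 h2
  have key : ∀ x : F, x ^ 3 + A * x + B = 0 ↔ x = β ∨ x = -β / 2 := by
    intro x
    have h5 : 4 * (x ^ 3 + A * x + B) = (x - β) * (2 * x + β) ^ 2 := by
      linear_combination x * e1 + e2
    constructor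
    · intro h
      rw [h, mul_zero] at h5
      rcases mul_eq_zero.1 h5.symm with h6 | h6
      · left; exact sub_eq_zero.1 h6
      · right
        have h7 : 2 * x + β = 0 := pow_eq_zero_iff (two_ne_zero) |>.1 h6
        field_simp
        linear_combination h7
    · intro h
      have h6 : 4 * (x ^ 3 + A * x + B) = 0 := by
        rw [h5]
        rcases h with h | h
        · rw [h]; ring
        · have h7 : 2 * x + β = 0 := by
            rw [h]; field_simp; ring
          rw [h7]; ring
      exact (mul_eq_zero.1 h6).resolve_left h4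
  have hne : β ≠ -β / 2 := by
    intro h
    have h5 : 3 * β = 0 := by
      have h6 : 2 * β = -β := by
        rw [eq_div_iff h2] at h
        linear_combination h
      linear_combination h6
    exact hβ0 ((mul_eq_zero.1 h5).resolve_left h3)
  have h6 : {x : F // x ^ 3 + A * x + B = 0} ≃ ({β, -β / 2} : Finset F) :=
    Equiv.subtypeEquivRight fun x => by
      rw [key, Finset.mem_insert, Finset.mem_singleton]
  rw [Nat.card_congr h6, Nat.card_eq_fintype_card, Fintype.card_coe, Finset.card_pair hne]

omit [Finite F] in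
theorem roots_cusp {A B : F} (hA : A = 0) (hB : B = 0) :
    Nat.card {x : F // x ^ 3 + A * x + B = 0} = 1 := by
  subst hA hB
  rw [Nat.card_eq_one_iff_unique]
  refine ⟨⟨fun x y => ?_⟩, ⟨⟨0, by ring⟩⟩⟩
  have h1 : ∀ z : {x : F // x ^ 3 + 0 * x + 0 = 0}, z.1 = 0 := by
    rintro ⟨z, hz⟩
    have : z ^ 3 = 0 := by linear_combination hz
    exact pow_eq_zero_iff (three_ne_zero) |>.1 this
  exact Subtype.ext ((h1 x).trans (h1 y).symm)

end Pool.Agent.W343.BSD
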