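import Mathlib

/-!
Euler products of power series.
-/

set_option autoImplicit false

open PowerSeries

namespace Pool.Agent.W343.BSD

/-- The Euler product of the power series `f i`, where each `f i` is `1` plus terms of degree at least
`d i` and only finitely many `i` have `d i ≤ n`: the coefficient of index `n` is that of the finite
product over all `i` with `d i ≤ n`. -/
noncomputable def eulerProd {ι R : Type*} [CommRing R] (d : ι → ℕ) (f : ι → PowerSeries R) :
    PowerSeries R :=
  PowerSeries.mk fun n => coeff n (∏ᶠ (i : ι) (_ : d i ≤ n), f i)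

section cong

variable {R : Type*} [CommRing R]

theorem prod_congr_mod {ι : Type*} (s : Finset ι) (f g : ι → PowerSeries R) (k : ℕ)
    (h : ∀ i ∈ s, (X : PowerSeries R) ^ k ∣ f i - g i) :
    (X : PowerSeries R) ^ k ∣ ∏ i ∈ s, f i - ∏ i ∈ s, g i := by
  let I : Ideal (PowerSeries R) := Ideal.span {(X : PowerSeries R) ^ k}
  rw [← Ideal.mem_span_singleton, ← Ideal.Quotient.eq, map_prod, map_prod]
  refine Finset.prod_congr rfl fun i hi => ?_
  rw [Ideal.Quotient.eq, Ideal.mem_span_singleton]
  exact h i hi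

theorem mul_congr_mod {f f' g g' : PowerSeries R} {k : ℕ}
    (h : (X : PowerSeries R) ^ k ∣ f - f') (h' : (X : PowerSeries R) ^ k ∣ g - g') :
    (X : PowerSeries R) ^ k ∣ f * g - f' * g' := by
  have : f * g - f' * g' = (f - f') * g + f' * (g - g') := by ring
  rw [this]
  exact dvd_add (h.mul_right _) (h'.mul_left _)

theorem prod_subset_mod {ι : Type*} (f : ι → PowerSeries R) (k : ℕ)
    {s T : Finset ι} (hT : T ⊆ s) (h : ∀ i ∈ s, i ∉ T → (X : PowerSeries R) ^ k ∣ f i - 1) :
    (X : PowerSeries R) ^ k ∣ ∏ i ∈ s, f i - ∏ i ∈ T, f i := by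
  classical
  rw [← Finset.prod_sdiff hT]
  have h1 := prod_congr_mod (s \ T) f (fun _ => 1) k (fun i hi => by
    rw [Finset.mem_sdiff] at hi
    exact h i hi.1 hi.2)
  rw [Finset.prod_const_one] at h1
  have h2 := mul_congr_mod h1 (show (X : PowerSeries R) ^ k ∣ ∏ i ∈ T, f i - ∏ i ∈ T, f i by
    rw [sub_self]; exact dvd_zero _)
  rwa [one_mul] at h2

theorem eq_of_mod {f g : PowerSeries R} (h : ∀ k, (X : PowerSeries R) ^ (k + 1) ∣ f - g) :
    f = g := by
  ext k
  have := X_pow_dvd_iff.1 (h k) k (Nat.lt_succ_self k)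
  rwa [map_sub, sub_eq_zero] at this

theorem mod_trans {f g h : PowerSeries R} {k : ℕ} (h1 : (X : PowerSeries R) ^ k ∣ f - g)
    (h2 : (X : PowerSeries R) ^ k ∣ g - h) : (X : PowerSeries R) ^ k ∣ f - h := by
  have : f - h = (f - g) + (g - h) := by ring
  rw [this]
  exact dvd_add h1 h2

theorem mod_symm {f g : PowerSeries R} {k : ℕ} (h1 : (X : PowerSeries R) ^ k ∣ f - g) :
    (X : PowerSeries R) ^ k ∣ g - f := by
  rw [← neg_sub]
  exact (dvd_neg).2 h1

end cong

section euler

variable {ι R : Type*} [CommRing R] {d : ι → ℕ} (hfin : ∀ n, {i | d i ≤ n}.Finite)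
  {f g : ι → PowerSeries R}

include hfin in
theorem coeff_eulerProd (n : ℕ) :
    coeff n (eulerProd d f) = coeff n (∏ i ∈ (hfin n).toFinset, f i) := by
  rw [eulerProd, coeff_mk]
  congr 1
  exact finprod_mem_eq_finite_toFinset_prod f (hfin n)

include hfin in
theorem eulerProd_mod (hf : ∀ i, (X : PowerSeries R) ^ d i ∣ f i - 1) (n : ℕ) (s : Finset ι)
    (hs : ∀ i, d i ≤ n → i ∈ s) :
    (X : PowerSeries R) ^ (n + 1) ∣ eulerProd d f - ∏ i ∈ s, f i := by
  rw [X_pow_dvd_iff]
  intro m hm
  rw [map_sub, sub_eq_zero, coeff_eulerProd hfin]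
  have h1 := prod_subset_mod f (m + 1) (s := s) (T := (hfin m).toFinset) (by
    intro i hi
    rw [Set.Finite.mem_toFinset] at hi
    have : d i ≤ m := hi
    exact hs i (by omega)) (by
    intro i _ hi
    rw [Set.Finite.mem_toFinset] at hi
    have h2 : ¬ d i ≤ m := hi
    exact (pow_dvd_pow _ (by omega)).trans (hf i))
  have h2 := X_pow_dvd_iff.1 h1 m (Nat.lt_succ_self m)
  rw [map_sub, sub_eq_zero] at h2
  exact h2.symm

theorem one_mod_mul {f g : PowerSeries R} {k : ℕ} (hf : (X : PowerSeries R) ^ k ∣ f - 1)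
    (hg : (X : PowerSeries R) ^ k ∣ g - 1) : (X : PowerSeries R) ^ k ∣ f * g - 1 := by
  have := mul_congr_mod hf hg
  rwa [one_mul] at this

include hfin in
theorem eulerProd_mul (hf : ∀ i, (X : PowerSeries R) ^ d i ∣ f i - 1)
    (hg : ∀ i, (X : PowerSeries R) ^ d i ∣ g i - 1) :
    eulerProd d (fun i => f i * g i) = eulerProd d f * eulerProd d g := by
  apply eq_of_mod
  intro n
  have h1 := eulerProd_mod hfin (f := fun i => f i * g i) (fun i => one_mod_mul (hf i) (hg i)) n
    (hfin n).toFinset (fun i hi => by rw [Set.Finite.mem_toFinset]; exact hi)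
  have h2 := eulerProd_mod hfin hf n
    (hfin n).toFinset (fun i hi => by rw [Set.Finite.mem_toFinset]; exact hi)
  have h3 := eulerProd_mod hfin hg n
    (hfin n).toFinset (fun i hi => by rw [Set.Finite.mem_toFinset]; exact hi)
  rw [Finset.prod_mul_distrib] at h1
  exact mod_trans h1 (mod_symm (mul_congr_mod h2 h3))

include hfin in
theorem map_eulerProd {S : Type*} [CommRing S] (φ : R →+* S) :
    PowerSeries.map φ (eulerProd d f) = eulerProd d (fun i => PowerSeries.map φ (f i)) := by
  ext n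
  rw [coeff_map, coeff_eulerProd hfin, coeff_eulerProd hfin, ← map_prod, coeff_map]

theorem eulerProd_one : eulerProd d (fun _ => (1 : PowerSeries R)) = 1 := by
  ext n
  rw [eulerProd, coeff_mk]
  congr 1
  simp

include hfin in
/-- An Euler product with finitely many factors different from `1`. -/
theorem eulerProd_of_finset (hf : ∀ i, (X : PowerSeries R) ^ d i ∣ f i - 1) (s : Finset ι)
    (hs : ∀ i, i ∉ s → f i = 1) : eulerProd d f = ∏ i ∈ s, f i := by
  classical
  apply eq_of_mod
  intro n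
  have h1 := eulerProd_mod hfin hf n (s ∪ (hfin n).toFinset) (fun i hi => by
    rw [Finset.mem_union, Set.Finite.mem_toFinset]; exact Or.inr hi)
  have h2 : ∏ i ∈ s, f i = ∏ i ∈ s ∪ (hfin n).toFinset, f i := by
    apply Finset.prod_subset Finset.subset_union_left
    intro i _ hi
    exact hs i hi
  rw [h2]
  exact h1

include hfin in
theorem eulerProd_prod {J : Type*} (t : Finset J) (F : J → ι → PowerSeries R)
    (hF : ∀ j i, (X : PowerSeries R) ^ d i ∣ F j i - 1) :
    eulerProd d (fun i => ∏ j ∈ t, F j i) = ∏ j ∈ t, eulerProd d (F j) := by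
  classical
  induction t using Finset.induction_on with
  | empty => simp [eulerProd_one]
  | insert j t hj ih =>
    simp only [Finset.prod_insert hj]
    rw [eulerProd_mul hfin (hF j), ih]
    intro i
    have := prod_congr_mod t (fun j => F j i) (fun _ => 1) (d i) (fun j _ => hF j i)
    rwa [Finset.prod_const_one] at this

/-- grouping the factors of an Euler product -/
theorem eulerProd_fiber {κ : Type*} {d' : κ → ℕ} (hfin : ∀ n, {i | d i ≤ n}.Finite)
    (hfin' : ∀ n, {j | d' j ≤ n}.Finite) {f' : κ → PowerSeries R}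
    (hf' : ∀ j, (X : PowerSeries R) ^ d' j ∣ f' j - 1) (S : ι → Finset κ)
    (hS : ∀ j, ∃ i, j ∈ S i) (hSu : ∀ i i' j, j ∈ S i → j ∈ S i' → i = i')
    (hd : ∀ i, ∀ j ∈ S i, d i ≤ d' j) :
    eulerProd d (fun i => ∏ j ∈ S i, f' j) = eulerProd d' f' := by
  classical
  apply eq_of_mod
  intro n
  have hf : ∀ i, (X : PowerSeries R) ^ d i ∣ ∏ j ∈ S i, f' j - 1 := by
    intro i
    have := prod_congr_mod (S i) f' (fun _ => 1) (d i)
      (fun j hj => (pow_dvd_pow _ (hd i j hj)).trans (hf' j))
    rwa [Finset.prod_const_one] at this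
  have h1 := eulerProd_mod hfin (f := fun i => ∏ j ∈ S i, f' j) hf n
    (hfin n).toFinset (fun i hi => by rw [Set.Finite.mem_toFinset]; exact hi)
  have h2 := eulerProd_mod hfin' hf' n ((hfin n).toFinset.biUnion S) (by
    intro j hj
    obtain ⟨i, hi⟩ := hS j
    rw [Finset.mem_biUnion]
    refine ⟨i, ?_, hi⟩
    rw [Set.Finite.mem_toFinset]
    exact (hd i j hi).trans hj)
  rw [Finset.prod_biUnion] at h2
  · exact mod_trans h1 (mod_symm h2)
  · intro i _ i' _ hii
    rw [Function.onFun, Finset.disjoint_left]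
    intro j hj hj'
    exact hii (hSu i i' j hj hj')

end euler

end Pool.Agent.W343.BSD
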