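import Pool.Agent.H675R3.ZT.Sch
import Pool.Agent.H455R3.ZT.Exact
import Pool.Agent.H107R3.ZT.Up
import Pool.Agent.H142R3.ZTLow
import Pool.Agent.H123R3.ZT.Const
import Pool.Agent.H962R3.Cnt
import Pool.Agent.W343.BSD.Euler

/-!
The zeta function of a function field over a finite field: its numerator.
-/

set_option autoImplicit false
set_option linter.all false

open PowerSeries FF Module

namespace Pool.Agent.W343.BSD

/-- `K` is the function field of a smooth projective geometrically irreducible curve over `k`: it is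
finitely generated of transcendence degree one over `k`, and `k` is algebraically closed in `K`. -/
structure IsCurveField (k K : Type) [Field k] [Field K] [Algebra k K] : Prop where
  essFiniteType : Algebra.EssFiniteType k K
  trdeg_eq_one : Algebra.trdeg k K = 1
  algClosed : ∀ x : K, IsAlgebraic k x → x ∈ (algebraMap k K).range

/-- The divisors of degree zero of the curve with function field `K`. -/
def degZero (k K : Type) [Field k] [Field K] [Algebra k K] : AddSubgroup (FF.Place k K →₀ ℤ) where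
  carrier := {D | (D.sum fun v n => n * (v.deg : ℤ)) = 0}
  zero_mem' := by simp
  add_mem' := by
    intro D E hD hE
    classical
    show ((D + E).sum fun v n => n * (v.deg : ℤ)) = 0
    rw [Finsupp.sum_add_index' (by intro v; simp) (by intro v m n; ring), hD, hE, add_zero]
  neg_mem' := by
    intro D hD
    show ((-D).sum fun v n => n * (v.deg : ℤ)) = 0
    rw [Finsupp.sum_neg_index (by intro v; simp)]
    have h : (D.sum fun v n => -n * (v.deg : ℤ)) = -(D.sum fun v n => n * (v.deg : ℤ)) := by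
      simp [Finsupp.sum]
    rw [h, hD, neg_zero]

/-- The principal divisors. -/
def principal (k K : Type) [Field k] [Field K] [Algebra k K] :
    AddSubgroup (FF.Place k K →₀ ℤ) where
  carrier := {D | ∃ f : K, f ≠ 0 ∧ ∀ v, D v = v.ord f}
  zero_mem' := ⟨1, one_ne_zero, fun v => by rw [v.ord_one]; rfl⟩
  add_mem' := by
    rintro D E ⟨f, hf, h⟩ ⟨g, hg, h'⟩
    exact ⟨f * g, mul_ne_zero hf hg, fun v => by
      rw [v.ord_mul hf hg, Finsupp.add_apply, h, h']⟩
  neg_mem' := by
    rintro D ⟨f, hf, h⟩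
    exact ⟨f⁻¹, inv_ne_zero hf, fun v => by rw [v.ord_inv, Finsupp.neg_apply, h]⟩

/-- The class number: the number of divisor classes of degree zero. -/
noncomputable def classNumber (k K : Type) [Field k] [Field K] [Algebra k K] : ℕ :=
  (principal k K).relIndex (degZero k K)

/-- `P` is the numerator of the zeta function `∏ (1 - T ^ deg v)⁻¹ = P(T) / ((1 - T) (1 - q T))`. -/
def IsZetaNum (k K : Type) [Field k] [Field K] [Algebra k K] (P : Polynomial ℤ) : Prop :=
  (P : PowerSeries ℤ) * eulerProd (fun v : FF.Place k K => v.deg) (fun v => 1 - X ^ v.deg) =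
    (1 - X) * (1 - C (Nat.card k : ℤ) * X)

section generic

variable {ι : Type} (d : ι → ℕ) (hd : ∀ v, d v ≠ 0) (hfin : ∀ k, {v | d v ≤ k}.Finite)

open Pool.Agent.H962R3.Cnt Pool.Agent.H707R3

theorem card_eff (m : ℕ) :
    Nat.card (Eff d m) = Nat.card {D : ι →₀ ℕ // (D.sum fun v n => n * d v) = m} := by
  classical
  symm
  refine Nat.card_congr (Equiv.ofBijective
    (fun D => (⟨D.1.mapRange (fun n : ℕ => (n : ℤ)) rfl, ?_⟩ : Eff d m)) ⟨?_, ?_⟩)
  · refine ⟨fun v => by simp, ?_⟩
    have h := congrArg (Nat.cast (R := ℤ)) D.2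
    unfold Deg
    rw [Finsupp.sum_mapRange_index (by intro a; simp)]
    refine Eq.trans ?_ h
    simp [Finsupp.sum]
  · intro D D' hD
    apply Subtype.ext
    ext v
    have := congrArg (fun E : Eff d m => E.1 v) hD
    simpa using this
  · rintro ⟨D, hD0, hD⟩
    refine ⟨⟨D.mapRange Int.toNat rfl, ?_⟩, ?_⟩
    · rw [Finsupp.sum_mapRange_index (by intro a; simp)]
      unfold Deg at hD
      zify
      rw [← hD]
      simp only [Finsupp.sum]
      refine Finset.sum_congr rfl fun v _ => ?_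
      rw [Int.toNat_of_nonneg (hD0 v)]
    · apply Subtype.ext
      ext v
      simp [Int.toNat_of_nonneg (hD0 v)]

include hd hfin in
theorem euler_mul_count :
    eulerProd d (fun v => (1 - X ^ d v : PowerSeries ℤ)) *
      PowerSeries.mk (fun m => (Nat.card {D : ι →₀ ℕ // (D.sum fun v n => n * d v) = m} : ℤ)) = 1 := by
  have hmod : ∀ v, (X : PowerSeries ℚ) ^ d v ∣ geom (1 : ℚ) (d v) - 1 := by
    intro v
    rw [X_pow_dvd_iff]
    intro m hm
    rw [map_sub, coeff_geom, coeff_one]
    by_cases h0 : m = 0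
    · simp [h0]
    · rw [if_neg h0, if_neg, sub_zero]
      intro h
      have := Nat.le_of_dvd (Nat.pos_of_ne_zero h0) h
      omega
  have hmod' : ∀ v, (X : PowerSeries ℚ) ^ d v ∣ (1 - X ^ d v) - 1 := by
    intro v
    have : (1 - X ^ d v : PowerSeries ℚ) - 1 = -(X ^ d v) := by ring
    rw [this]
    exact (dvd_neg).2 dvd_rfl
  have h1 : eulerProd d (fun v => geom (1 : ℚ) (d v)) =
      PowerSeries.mk (fun m => (Nat.card {D : ι →₀ ℕ // (D.sum fun v n => n * d v) = m} : ℚ)) := by
    ext m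
    rw [coeff_eulerProd hfin, coeff_prod_geom d hd hfin (fun _ => (1 : ℚ)) m, coeff_mk, ← card_eff]
    have h2 : ∀ D : ι →₀ ℤ, Val (fun _ => (1 : ℚ)) D = 1 := by
      intro D
      simp [Val, Finsupp.prod]
    simp only [h2, Finset.sum_const, nsmul_eq_mul, mul_one]
    congr 1
    rw [← Set.ncard_eq_toFinset_card _ (eff_finite d hd hfin m), ← Nat.card_coe_set_eq]
  have h2 : eulerProd d (fun v => (1 - X ^ d v : PowerSeries ℚ)) *
      eulerProd d (fun v => geom (1 : ℚ) (d v)) = 1 := by
    rw [← eulerProd_mul hfin hmod' hmod]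
    have : (fun v => (1 - X ^ d v : PowerSeries ℚ) * geom (1 : ℚ) (d v)) = fun _ => 1 := by
      funext v
      have := one_sub_mul_geom (1 : ℚ) (hd v)
      rwa [map_one, one_mul] at this
    rw [this, eulerProd_one]
  have hinj : Function.Injective (PowerSeries.map (Int.castRingHom ℚ)) := by
    intro f g h
    ext n
    have := congrArg (coeff n) h
    rw [coeff_map, coeff_map] at this
    exact Int.cast_injective this
  apply hinj
  rw [map_mul, map_one, map_eulerProd hfin, ← h2, h1]
  congr 1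
  congr 1
  funext v
  simp

end generic

section exact

open Pool.Agent.H525R3.FFp Pool.Agent.H455R3.ZT

theorem exists_reps' (k F : Type) [Field k] [Finite k] [Field F] [Algebra k F] [FF.IsFF k F] :
    ∃ (Cl : Type) (R : Cl → (Place k F →₀ ℤ)), Nat.card Cl = classNumber k F ∧
      (∀ c, ddeg (R c) = 0) ∧
      (∀ E : Place k F →₀ ℤ, ddeg E = 0 → ∃ (c : Cl) (f : F), f ≠ 0 ∧ E = R c + divisor k f) ∧
      (∀ (c c' : Cl) (f f' : F), f ≠ 0 → f' ≠ 0 →
        R c + divisor k f = R c' + divisor k f' → c = c') := by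
  let H : AddSubgroup (degZero k F) := (principal k F).addSubgroupOf (degZero k F)
  have hH : ∀ D : degZero k F, D ∈ H ↔ ∃ f : F, f ≠ 0 ∧ D.1 = divisor k f := by
    intro D
    constructor
    · rintro ⟨f, hf, h⟩
      exact ⟨f, hf, by ext v; exact h v⟩
    · rintro ⟨f, hf, h⟩
      exact ⟨f, hf, fun v => by
        show D.1 v = _
        rw [h]; rfl⟩
  refine ⟨degZero k F ⧸ H, fun c => (Quotient.out c).1, rfl, fun c => (Quotient.out c).2, ?_, ?_⟩
  · intro E hE
    let E' : degZero k F := ⟨E, hE⟩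
    have h1 : (QuotientAddGroup.mk (Quotient.out (QuotientAddGroup.mk E' : degZero k F ⧸ H)) :
        degZero k F ⧸ H) = QuotientAddGroup.mk E' := Quotient.out_eq _
    rw [QuotientAddGroup.eq, hH] at h1
    obtain ⟨f, hf, h⟩ := h1
    refine ⟨QuotientAddGroup.mk E', f, hf, ?_⟩
    rw [← h]
    show E = _ + (-_ + E)
    abel
  · intro c c' f f' hf hf' h
    rw [← Quotient.out_eq c, ← Quotient.out_eq c']
    show (QuotientAddGroup.mk (Quotient.out c) : degZero k F ⧸ H) = QuotientAddGroup.mk (Quotient.out c')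
    rw [QuotientAddGroup.eq, hH]
    refine ⟨f * f'⁻¹, mul_ne_zero hf (inv_ne_zero hf'), ?_⟩
    rw [divisor_mul hf (inv_ne_zero hf'), divisor_inv]
    have h2 : (Quotient.out c').1 = (Quotient.out c).1 + divisor k f - divisor k f' := by
      rw [h]; abel
    show -_ + (Quotient.out c').1 = _
    rw [h2]; abel

theorem exact_count (k F : Type) [Field k] [Finite k] [Field F] [Algebra k F] [FF.IsFF k F]
    (hconst : ∀ a : F, IsAlgebraic k a → a ∈ (algebraMap k F).range) :
    ∃ (m0 : ℕ) (γ : ℤ), ∀ m : ℕ, m0 ≤ m → 0 ≤ m - γ ∧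
      H387R3.ZT.bnum k F m * (Nat.card k - 1) =
        classNumber k F * (Nat.card k ^ (m - γ).toNat - 1) := by
  classical
  have hdeg : ∀ d : ℕ, (∀ v : FF.Place k F, d ∣ v.deg) → d = 1 :=
    H675R3.ZT.taskSch H107R3.ZT.taskUp H142R3.ZTLow.taskLow H123R3.ZT.taskConst k F hconst
  obtain ⟨γ, N, hγ, hN⟩ := riemann k F
  obtain ⟨Cl, R, hCl, hR0, hRex, hRun⟩ := exists_reps' k F
  obtain ⟨D1, hD1⟩ := exists_ddeg_one (k := k) (F := F) hdeg
  rw [← hCl]
  refine ⟨(max N γ).toNat, γ, ?_⟩
  intro m hm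
  have hmN : N ≤ (m : ℤ) := by omega
  have hmγ : γ ≤ (m : ℤ) := by omega
  refine ⟨by omega, ?_⟩
  have hdm : ∀ c, ddeg (R c + m • D1) = m := by
    intro c
    rw [ddeg_add, hR0, ddeg_nsmul, hD1]; ring
  have hX : ∀ c : Cl, Nat.card {f : LL (R c + m • D1) // f ≠ 0} =
      Nat.card k ^ ((m : ℤ) - γ).toNat - 1 := by
    intro c
    apply card_LL_ne
    have h1 := hN (R c + m • D1) (by rw [hdm]; exact hmN)
    rw [hdm] at h1
    unfold ell at h1
    omega
  have hfinX : ∀ c : Cl, Finite {f : LL (R c + m • D1) // f ≠ 0} := by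
    intro c
    have : Finite (LL (R c + m • D1)) := Module.finite_of_finite k
    infer_instance
  have e1 : ∀ c : Cl, {f : LL (R c + m • D1) // f ≠ 0} ≃
      Fin (Nat.card k ^ ((m : ℤ) - γ).toNat - 1) := fun c => Finite.equivFinOfCardEq (hX c)
  have hcard1 : Nat.card (Σ c : Cl, {f : LL (R c + m • D1) // f ≠ 0}) =
      Nat.card Cl * (Nat.card k ^ ((m : ℤ) - γ).toNat - 1) := by
    rw [Nat.card_congr ((Equiv.sigmaCongrRight e1).trans (Equiv.sigmaEquivProd _ _)),
      Nat.card_prod, Nat.card_fin]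
  -- choice of a class and a function
  have hch : ∀ E : {D : FF.Place k F →₀ ℕ // (D.sum fun v n => n * v.deg) = m},
      ∃ (c : Cl) (f : F), f ≠ 0 ∧ nd E.1 = R c + m • D1 + divisor k f := by
    intro E
    have h1 : ddeg (nd E.1 - m • D1) = 0 := by
      rw [ddeg_sub, ddeg_nd, E.2, ddeg_nsmul, hD1]; ring
    obtain ⟨c, f, hf, h⟩ := hRex _ h1
    refine ⟨c, f, hf, ?_⟩
    rw [sub_eq_iff_eq_add] at h
    rw [h]; abel
  choose cE fE hfE0 hfE using hch
  have hmem : ∀ (E : {D : FF.Place k F →₀ ℕ // (D.sum fun v n => n * v.deg) = m}) (a : kˣ),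
      (a : k) • fE E ∈ LL (R (cE E) + m • D1) := by
    intro E a
    apply Submodule.smul_mem
    rw [mem_LL' (hfE0 E)]
    have h1 := hfE E
    have h2 : divisor k (fE E) + (R (cE E) + m • D1) = nd E.1 := by rw [h1]; abel
    rw [h2]
    intro P
    simp [nd]
  let Φ : {D : FF.Place k F →₀ ℕ // (D.sum fun v n => n * v.deg) = m} × kˣ →
      (Σ c : Cl, {f : LL (R c + m • D1) // f ≠ 0}) := fun x =>
    ⟨cE x.1, ⟨⟨(x.2 : k) • fE x.1, hmem x.1 x.2⟩, by
      intro h0
      have h1 : (x.2 : k) • fE x.1 = 0 := congrArg Subtype.val h0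
      rcases smul_eq_zero.mp h1 with h | h
      · exact x.2.ne_zero h
      · exact hfE0 _ h⟩⟩
  let val : (Σ c : Cl, {f : LL (R c + m • D1) // f ≠ 0}) → Cl × F := fun y => (y.1, (y.2.1 : F))
  have hval : Function.Injective val := by
    rintro ⟨c, f⟩ ⟨c', f'⟩ h
    obtain ⟨h1, h2⟩ := Prod.mk.inj h
    dsimp only at h1 h2
    subst h1
    have : f = f' := Subtype.ext (Subtype.ext h2)
    rw [this]
  have hΦ : Function.Bijective Φ := by
    constructor
    · rintro ⟨E, a⟩ ⟨E', a'⟩ h
      have h1 := congrArg val h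
      obtain ⟨h2, h3⟩ := Prod.mk.inj h1
      dsimp only [Φ] at h2 h3
      have h4 : divisor k (fE E) = divisor k (fE E') := by
        rw [← divisor_smul a.ne_zero (fE E), h3, divisor_smul a'.ne_zero]
      have h5 : nd E.1 = nd E'.1 := by rw [hfE E, hfE E', h2, h4]
      have h6 : E = E' := Subtype.ext (nd_injective h5)
      subst h6
      have h7 : (a : k) = a' := smul_left_injective k (hfE0 E) h3
      rw [Units.ext h7]
    · rintro ⟨c, ⟨⟨f, hf⟩, hf0⟩⟩
      have hf0' : f ≠ 0 := fun h => hf0 (Subtype.ext h)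
      have h1 := (mem_LL' hf0').mp hf
      obtain ⟨D, hD⟩ := exists_nd h1
      rw [zero_add] at hD
      have hDm : (D.sum fun v n => n * v.deg) = m := by
        have h2 := ddeg_nd D
        rw [← hD, ddeg_add, ddeg_divisor, hdm, zero_add] at h2
        exact_mod_cast h2.symm
      have h3 := hfE ⟨D, hDm⟩
      dsimp only at h3
      rw [← hD] at h3
      have h4 : R c + divisor k f = R (cE ⟨D, hDm⟩) + divisor k (fE ⟨D, hDm⟩) := by
        have h5 : (R c + divisor k f) + m • D1 = (R (cE ⟨D, hDm⟩) + divisor k (fE ⟨D, hDm⟩)) + m • D1 := by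
          calc (R c + divisor k f) + m • D1 = divisor k f + (R c + m • D1) := by abel
            _ = R (cE ⟨D, hDm⟩) + m • D1 + divisor k (fE ⟨D, hDm⟩) := h3
            _ = _ := by abel
        exact add_right_cancel h5
      have h6 : c = cE ⟨D, hDm⟩ := hRun _ _ _ _ hf0' (hfE0 _) h4
      have h7 : divisor k f = divisor k (fE ⟨D, hDm⟩) := by
        rw [← h6] at h4
        exact add_left_cancel h4
      have h8 : divisor k (f * (fE ⟨D, hDm⟩)⁻¹) = 0 := by
        rw [divisor_mul hf0' (inv_ne_zero (hfE0 _)), divisor_inv, h7]; abel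
      have h9 := isAlgebraic_of_divisor (mul_ne_zero hf0' (inv_ne_zero (hfE0 ⟨D, hDm⟩))) h8
      obtain ⟨a, ha⟩ := hconst _ h9
      have ha0 : a ≠ 0 := by
        rintro rfl
        rw [map_zero] at ha
        exact mul_ne_zero hf0' (inv_ne_zero (hfE0 ⟨D, hDm⟩)) ha.symm
      refine ⟨(⟨D, hDm⟩, Units.mk0 a ha0), ?_⟩
      apply hval
      refine Prod.ext h6.symm ?_
      show (a : k) • fE ⟨D, hDm⟩ = f
      rw [Algebra.smul_def, ha, inv_mul_cancel_right₀ (hfE0 _)]
  have hcard2 := Nat.card_congr (Equiv.ofBijective Φ hΦ)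
  rw [hcard1, Nat.card_prod, Nat.card_units] at hcard2
  exact hcard2

end exact

section num

open Pool.Agent.H525R3.FFp

/-- a polynomial `P = (1 - X) Q` with `Q` a power series with constant coefficients `h` from some
index on satisfies `P(1) = h` -/
theorem eval_one_of_tail (P : Polynomial ℤ) (Q : PowerSeries ℤ) (h : ℤ) (M : ℕ)
    (hP : (P : PowerSeries ℤ) = (1 - X) * Q) (hQ : ∀ n, M ≤ n → coeff n Q = h) : P.eval 1 = h := by
  have h1 : ∀ n, ∑ i ∈ Finset.range (n + 1), P.coeff i = coeff n Q := by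
    intro n
    induction n with
    | zero =>
      have := congrArg (coeff 0) hP
      rw [Polynomial.coeff_coe] at this
      rw [Finset.sum_range_one, this, sub_mul, one_mul, map_sub, coeff_zero_X_mul, sub_zero]
    | succ n ih =>
      have := congrArg (coeff (n + 1)) hP
      rw [Polynomial.coeff_coe] at this
      rw [Finset.sum_range_succ, ih, this, sub_mul, one_mul, map_sub, coeff_succ_X_mul]
      ring
  have h2 := Polynomial.eval_eq_sum_range' (p := P) (n := max M P.natDegree + 1) (by omega) 1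
  simp only [one_pow, mul_one] at h2
  rw [h2, h1, hQ _ (le_max_left _ _)]

theorem exists_num (k F : Type) [Field k] [Finite k] [Field F] [Algebra k F] [FF.IsFF k F]
    (hconst : ∀ a : F, IsAlgebraic k a → a ∈ (algebraMap k F).range) :
    ∃ P : Polynomial ℤ, IsZetaNum k F P ∧ P.eval 1 = classNumber k F := by
  obtain ⟨m0, γ, hex⟩ := exact_count k F hconst
  have hq : 2 ≤ Nat.card k := by
    have := Finite.one_lt_card (α := k)
    omega
  set q : ℤ := (Nat.card k : ℤ) with hqdef
  set B : PowerSeries ℤ := PowerSeries.mk (fun m => (H387R3.ZT.bnum k F m : ℤ)) with hB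
  have hb : ∀ m, m0 ≤ m → ((H387R3.ZT.bnum k F m : ℤ)) * (q - 1) =
      classNumber k F * (q ^ (m - γ).toNat - 1) := by
    intro m hm
    have h1 := congrArg (Nat.cast (R := ℤ)) (hex m hm).2
    rw [Nat.cast_mul, Nat.cast_mul, Nat.cast_sub (by omega), Nat.cast_sub (Nat.one_le_pow _ _ (by omega)),
      Nat.cast_pow, Nat.cast_one] at h1
    exact h1
  have hq1 : q - 1 ≠ 0 := by omega
  set Q : PowerSeries ℤ := (1 - C q * X) * B with hQ
  have hQc : ∀ n, m0 + 1 ≤ n → coeff n Q = classNumber k F := by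
    intro n hn
    obtain ⟨i, rfl⟩ : ∃ i, n = i + 1 := ⟨n - 1, by omega⟩
    have e1 : coeff (i + 1) Q = (H387R3.ZT.bnum k F (i + 1) : ℤ) - q * H387R3.ZT.bnum k F i := by
      have : Q = B - C q * (B * X) := by rw [hQ]; ring
      rw [this, map_sub, coeff_C_mul, coeff_succ_mul_X, hB, coeff_mk, coeff_mk]
    rw [e1]
    apply mul_right_cancel₀ hq1
    have n0 : 0 ≤ (i : ℤ) - γ := (hex i (by omega)).1
    have a0 := hb i (by omega)
    have a1 := hb (i + 1) (by omega)
    have t1 : (((i + 1 : ℕ) : ℤ) - γ).toNat = ((i : ℤ) - γ).toNat + 1 := by omega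
    rw [t1] at a1
    linear_combination a1 - q * a0
  have hPc : ∀ n, m0 + 2 ≤ n → coeff n ((1 - X) * Q) = 0 := by
    intro n hn
    obtain ⟨i, rfl⟩ : ∃ i, n = i + 1 := ⟨n - 1, by omega⟩
    rw [sub_mul, one_mul, map_sub, coeff_succ_X_mul, hQc _ (by omega), hQc _ (by omega), sub_self]
  obtain ⟨P, hP⟩ : ∃ P : Polynomial ℤ, (P : PowerSeries ℤ) = (1 - X) * Q := by
    refine ⟨trunc (m0 + 2) ((1 - X) * Q), ?_⟩
    ext n
    rw [Polynomial.coeff_coe, coeff_trunc]
    split_ifs with h
    · rfl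
    · exact (hPc n (by omega)).symm
  refine ⟨P, ?_, eval_one_of_tail P Q _ (m0 + 1) hP hQc⟩
  have hE := euler_mul_count (fun v : FF.Place k F => v.deg)
    (fun v => (deg_pos v).ne') (fun n => H107R3.ZT.places_finite n)
  have hB' : B = PowerSeries.mk (fun m => (Nat.card {D : FF.Place k F →₀ ℕ //
      (D.sum fun v n => n * v.deg) = m} : ℤ)) := rfl
  rw [← hB'] at hE
  unfold IsZetaNum
  rw [hP, hQ]
  linear_combination ((1 - X) * (1 - C q * X)) * hE

end num

end Pool.Agent.W343.BSD
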