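import Pool.Agent.W343.BSD.Family
import Pool.Agent.W343.BSD.Count
import Pool.Agent.W343.BSD.Zeta

/-!
The `L`-function of an elliptic curve `y ^ 2 = x ^ 3 + a x + b` over a function field.
-/

set_option autoImplicit false
set_option linter.all false
set_option maxHeartbeats 4000000

open PowerSeries FF Module

namespace Pool.Agent.W343.BSD

open Pool.Agent.H123R3.ZT

section defs

variable {k K : Type} [Field k] [Field K] [Algebra k K]

/-- The model `y ^ 2 = x ^ 3 + c ^ 4 a x + c ^ 6 b` of `y ^ 2 = x ^ 3 + a x + b` has coefficients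
regular at `v` and is minimal at `v` (characteristic at least `5`). -/
def IsMinScale (v : FF.Place k K) (a b c : K) : Prop :=
  c ≠ 0 ∧ v.Reg (c ^ 4 * a) ∧ v.Reg (c ^ 6 * b) ∧
    ¬ ((a = 0 ∨ 4 ≤ v.ord (c ^ 4 * a)) ∧ (b = 0 ∨ 6 ≤ v.ord (c ^ 6 * b)))

open Classical in
/-- A scaling factor giving a minimal model at `v`. -/
noncomputable def minScale (v : FF.Place k K) (a b : K) : K :=
  if h : ∃ c, IsMinScale v a b c then h.choose else 1

/-- The coefficient `A` of a minimal model `y ^ 2 = x ^ 3 + A x + B` at `v`. -/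
noncomputable def minA (v : FF.Place k K) (a b : K) : K := minScale v a b ^ 4 * a

/-- The coefficient `B` of a minimal model `y ^ 2 = x ^ 3 + A x + B` at `v`. -/
noncomputable def minB (v : FF.Place k K) (a b : K) : K := minScale v a b ^ 6 * b

/-- `4 A ^ 3 + 27 B ^ 2` for a minimal model `y ^ 2 = x ^ 3 + A x + B` at `v`; the minimal
discriminant is `-16` times this. -/
noncomputable def minDisc (v : FF.Place k K) (a b : K) : K :=
  4 * minA v a b ^ 3 + 27 * minB v a b ^ 2

/-- The trace `a_v`: the number of elements of the residue field minus the number of affine points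
of the reduction of a minimal model. It is `q_v + 1 - |E_v(F_v)|` at the places of good reduction,
`1`, `-1`, `0` at the places of split multiplicative, nonsplit multiplicative, additive
reduction. -/
noncomputable def trace (v : FF.Place k K) (a b : K) : ℤ :=
  (Nat.card v.RF : ℤ) -
    Nat.card {P : v.RF × v.RF // P.2 ^ 2 = P.1 ^ 3 + v.red (minA v a b) * P.1 + v.red (minB v a b)}

open Classical in
/-- The Euler factor at `v`: `1 - a_v T ^ deg v + q_v T ^ (2 deg v)` for good reduction,
`1 - a_v T ^ deg v` for bad reduction. -/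
noncomputable def locFactor (v : FF.Place k K) (a b : K) : Polynomial ℤ :=
  1 - Polynomial.C (trace v a b) * Polynomial.X ^ v.deg +
    if v.red (minDisc v a b) ≠ 0 then
      Polynomial.C (Nat.card v.RF : ℤ) * Polynomial.X ^ (2 * v.deg) else 0

/-- The `L`-function `L(T, E) = ∏_v L_v(T)⁻¹` of `E : y ^ 2 = x ^ 3 + a x + b` over `K`. -/
noncomputable def Lfun (k : Type) {K : Type} [Field k] [Field K] [Algebra k K] (a b : K) :
    PowerSeries ℤ :=
  eulerProd (fun v : FF.Place k K => v.deg)
    (fun v => invOfUnit (locFactor v a b : PowerSeries ℤ) 1)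

open Classical in
/-- The local term: `0` for good reduction; for multiplicative reduction `1` if the valuation of the
minimal discriminant is even and `0` if it is odd; for additive reduction `1` if the valuation of
the minimal discriminant is odd, and otherwise `2` or `0` according to whether the cubic has a root
in the completion or not. -/
noncomputable def localTerm (v : FF.Place k K) (a b : K) : ℕ :=
  if v.red (minDisc v a b) ≠ 0 then 0
  else if v.red (minA v a b) ≠ 0 then (if Even (v.ord (minDisc v a b)) then 1 else 0)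
  else if Odd (v.ord (minDisc v a b)) then 1
  else if LocalRoot v (minA v a b) (minB v a b) then 2 else 0

end defs

section min

variable {k K : Type} [Field k] [Field K] [Algebra k K]

theorem exists_minScale (v : FF.Place k K) {a b : K} (hab : a ≠ 0 ∨ b ≠ 0) :
    ∃ c, IsMinScale v a b c := by
  classical
  obtain ⟨t, ht0, ht⟩ := v.surj
  -- the condition that `t ^ n` gives a regular model
  let P : ℤ → Prop := fun n => (a = 0 ∨ 0 ≤ 4 * n + v.ord a) ∧ (b = 0 ∨ 0 ≤ 6 * n + v.ord b)
  have hord4 : ∀ n : ℤ, a ≠ 0 → v.ord ((t ^ n) ^ 4 * a) = 4 * n + v.ord a := by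
    intro n ha
    rw [v.ord_mul (pow_ne_zero 4 (zpow_ne_zero n ht0)) ha, v.ord_pow, v.ord_zpow, ht]
    push_cast; ring
  have hord6 : ∀ n : ℤ, b ≠ 0 → v.ord ((t ^ n) ^ 6 * b) = 6 * n + v.ord b := by
    intro n hb
    rw [v.ord_mul (pow_ne_zero 6 (zpow_ne_zero n ht0)) hb, v.ord_pow, v.ord_zpow, ht]
    push_cast; ring
  have hP1 : ∃ n, P n := by
    refine ⟨|v.ord a| + |v.ord b|, Or.inr ?_, Or.inr ?_⟩
    · have := neg_abs_le (v.ord a)
      have := abs_nonneg (v.ord b)
      have := abs_nonneg (v.ord a)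
      omega
    · have := neg_abs_le (v.ord b)
      have := abs_nonneg (v.ord b)
      have := abs_nonneg (v.ord a)
      omega
  have hP2 : ∃ m : ℤ, ∀ n, P n → m ≤ n := by
    refine ⟨-(|v.ord a| + |v.ord b|), fun n hn => ?_⟩
    have h1 := le_abs_self (v.ord a)
    have h2 := le_abs_self (v.ord b)
    have h3 := abs_nonneg (v.ord b)
    have h4 := abs_nonneg (v.ord a)
    rcases hab with ha | hb
    · have := hn.1.resolve_left ha
      omega
    · have := hn.2.resolve_left hb
      omega
  obtain ⟨n, hn, hmin⟩ := Int.exists_least_of_bdd (P := P) hP2 hP1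
  have hn1 : ¬ P (n - 1) := fun h => by
    have := hmin _ h
    omega
  refine ⟨t ^ n, zpow_ne_zero n ht0, ?_, ?_, ?_⟩
  · by_cases ha : a = 0
    · left; rw [ha, mul_zero]
    · right; rw [hord4 n ha]; exact hn.1.resolve_left ha
  · by_cases hb : b = 0
    · left; rw [hb, mul_zero]
    · right; rw [hord6 n hb]; exact hn.2.resolve_left hb
  · rintro ⟨h1, h2⟩
    apply hn1
    constructor
    · by_cases ha : a = 0
      · exact Or.inl ha
      · right
        have := h1.resolve_left ha
        rw [hord4 n ha] at this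
        omega
    · by_cases hb : b = 0
      · exact Or.inl hb
      · right
        have := h2.resolve_left hb
        rw [hord6 n hb] at this
        omega

theorem minScale_spec (v : FF.Place k K) {a b : K} (hab : a ≠ 0 ∨ b ≠ 0) :
    IsMinScale v a b (minScale v a b) := by
  unfold minScale
  rw [dif_pos (exists_minScale v hab)]
  exact (exists_minScale v hab).choose_spec

theorem reg_minA (v : FF.Place k K) {a b : K} (hab : a ≠ 0 ∨ b ≠ 0) : v.Reg (minA v a b) :=
  (minScale_spec v hab).2.1

theorem reg_minB (v : FF.Place k K) {a b : K} (hab : a ≠ 0 ∨ b ≠ 0) : v.Reg (minB v a b) :=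
  (minScale_spec v hab).2.2.1

theorem minDisc_eq (v : FF.Place k K) (a b : K) :
    minDisc v a b = minScale v a b ^ 12 * (4 * a ^ 3 + 27 * b ^ 2) := by
  unfold minDisc minA minB
  ring

theorem ab_of_disc {a b : K} (hΔ : 4 * a ^ 3 + 27 * b ^ 2 ≠ 0) : a ≠ 0 ∨ b ≠ 0 := by
  by_contra h
  push Not at h
  apply hΔ
  rw [h.1, h.2]; ring

theorem minDisc_ne (v : FF.Place k K) {a b : K} (hΔ : 4 * a ^ 3 + 27 * b ^ 2 ≠ 0) :
    minDisc v a b ≠ 0 := by
  rw [minDisc_eq]
  exact mul_ne_zero (pow_ne_zero 12 (minScale_spec v (ab_of_disc hΔ)).1) hΔ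

/-- good reduction at almost all places -/
theorem good_of_ord (v : FF.Place k K) {a b : K} (hΔ : 4 * a ^ 3 + 27 * b ^ 2 ≠ 0)
    (ha : 0 ≤ v.ord a) (hb : 0 ≤ v.ord b) (hd : v.ord (4 * a ^ 3 + 27 * b ^ 2) = 0) :
    v.red (minDisc v a b) ≠ 0 := by
  obtain ⟨hc0, hra, hrb, hmin⟩ := minScale_spec v (ab_of_disc hΔ)
  set c := minScale v a b with hc
  have hreg : v.Reg (minDisc v a b) :=
    v.reg_add (v.reg_mul reg_four (reg_pow (reg_minA v (ab_of_disc hΔ)) 3))
      (v.reg_mul reg_27 (reg_pow (reg_minB v (ab_of_disc hΔ)) 2))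
  have h1 : v.ord (minDisc v a b) = 12 * v.ord c := by
    rw [minDisc_eq, v.ord_mul (pow_ne_zero 12 hc0) hΔ, v.ord_pow, hd]
    push_cast; ring
  have h2 := (v.reg_iff (minDisc_ne v hΔ)).1 hreg
  have h3 : v.ord c ≤ 0 := by
    by_contra h
    push Not at h
    apply hmin
    constructor
    · by_cases h0 : a = 0
      · exact Or.inl h0
      · right
        rw [v.ord_mul (pow_ne_zero 4 hc0) h0, v.ord_pow]
        push_cast; omega
    · by_cases h0 : b = 0
      · exact Or.inl h0
      · right
        rw [v.ord_mul (pow_ne_zero 6 hc0) h0, v.ord_pow]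
        push_cast; omega
  exact v.red_ne_zero (minDisc_ne v hΔ) (by omega)

theorem bad_finite [Finite k] [FF.IsFF k K] {a b : K} (hΔ : 4 * a ^ 3 + 27 * b ^ 2 ≠ 0) :
    {v : FF.Place k K | v.red (minDisc v a b) = 0}.Finite := by
  refine (((H525R3.FFp.finite_support (k := k) a).union (H525R3.FFp.finite_support (k := k) b)).union
    (H525R3.FFp.finite_support (k := k) (4 * a ^ 3 + 27 * b ^ 2))).subset ?_
  intro v hv
  by_contra h
  simp only [Set.mem_union, Set.mem_setOf_eq, not_or, not_not] at h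
  exact good_of_ord v hΔ h.1.1.ge h.1.2.ge h.2 hv

end min

section modTwo

variable {k K : Type} [Field k] [Finite k] [Field K] [Algebra k K] [FF.IsFF k K]

instance finite_RF (v : FF.Place k K) : Finite v.RF := Module.finite_of_finite k

theorem ne_RF (v : FF.Place k K) {n : ℕ} (hn : (n : k) ≠ 0) : (n : v.RF) ≠ 0 := by
  rw [← map_natCast (algebraMap k v.RF)]
  exact (_root_.map_ne_zero _).2 hn

theorem two_ne (h6 : (6 : k) ≠ 0) : ((2 : ℕ) : k) ≠ 0 := by
  intro h
  apply h6
  have : (6 : k) = ((2 : ℕ) : k) * 3 := by norm_num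
  rw [this, h, zero_mul]

theorem three_ne (h6 : (6 : k) ≠ 0) : ((3 : ℕ) : k) ≠ 0 := by
  intro h
  apply h6
  have : (6 : k) = ((3 : ℕ) : k) * 2 := by norm_num
  rw [this, h, zero_mul]

theorem card_odd {F : Type} [Field F] [Finite F] (h2 : (2 : F) ≠ 0) :
    ((Nat.card F : ℕ) : ZMod 2) = 1 := by
  classical
  have : Fintype F := Fintype.ofFinite F
  have hc : ringChar F ≠ 2 := by
    intro h
    apply h2
    have := ringChar.Nat.cast_ringChar (R := F)
    rw [h] at this
    exact_mod_cast this
  have h1 := FiniteField.odd_card_of_char_ne_two hc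
  rw [Nat.card_eq_fintype_card]
  have h3 := (ZMod.natCast_eq_natCast_iff' (Fintype.card F) 1 2).2 (by omega)
  rw [h3, Nat.cast_one]

theorem trace_mod (h6 : (6 : k) ≠ 0) (v : FF.Place k K) (a b : K) :
    ((trace v a b : ℤ) : ZMod 2) = 1 + (Nat.card {x : v.RF // x ^ 3 + v.red (minA v a b) * x +
      v.red (minB v a b) = 0} : ℕ) := by
  have h2 : (2 : v.RF) ≠ 0 := by
    have := ne_RF v (two_ne h6)
    exact_mod_cast this
  unfold trace
  rw [Int.cast_sub, Int.cast_natCast, Int.cast_natCast, card_odd h2, count_parity h2]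
  exact CharTwo.sub_eq_add _ _

/-- the Euler factor modulo two -/
noncomputable def locMod (v : FF.Place k K) (a b : K) : Polynomial (ZMod 2) :=
  (locFactor v a b).map (Int.castRingHom (ZMod 2))

open Classical in
theorem locMod_eq (v : FF.Place k K) (a b : K) : locMod v a b =
    1 - Polynomial.C ((trace v a b : ℤ) : ZMod 2) * Polynomial.X ^ v.deg +
      (if v.red (minDisc v a b) ≠ 0 then
        Polynomial.C ((Nat.card v.RF : ℕ) : ZMod 2) * Polynomial.X ^ (2 * v.deg) else 0) := by
  unfold locMod locFactor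
  rw [Polynomial.map_add, Polynomial.map_sub, Polynomial.map_one, Polynomial.map_mul,
    Polynomial.map_C, Polynomial.map_pow, Polynomial.map_X]
  split_ifs
  · rw [Polynomial.map_mul, Polynomial.map_C, Polynomial.map_pow, Polynomial.map_X, map_natCast]
    rfl
  · rw [Polynomial.map_zero]
    rfl

theorem locMod_good_root (h6 : (6 : k) ≠ 0) (v : FF.Place k K) {a b : K}
    (hab : a ≠ 0 ∨ b ≠ 0) (hΔ : v.red (minDisc v a b) ≠ 0)
    (hr : ∃ r : v.RF, r ^ 3 + v.red (minA v a b) * r + v.red (minB v a b) = 0) :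
    locMod v a b = 1 + Polynomial.X ^ (2 * v.deg) := by
  have h2 : (2 : v.RF) ≠ 0 := by
    have := ne_RF v (two_ne h6)
    exact_mod_cast this
  have hΔ' := hΔ
  unfold minDisc at hΔ'
  rw [red_disc (reg_minA v hab) (reg_minB v hab)] at hΔ'
  have ht : ((trace v a b : ℤ) : ZMod 2) = 0 := by
    rw [trace_mod h6, roots_odd hΔ' hr]
    exact CharTwo.add_self_eq_zero 1
  rw [locMod_eq, if_pos hΔ, ht, card_odd h2]
  simp

theorem locMod_good_noRoot (h6 : (6 : k) ≠ 0) (v : FF.Place k K) {a b : K}
    (hΔ : v.red (minDisc v a b) ≠ 0)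
    (hr : ¬ ∃ r : v.RF, r ^ 3 + v.red (minA v a b) * r + v.red (minB v a b) = 0) :
    locMod v a b = 1 + Polynomial.X ^ v.deg + Polynomial.X ^ (2 * v.deg) := by
  have h2 : (2 : v.RF) ≠ 0 := by
    have := ne_RF v (two_ne h6)
    exact_mod_cast this
  have ht : ((trace v a b : ℤ) : ZMod 2) = 1 := by
    rw [trace_mod h6, roots_none hr]
    simp
  rw [locMod_eq, if_pos hΔ, ht, card_odd h2]
  simp only [map_one, one_mul]
  rw [CharTwo.sub_eq_add]

theorem locMod_mult (h6 : (6 : k) ≠ 0) (v : FF.Place k K) {a b : K} (hab : a ≠ 0 ∨ b ≠ 0)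
    (hΔ : v.red (minDisc v a b) = 0) (hA : v.red (minA v a b) ≠ 0) :
    locMod v a b = 1 + Polynomial.X ^ v.deg := by
  have h2 : (2 : v.RF) ≠ 0 := by
    have := ne_RF v (two_ne h6)
    exact_mod_cast this
  have h3 : (3 : v.RF) ≠ 0 := by
    have := ne_RF v (three_ne h6)
    exact_mod_cast this
  have hΔ' := hΔ
  unfold minDisc at hΔ'
  rw [red_disc (reg_minA v hab) (reg_minB v hab)] at hΔ'
  have ht : ((trace v a b : ℤ) : ZMod 2) = 1 := by
    rw [trace_mod h6, roots_node h2 h3 hΔ' hA]
    have : ((2 : ℕ) : ZMod 2) = 0 := by decide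
    rw [this, add_zero]
  rw [locMod_eq, if_neg (not_not.2 hΔ), ht]
  simp only [map_one, one_mul, add_zero]
  rw [CharTwo.sub_eq_add]

theorem locMod_add (h6 : (6 : k) ≠ 0) (v : FF.Place k K) {a b : K} (hab : a ≠ 0 ∨ b ≠ 0)
    (hΔ : v.red (minDisc v a b) = 0) (hA : v.red (minA v a b) = 0) :
    locMod v a b = 1 := by
  have h3 : (3 : v.RF) ≠ 0 := by
    have := ne_RF v (three_ne h6)
    exact_mod_cast this
  have hΔ' := hΔ
  unfold minDisc at hΔ'
  rw [red_disc (reg_minA v hab) (reg_minB v hab), hA] at hΔ'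
  have hB : v.red (minB v a b) = 0 := by
    have h4 : (3 : v.RF) ^ 3 * v.red (minB v a b) ^ 2 = 0 := by linear_combination hΔ'
    rcases mul_eq_zero.1 h4 with h | h
    · exact absurd (pow_eq_zero_iff (three_ne_zero) |>.1 h) h3
    · exact pow_eq_zero_iff (two_ne_zero) |>.1 h
  have ht : ((trace v a b : ℤ) : ZMod 2) = 0 := by
    rw [trace_mod h6, roots_cusp hA hB, Nat.cast_one]
    exact CharTwo.add_self_eq_zero 1
  rw [locMod_eq, if_neg (not_not.2 hΔ), ht]
  simp

end modTwo

end Pool.Agent.W343.BSD
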