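import Pool.Agent.W343.BSD.Fiber
import Pool.Agent.W343.BSD.Elliptic
import Pool.Agent.H133R3.ZT.WA

/-!
The Galois group acts transitively on the places over a place.
-/

set_option autoImplicit false
set_option linter.all false
set_option maxHeartbeats 4000000

open FF Module

namespace Pool.Agent.W343.BSD

section

variable {k K L : Type} [Field k] [Field K] [Algebra k K] [Field L] [Algebra k L] [Algebra K L]
  [IsScalarTower k K L]

/-- the conjugate of a place -/
noncomputable def cj (σ : L ≃ₐ[K] L) (w : Place k L) : Place k L := w.comp (σ.restrictScalars k)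

theorem cj_ord (σ : L ≃ₐ[K] L) (w : Place k L) (x : L) : (cj σ w).ord x = w.ord (σ x) := rfl

theorem over_cj {w : Place k L} {v : Place k K} {e : ℕ} (h : Over w v e) (σ : L ≃ₐ[K] L) :
    Over (cj σ w) v e :=
  ⟨h.1, fun f => by rw [cj_ord, AlgEquiv.commutes]; exact h.2 f⟩

theorem over_e_unique {w : Place k L} {v : Place k K} {e e' : ℕ} (h : Over w v e)
    (h' : Over w v e') : e = e' := by
  obtain ⟨t, ht0, ht⟩ := v.surj
  have h1 := h.2 t
  have h2 := h'.2 t
  rw [ht, mul_one] at h1 h2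
  rw [h1] at h2
  exact_mod_cast h2

theorem ord_prod (w : Place k L) {ι : Type} (s : Finset ι) (f : ι → L) (hf : ∀ i ∈ s, f i ≠ 0) :
    w.ord (∏ i ∈ s, f i) = ∑ i ∈ s, w.ord (f i) := by
  classical
  induction s using Finset.induction_on with
  | empty => rw [Finset.prod_empty, Finset.sum_empty, w.ord_one]
  | insert i s hi ih =>
    rw [Finset.prod_insert hi, Finset.sum_insert hi, w.ord_mul (hf i (Finset.mem_insert_self i s))
      (Finset.prod_ne_zero_iff.2 fun j hj => hf j (Finset.mem_insert_of_mem hj)),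
      ih fun j hj => hf j (Finset.mem_insert_of_mem hj)]

theorem cj_mul (σ τ : L ≃ₐ[K] L) (w : Place k L) : cj σ (cj τ w) = cj (τ * σ) w := rfl

theorem exists_cj [FiniteDimensional K L] [IsGalois K L] {w w' : Place k L} {v : Place k K}
    {e e' : ℕ} (h : Over w v e) (h' : Over w' v e') : ∃ σ : L ≃ₐ[K] L, w' = cj σ w := by
  classical
  by_contra hcon
  push Not at hcon
  obtain ⟨S, -, -, hS, -, -⟩ := exists_fiber (L := L) v
  obtain ⟨f, hf⟩ := H133R3.ZT.taskWA k L S
    (fun x => if ∃ σ : L ≃ₐ[K] L, x = cj σ w then 1 else 0) 1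
  have h1 : ∀ σ : L ≃ₐ[K] L, f ≠ 0 ∧ w.ord (σ f) = 0 := by
    intro σ
    have h2 := hf (cj σ w) (hS _ _ (over_cj h σ))
    rw [if_pos ⟨σ, rfl⟩] at h2
    rcases h2 with h2 | h2
    · rw [h2]
      exact ⟨one_ne_zero, by rw [map_one, w.ord_one]⟩
    · have h3 : f ≠ 0 := by
        rintro rfl
        rw [zero_sub, Place.ord_neg, Place.ord_one] at h2
        omega
      refine ⟨h3, ?_⟩
      rw [← cj_ord]
      by_cases h4 : f - 1 = 0
      · rw [sub_eq_zero.1 h4, Place.ord_one]
      · have h5 := (cj σ w).ord_add_eq (f := 1) (g := f - 1) one_ne_zero h4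
          (by rw [Place.ord_one]; omega)
        rw [add_sub_cancel] at h5
        rw [h5.2, Place.ord_one]
  have hf0 := (h1 1).1
  have h2 : ∀ σ : L ≃ₐ[K] L, 0 < w'.ord (σ f) := by
    intro σ
    have h3 := hf (cj σ w') (hS _ _ (over_cj h' σ))
    have h4 : ¬ ∃ τ : L ≃ₐ[K] L, cj σ w' = cj τ w := by
      rintro ⟨τ, hτ⟩
      apply hcon (τ * σ⁻¹)
      have h5 := congrArg (cj σ⁻¹) hτ
      rw [cj_mul, cj_mul] at h5
      rw [mul_inv_cancel] at h5
      exact h5
    rw [if_neg h4] at h3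
    rcases h3 with h3 | h3
    · exact absurd h3 hf0
    · rw [sub_zero] at h3
      rw [← cj_ord]
      omega
  have hN := Algebra.norm_eq_prod_automorphisms K f
  have hne : ∀ σ ∈ (Finset.univ : Finset (L ≃ₐ[K] L)), σ f ≠ 0 := fun σ _ => by
    simpa using hf0
  have e1 := h.2 (Algebra.norm K f)
  have e2 := h'.2 (Algebra.norm K f)
  rw [hN, ord_prod _ _ _ hne] at e1 e2
  rw [Finset.sum_eq_zero (fun σ _ => (h1 σ).2)] at e1
  have e3 : v.ord (Algebra.norm K f) = 0 := by
    have := h.1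
    rcases mul_eq_zero.1 e1.symm with h5 | h5
    · omega
    · exact h5
  rw [e3, mul_zero] at e2
  have e4 : 0 < ∑ σ : L ≃ₐ[K] L, w'.ord (σ f) :=
    Finset.sum_pos (fun σ _ => h2 σ) Finset.univ_nonempty
  omega

theorem card_cj (σ : L ≃ₐ[K] L) (w : Place k L) : Nat.card (cj σ w).RF = Nat.card w.RF := by
  let φ : (cj σ w).O ≃+* w.O :=
    { toFun := fun x => ⟨σ x.1, x.2.imp (fun h => by rw [h, map_zero]) id⟩
      invFun := fun x => ⟨σ.symm x.1, x.2.imp (fun h => by rw [h, map_zero]) (fun h => by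
        show 0 ≤ w.ord (σ (σ.symm x.1))
        rwa [AlgEquiv.apply_symm_apply])⟩
      left_inv := fun x => Subtype.ext (σ.symm_apply_apply _)
      right_inv := fun x => Subtype.ext (σ.apply_symm_apply _)
      map_mul' := fun x y => Subtype.ext (map_mul σ _ _)
      map_add' := fun x y => Subtype.ext (map_add σ _ _) }
  exact Nat.card_congr (IsLocalRing.ResidueField.mapEquiv φ).toEquiv

theorem deg_cj [Finite k] [FF.IsFF k L] (σ : L ≃ₐ[K] L) (w : Place k L) :
    (cj σ w).deg = w.deg := by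
  have h1 : Nat.card (cj σ w).RF = Nat.card k ^ (cj σ w).deg :=
    Module.natCard_eq_pow_finrank (K := k) (V := (cj σ w).RF)
  have h2 : Nat.card w.RF = Nat.card k ^ w.deg :=
    Module.natCard_eq_pow_finrank (K := k) (V := w.RF)
  rw [card_cj, h2] at h1
  exact (Nat.pow_right_injective (Finite.one_lt_card (α := k)) h1).symm

/-- the fibre over `v` in a Galois extension -/
structure GaloisFiber (v : Place k K) (S : Finset (Place k L)) (e f : ℕ) : Prop where
  mem : ∀ w e', Over w v e' → w ∈ S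
  isOver : ∀ w ∈ S, Over w v e
  deg : ∀ w ∈ S, w.deg = v.deg * f
  nonempty : S.Nonempty
  mul : S.card * (e * f) = finrank K L

theorem exists_galoisFiber [Finite k] [FF.IsFF k K] [FF.IsFF k L] [FiniteDimensional K L]
    [IsGalois K L] (v : Place k K) :
    ∃ (S : Finset (Place k L)) (e f : ℕ), GaloisFiber v S e f := by
  classical
  obtain ⟨S, e, f, hS, hSo, hsum⟩ := exists_fiber (L := L) v
  have hne : S.Nonempty := by
    rw [Finset.nonempty_iff_ne_empty]
    rintro rfl
    rw [Finset.sum_empty] at hsum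
    have : 0 < finrank K L := finrank_pos
    omega
  obtain ⟨w0, hw0⟩ := hne
  have hv : 0 < v.deg := H525R3.FFp.deg_pos v
  have he : ∀ w ∈ S, e w = e w0 := by
    intro w hw
    obtain ⟨σ, rfl⟩ := exists_cj (hSo w0 hw0).1 (hSo w hw).1
    exact over_e_unique (hSo _ hw).1 (over_cj (hSo w0 hw0).1 σ)
  have hf : ∀ w ∈ S, f w = f w0 := by
    intro w hw
    obtain ⟨σ, rfl⟩ := exists_cj (hSo w0 hw0).1 (hSo w hw).1
    have h1 := (hSo _ hw).2.2
    rw [deg_cj, (hSo w0 hw0).2.2] at h1
    exact (Nat.eq_of_mul_eq_mul_left hv h1).symm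
  refine ⟨S, e w0, f w0, hS, fun w hw => ?_, fun w hw => ?_, ⟨w0, hw0⟩, ?_⟩
  · rw [← he w hw]; exact (hSo w hw).1
  · rw [← hf w hw]; exact (hSo w hw).2.2
  · rw [← hsum, Finset.sum_congr rfl (fun w hw => by rw [he w hw, hf w hw]), Finset.sum_const,
      smul_eq_mul]

end

end Pool.Agent.W343.BSD
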