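import Mathlib

/-!
Combinatorics of ramification indices and residue degrees with sum of products three.
-/

set_option autoImplicit false

namespace Pool.Agent.W343.BSD

/-- the largest power of two dividing `n` -/
def twoPart (n : ℕ) : ℕ := 2 ^ padicValNat 2 n

theorem twoPart_le {n : ℕ} (hn : 0 < n) : twoPart n ≤ n :=
  Nat.le_of_dvd hn pow_padicValNat_dvd

theorem twoPart_mul {m n : ℕ} (hm : 0 < m) (hn : 0 < n) :
    twoPart (m * n) = twoPart m * twoPart n := by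
  unfold twoPart
  rw [padicValNat.mul (by omega) (by omega), pow_add]

theorem twoPart_one : twoPart 1 = 1 := by simp [twoPart]

theorem twoPart_three : twoPart 3 = 1 := by
  unfold twoPart
  rw [padicValNat.eq_zero_of_not_dvd (by norm_num)]
  rfl

section

variable {J : Type*} [DecidableEq J] {S : Finset J} {e f : J → ℕ}

theorem sum_twoPart_le (hpos : ∀ j ∈ S, 0 < e j ∧ 0 < f j) :
    ∑ j ∈ S, twoPart (f j) ≤ ∑ j ∈ S, e j * f j := by
  refine Finset.sum_le_sum fun j hj => ?_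
  exact (twoPart_le (hpos j hj).2).trans (Nat.le_mul_of_pos_left _ (hpos j hj).1)

theorem single_of_two_le (hpos : ∀ j ∈ S, 2 ≤ e j * f j) {n : ℕ} (hn : n = 2 ∨ n = 3)
    (hsum : ∑ j ∈ S, e j * f j = n) : ∃ j, S = {j} ∧ e j * f j = n := by
  have h1 : S.card ≤ 1 := by
    have h2 := Finset.card_nsmul_le_sum S (fun j => e j * f j) 2 hpos
    rw [hsum, smul_eq_mul] at h2
    omega
  have h3 : S.card = 1 := by
    rcases Nat.lt_or_ge S.card 1 with h | h
    · have h4 : S = ∅ := Finset.card_eq_zero.1 (by omega)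
      rw [h4, Finset.sum_empty] at hsum
      omega
    · omega
  obtain ⟨j, hj⟩ := Finset.card_eq_one.1 h3
  refine ⟨j, hj, ?_⟩
  rw [hj, Finset.sum_singleton] at hsum
  exact hsum

/-- no place with trivial ramification and residue degree -/
theorem comb_none (hpos : ∀ j ∈ S, 0 < e j ∧ 0 < f j) (hsum : ∑ j ∈ S, e j * f j = 3)
    (h : ∀ j ∈ S, ¬ (e j = 1 ∧ f j = 1)) :
    ∃ j, S = {j} ∧ ((e j = 1 ∧ f j = 3) ∨ (e j = 3 ∧ f j = 1)) := by
  have h2 : ∀ j ∈ S, 2 ≤ e j * f j := by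
    intro j hj
    obtain ⟨h3, h4⟩ := hpos j hj
    by_contra hlt
    have h5 : e j * f j = 1 := by
      have := Nat.mul_pos h3 h4
      omega
    exact h j hj ⟨Nat.eq_one_of_mul_eq_one_right h5, Nat.eq_one_of_mul_eq_one_left h5⟩
  obtain ⟨j, hj, h3⟩ := single_of_two_le h2 (Or.inr rfl) hsum
  refine ⟨j, hj, ?_⟩
  have h4 : e j ∣ 3 := ⟨_, h3.symm⟩
  rcases (Nat.dvd_prime Nat.prime_three).1 h4 with h5 | h5
  · left; rw [h5] at h3; exact ⟨h5, by omega⟩
  · right; rw [h5] at h3; exact ⟨h5, by omega⟩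

theorem sum_twoPart_none (hpos : ∀ j ∈ S, 0 < e j ∧ 0 < f j) (hsum : ∑ j ∈ S, e j * f j = 3)
    (h : ∀ j ∈ S, ¬ (e j = 1 ∧ f j = 1)) : ∑ j ∈ S, twoPart (f j) = 1 := by
  obtain ⟨j, rfl, h1 | h1⟩ := comb_none hpos hsum h
  · rw [Finset.sum_singleton, h1.2, twoPart_three]
  · rw [Finset.sum_singleton, h1.2, twoPart_one]

theorem sum_erase {j0 : J} (hj0 : j0 ∈ S) (h0 : e j0 = 1 ∧ f j0 = 1) {n : ℕ}
    (hsum : ∑ j ∈ S, e j * f j = n + 1) : ∑ j ∈ S.erase j0, e j * f j = n := by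
  have := Finset.add_sum_erase S (fun j => e j * f j) hj0
  simp only [h0.1, h0.2, mul_one] at this
  omega

theorem sum_twoPart_even (hpos : ∀ j ∈ S, 0 < e j ∧ 0 < f j) (hsum : ∑ j ∈ S, e j * f j = 3)
    {j0 : J} (hj0 : j0 ∈ S) (h0 : e j0 = 1 ∧ f j0 = 1) (h : ∀ j ∈ S, j ≠ j0 → Even (e j)) :
    ∑ j ∈ S, twoPart (f j) = 2 := by
  have h1 := sum_erase hj0 h0 hsum
  have hev : ∀ j ∈ S.erase j0, 2 ≤ e j := by
    intro j hj
    rw [Finset.mem_erase] at hj
    obtain ⟨c, hc⟩ := h j hj.2 hj.1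
    have := (hpos j hj.2).1
    omega
  have h2 : ∀ j ∈ S.erase j0, 2 ≤ e j * f j := by
    intro j hj
    have h3 := hev j hj
    rw [Finset.mem_erase] at hj
    exact h3.trans (Nat.le_mul_of_pos_right _ (hpos j hj.2).2)
  obtain ⟨j1, hj1, h3⟩ := single_of_two_le h2 (Or.inl rfl) h1
  have h4 : 2 ≤ e j1 := hev j1 (by rw [hj1]; exact Finset.mem_singleton_self _)
  have h5 : f j1 = 1 := by
    have h6 : 0 < f j1 := by
      by_contra h7
      have h8 : f j1 = 0 := by omega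
      rw [h8] at h3
      omega
    by_contra h7
    have h8 : 2 ≤ f j1 := by omega
    have := Nat.mul_le_mul h4 h8
    omega
  rw [← Finset.add_sum_erase S _ hj0, hj1, Finset.sum_singleton, h0.2, h5, twoPart_one]

/-- sum three with a place of residue degree one, and no ramification at such places -/
theorem prod_split {R : Type*} [CommRing R] [CharP R 2]
    (hpos : ∀ j ∈ S, 0 < e j ∧ 0 < f j) (hsum : ∑ j ∈ S, e j * f j = 3)
    (h1 : ∃ j ∈ S, f j = 1) (h2 : ∀ j ∈ S, f j = 1 → e j = 1) (Y : R) (d : ℕ) :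
    ∏ j ∈ S, (1 + Y ^ (d * f j)) = (1 + Y ^ d) ^ 3 := by
  have hsq : ∀ Z : R, (1 + Z) ^ 2 = 1 + Z ^ 2 := by
    intro Z
    have : (2 : R) = 0 := CharTwo.two_eq_zero
    linear_combination Z * this
  obtain ⟨j0, hj0, hf0⟩ := h1
  have h0 := h2 j0 hj0 hf0
  have h3 := sum_erase hj0 ⟨h0, hf0⟩ hsum
  rw [← Finset.mul_prod_erase S _ hj0, hf0, mul_one]
  by_cases h4 : ∃ j ∈ S.erase j0, f j = 1
  · obtain ⟨j1, hj1, hf1⟩ := h4
    have he1 := h2 j1 (Finset.mem_of_mem_erase hj1) hf1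
    have h5 := sum_erase hj1 ⟨he1, hf1⟩ h3
    rw [← Finset.mul_prod_erase _ _ hj1, hf1, mul_one]
    set T := (S.erase j0).erase j1 with hT
    have hTS : ∀ j ∈ T, j ∈ S := fun j hj => Finset.mem_of_mem_erase (Finset.mem_of_mem_erase hj)
    have h6 : T.card ≤ 1 := by
      have h7 := Finset.card_nsmul_le_sum T (fun j => e j * f j) 1 (fun j hj =>
        Nat.mul_pos (hpos j (hTS j hj)).1 (hpos j (hTS j hj)).2)
      rw [h5, smul_eq_mul] at h7
      omega
    have h8 : T.card = 1 := by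
      rcases Nat.lt_or_ge T.card 1 with h | h
      · have h4 : T = ∅ := Finset.card_eq_zero.1 (by omega)
        rw [h4, Finset.sum_empty] at h5
        omega
      · omega
    obtain ⟨j2, hj2⟩ := Finset.card_eq_one.1 h8
    rw [hj2, Finset.sum_singleton] at h5
    have h9 : f j2 = 1 := Nat.eq_one_of_mul_eq_one_left h5
    rw [hj2, Finset.prod_singleton, h9, mul_one]
    ring
  · push Not at h4
    have h5 : ∀ j ∈ S.erase j0, 2 ≤ e j * f j := by
      intro j hj
      have h6 := hpos j (Finset.mem_of_mem_erase hj)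
      have h7 := h4 j hj
      have h8 : 2 ≤ f j := by omega
      exact h8.trans (Nat.le_mul_of_pos_left _ h6.1)
    obtain ⟨j1, hj1, h6⟩ := single_of_two_le h5 (Or.inl rfl) h3
    have hj1' : j1 ∈ S.erase j0 := by rw [hj1]; exact Finset.mem_singleton_self _
    have h7 := h4 j1 hj1'
    have h8 := hpos j1 (Finset.mem_of_mem_erase hj1')
    have h9 : f j1 = 2 := by
      have h10 : f j1 ∣ 2 := ⟨e j1, by rw [← h6]; ring⟩
      rcases (Nat.dvd_prime Nat.prime_two).1 h10 with h | h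
      · exact absurd h h7
      · exact h
    rw [hj1, Finset.prod_singleton, h9, pow_mul, ← hsq (Y ^ d)]
    ring

theorem prod_inert {R : Type*} [CommRing R]
    (hpos : ∀ j ∈ S, 0 < e j ∧ 0 < f j) (hsum : ∑ j ∈ S, e j * f j = 3)
    (h1 : ∀ j ∈ S, f j ≠ 1) (Y : R) (d : ℕ) :
    ∏ j ∈ S, (1 + Y ^ (d * f j)) = 1 + Y ^ (d * 3) := by
  obtain ⟨j, rfl, h2 | h2⟩ := comb_none hpos hsum (fun j hj h => h1 j hj h.2)
  · rw [Finset.prod_singleton, h2.2]
  · exact absurd h2.2 (h1 j (Finset.mem_singleton_self _))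

end

end Pool.Agent.W343.BSD
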