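import Pool.Agent.W343.BSD.Fiber

/-!
Local analysis of the cubic `x ^ 3 + A x + B` at a place.
-/

set_option autoImplicit false
set_option linter.all false

open Module FF Polynomial

namespace Pool.Agent.W343.BSD

open Pool.Agent.H123R3.ZT

section basic

variable {k K : Type} [Field k] [Field K] [Algebra k K] {v : Place k K}

theorem reg_pow {x : K} (hx : v.Reg x) (n : ℕ) : v.Reg (x ^ n) := by
  induction n with
  | zero => rw [pow_zero]; exact v.reg_one
  | succ n ih => rw [pow_succ]; exact v.reg_mul ih hx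

theorem reg_nat (n : ℕ) : v.Reg (n : K) := by
  have := v.reg_const (n : k)
  rwa [map_natCast] at this

theorem reg_three : v.Reg (3 : K) := reg_nat 3
theorem reg_four : v.Reg (4 : K) := reg_nat 4

theorem red_nat (n : ℕ) : v.red (n : K) = n := by
  induction n with
  | zero => rw [Nat.cast_zero, v.red_zero, Nat.cast_zero]
  | succ n ih => rw [Nat.cast_succ, v.red_add (reg_nat n) v.reg_one, ih, v.red_one, Nat.cast_succ]

theorem reg_of_sm {N : ℤ} (hN : 0 ≤ N) {x : K} (hx : Sm v N x) : v.Reg x := sm_mono v hN hx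

theorem red_of_sm {N : ℤ} (hN : 0 < N) {x : K} (hx : Sm v N x) : v.red x = 0 := by
  rw [v.red_eq_zero_iff (reg_of_sm hN.le hx)]
  rcases hx with h | h
  · exact Or.inl h
  · right; omega

theorem sm_of_red {x : K} (hx : v.Reg x) (h : v.red x = 0) : Sm v 1 x := by
  rw [v.red_eq_zero_iff hx] at h
  rcases h with h | h
  · exact Or.inl h
  · exact Or.inr (by omega)

theorem ord_of_red {x : K} (hx : v.Reg x) (h : v.red x ≠ 0) : x ≠ 0 ∧ v.ord x = 0 := by
  rw [Ne, v.red_eq_zero_iff hx] at h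
  push Not at h
  have := (v.reg_iff h.1).1 hx
  exact ⟨h.1, by omega⟩

/-- division by a unit -/
theorem sm_div {N : ℤ} {x y : K} (hx : Sm v N x) (hy : y ≠ 0) (hy0 : v.ord y = 0) :
    Sm v N (x / y) := by
  rcases hx with rfl | hx
  · left; simp
  · by_cases h : x = 0
    · left; simp [h]
    · right; rw [v.ord_div h hy, hy0]; omega

theorem sm_of_mul_unit {N : ℤ} {x y : K} (hxy : Sm v N (x * y)) (hy : y ≠ 0) (hy0 : v.ord y = 0) :
    Sm v N x := by
  have := sm_div hxy hy hy0
  rwa [mul_div_cancel_right₀ _ hy] at this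

theorem red_cubic {A B x : K} (hA : v.Reg A) (hB : v.Reg B) (hx : v.Reg x) :
    v.red (x ^ 3 + A * x + B) = v.red x ^ 3 + v.red A * v.red x + v.red B := by
  rw [v.red_add (v.reg_add (reg_pow hx 3) (v.reg_mul hA hx)) hB,
    v.red_add (reg_pow hx 3) (v.reg_mul hA hx), v.red_pow hx, v.red_mul hA hx]

theorem reg_cubic {A B x : K} (hA : v.Reg A) (hB : v.Reg B) (hx : v.Reg x) :
    v.Reg (x ^ 3 + A * x + B) :=
  v.reg_add (v.reg_add (reg_pow hx 3) (v.reg_mul hA hx)) hB

/-- nearby approximate zeros of the cubic are close to each other -/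
theorem cubic_close {A B x y : K} {r : v.RF} (hA : v.Reg A) (hx : v.Reg x)
    (hy : v.Reg y) (hxr : v.red x = r) (hyr : v.red y = r) (hd : 3 * r ^ 2 + v.red A ≠ 0) {N : ℤ}
    (h1 : Sm v N (x ^ 3 + A * x + B)) (h2 : Sm v N (y ^ 3 + A * y + B)) : Sm v N (x - y) := by
  have hr1 : v.Reg (x ^ 2 + x * y) := v.reg_add (reg_pow hx 2) (v.reg_mul hx hy)
  have hr2 : v.Reg (x ^ 2 + x * y + y ^ 2) := v.reg_add hr1 (reg_pow hy 2)
  have hr3 : v.Reg (x ^ 2 + x * y + y ^ 2 + A) := v.reg_add hr2 hA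
  have h3 : v.red (x ^ 2 + x * y + y ^ 2 + A) ≠ 0 := by
    rw [v.red_add hr2 hA, v.red_add hr1 (reg_pow hy 2), v.red_add (reg_pow hx 2) (v.reg_mul hx hy),
      v.red_pow hx, v.red_pow hy, v.red_mul hx hy, hxr, hyr]
    intro h
    apply hd
    rw [← h]
    ring
  obtain ⟨h4, h5⟩ := ord_of_red hr3 h3
  apply sm_of_mul_unit (y := x ^ 2 + x * y + y ^ 2 + A) _ h4 h5
  have h6 : (x - y) * (x ^ 2 + x * y + y ^ 2 + A) =
      (x ^ 3 + A * x + B) - (y ^ 3 + A * y + B) := by ring
  rw [h6]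
  exact sm_sub v h1 h2

theorem newton_cubic {A B : K} (hA : v.Reg A) (hB : v.Reg B) {r : v.RF}
    (hr : r ^ 3 + v.red A * r + v.red B = 0) (hd : 3 * r ^ 2 + v.red A ≠ 0) :
    ∀ n : ℕ, ∃ x : K, v.Reg x ∧ v.red x = r ∧ Sm v (n + 1) (x ^ 3 + A * x + B) := by
  intro n
  induction n with
  | zero =>
    obtain ⟨x, hx, hxr⟩ := v.red_surjective r
    refine ⟨x, hx, hxr, ?_⟩
    have := sm_of_red (reg_cubic hA hB hx) (by rw [red_cubic hA hB hx, hxr, hr])
    simpa using this
  | succ n ih =>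
    obtain ⟨x, hx, hxr, hs⟩ := ih
    have hDr : v.Reg (3 * x ^ 2 + A) := v.reg_add (v.reg_mul reg_three (reg_pow hx 2)) hA
    have hD : v.red (3 * x ^ 2 + A) ≠ 0 := by
      rw [v.red_add (v.reg_mul reg_three (reg_pow hx 2)) hA, v.red_mul reg_three (reg_pow hx 2),
        v.red_pow hx, hxr]
      have : v.red (3 : K) = 3 := red_nat 3
      rw [this]
      exact hd
    obtain ⟨hD0, hDo⟩ := ord_of_red hDr hD
    set h : K := -((x ^ 3 + A * x + B) / (3 * x ^ 2 + A)) with hh
    have hsm : Sm v (n + 1) h := sm_neg v (sm_div hs hD0 hDo)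
    have hreg : v.Reg h := reg_of_sm (by omega) hsm
    refine ⟨x + h, v.reg_add hx hreg, ?_, ?_⟩
    · rw [v.red_add hx hreg, red_of_sm (by omega) hsm, add_zero, hxr]
    · have e : (x + h) ^ 3 + A * (x + h) + B = h * h * (3 * x + h) := by
        have : (3 * x ^ 2 + A) * h = -(x ^ 3 + A * x + B) := by
          rw [hh, mul_neg, mul_div_cancel₀ _ hD0]
        linear_combination this
      rw [e]
      have h1 := sm_mul v (sm_mul v hsm hsm) (v.reg_add (v.reg_mul reg_three hx) hreg :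
        Sm v 0 (3 * x + h))
      refine sm_mono v ?_ h1
      push_cast
      omega

/-- a root of the reduced cubic which is simple gives a convergent sequence of approximations -/
theorem newton_seq {A B : K} (hA : v.Reg A) (hB : v.Reg B) {r : v.RF}
    (hr : r ^ 3 + v.red A * r + v.red B = 0) (hd : 3 * r ^ 2 + v.red A ≠ 0) :
    ∃ c : ℕ → K, (∀ n, v.Reg (c n)) ∧ (∀ n, v.red (c n) = r) ∧
      (∀ n : ℕ, Sm v n (c n ^ 3 + A * c n + B)) ∧
      ∀ n m : ℕ, n ≤ m → Sm v n (c m - c n) := by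
  choose c hc1 hc2 hc3 using newton_cubic hA hB hr hd
  refine ⟨c, hc1, hc2, fun n => sm_mono v (by omega) (hc3 n), fun n m hnm => ?_⟩
  exact cubic_close hA (hc1 m) (hc1 n) (hc2 m) (hc2 n) hd
    (sm_mono v (by omega) (hc3 m)) (sm_mono v (by omega) (hc3 n))

/-- integrality of the roots -/
theorem reg_root {A B x : K} (hA : v.Reg A) (hB : v.Reg B) (h : x ^ 3 + A * x + B = 0) :
    v.Reg x := by
  by_contra hx
  unfold Place.Reg at hx
  push Not at hx
  have h1 : Sm v (v.ord x) (A * x + B) := by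
    apply sm_add v
    · have := sm_mul v hA (sm_ord v x)
      rwa [zero_add] at this
    · exact sm_mono v hx.2.le hB
  have h2 : x ^ 3 = -(A * x + B) := by linear_combination h
  have h3 := (sm_neg v h1)
  rw [← h2] at h3
  have h4 := h3.resolve_left (pow_ne_zero 3 hx.1)
  rw [v.ord_pow] at h4
  push_cast at h4
  omega

end basic

section above

variable {k K L : Type} [Field k] [Field K] [Algebra k K] [Field L] [Algebra k L] [Algebra K L]
  [IsScalarTower k K L] {w : Place k L} {v : Place k K} {e : ℕ}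

theorem sm_over (h : Over w v e) {N : ℤ} (hN : 0 ≤ N) {x : K} (hx : Sm v N x) :
    Sm w N (algebraMap K L x) := by
  rcases hx with rfl | hx
  · left; exact map_zero _
  · right
    rw [h.2]
    have h1 : (1 : ℤ) ≤ e := by exact_mod_cast h.1
    nlinarith

theorem resMap_surj (h : Over w v e) (hdeg : w.deg = v.deg) (hpos : 0 < v.deg) :
    Function.Surjective h.resMap := by
  have h1 : FiniteDimensional k v.RF := Module.finite_of_finrank_pos hpos
  have h2 : FiniteDimensional k w.RF := Module.finite_of_finrank_pos (by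
    have : w.deg = finrank k w.RF := rfl
    omega)
  exact (LinearMap.injective_iff_surjective_of_finrank_eq_finrank
    (f := h.resMap.toLinearMap) hdeg.symm).1 h.resMap.toRingHom.injective

/-- the residue of a root in `L` -/
theorem exists_res_root (h : Over w v e) (hdeg : w.deg = v.deg) (hpos : 0 < v.deg) {A B : K}
    (hA : v.Reg A) (hB : v.Reg B) {θ : L}
    (hθ : θ ^ 3 + algebraMap K L A * θ + algebraMap K L B = 0) :
    ∃ r : v.RF, h.resMap r = w.red θ ∧ r ^ 3 + v.red A * r + v.red B = 0 := by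
  have hθr : w.Reg θ := reg_root (h.reg.2 hA) (h.reg.2 hB) hθ
  obtain ⟨r, hr⟩ := resMap_surj h hdeg hpos (w.red θ)
  refine ⟨r, hr, ?_⟩
  apply h.resMap.toRingHom.injective
  show h.resMap _ = h.resMap 0
  rw [map_add, map_add, map_mul, map_pow, hr, h.resMap_red hA, h.resMap_red hB, map_zero,
    ← red_cubic (h.reg.2 hA) (h.reg.2 hB) hθr, hθ, w.red_zero]

/-- a root in `L` is the limit of the approximations of its residue -/
theorem lim_of_res (h : Over w v e) {A B : K} (hA : v.Reg A) (hB : v.Reg B) {θ : L}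
    (hθ : θ ^ 3 + algebraMap K L A * θ + algebraMap K L B = 0) {r : v.RF}
    (hr : h.resMap r = w.red θ) (hd : 3 * r ^ 2 + v.red A ≠ 0) {c : ℕ → K}
    (hc : ∀ n, v.Reg (c n)) (hcr : ∀ n, v.red (c n) = r)
    (hcs : ∀ n : ℕ, Sm v n (c n ^ 3 + A * c n + B)) (n : ℕ) :
    Sm w n (θ - algebraMap K L (c n)) := by
  have hθr : w.Reg θ := reg_root (h.reg.2 hA) (h.reg.2 hB) hθ
  refine cubic_close (B := algebraMap K L B) (r := h.resMap r) (h.reg.2 hA) hθr (h.reg.2 (hc n))
    hr.symm ?_ ?_ ?_ ?_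
  · rw [← h.resMap_red (hc n), hcr]
  · rw [← h.resMap_red hA]
    intro h0
    apply hd
    apply h.resMap.toRingHom.injective
    show h.resMap _ = h.resMap 0
    have h3 : h.resMap 3 = 3 := map_ofNat _ 3
    rw [map_add, map_mul, map_pow, map_zero, h3, h0]
  · rw [hθ]; exact Or.inl rfl
  · have h1 := sm_over h (Int.natCast_nonneg n) (hcs n)
    rwa [map_add, map_add, map_mul, map_pow] at h1

/-- parity of the ramification index at the places at which the sequence does not converge to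
the root -/
theorem even_ram (h : Over w v e) (h2 : (2 : k) ≠ 0) {A B : K} (hA : v.Reg A) (hB : v.Reg B) {θ : L}
    (hθ : θ ^ 3 + algebraMap K L A * θ + algebraMap K L B = 0)
    (hΔ : 4 * A ^ 3 + 27 * B ^ 2 ≠ 0) (hodd : Odd (v.ord (4 * A ^ 3 + 27 * B ^ 2))) {c : ℕ → K}
    (hc : ∀ n, v.Reg (c n)) (hcs : ∀ n : ℕ, Sm v n (c n ^ 3 + A * c n + B))
    (hcc : ∀ n m : ℕ, n ≤ m → Sm v n (c m - c n))
    (hne : ¬ ∀ n : ℕ, Sm w n (θ - algebraMap K L (c n))) : Even e := by
  push Not at hne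
  obtain ⟨n1, hn1⟩ := hne
  unfold Sm at hn1
  push Not at hn1
  set M : ℤ := w.ord (θ - algebraMap K L (c n1)) with hM
  -- the distance to the root is constant
  have hdist : ∀ n, n1 ≤ n → θ - algebraMap K L (c n) ≠ 0 ∧
      w.ord (θ - algebraMap K L (c n)) = M := by
    intro n hn
    refine ord_eq_of_sm (P := w) (x := θ - algebraMap K L (c n1)) (N := n1) hn1.1 hn1.2 ?_
    have h3 : θ - algebraMap K L (c n) - (θ - algebraMap K L (c n1)) =
        -algebraMap K L (c n - c n1) := by rw [map_sub]; ring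
    rw [h3]
    exact sm_neg w (sm_over h (Int.natCast_nonneg _) (hcc n1 n hn))
  set N : ℤ := v.ord (4 * A ^ 3 + 27 * B ^ 2) with hN
  have he1 : (1 : ℤ) ≤ e := by exact_mod_cast h.1
  have hN0 : 0 ≤ N := by
    rw [hN, ← v.reg_iff hΔ]
    exact v.reg_add (v.reg_mul reg_four (reg_pow hA 3)) (v.reg_mul (reg_nat 27) (reg_pow hB 2))
  obtain ⟨n, hn1', hn2, hn3⟩ : ∃ n : ℕ, n1 ≤ n ∧ N < n ∧ N + M < n :=
    ⟨n1 + (N + 1).toNat + (N + M + 1).toNat, by omega, by omega, by omega⟩
  obtain ⟨hd0, hd1⟩ := hdist n hn1'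
  set x := c n with hx
  set t := x ^ 3 + A * x + B with ht
  have htn : Sm v n t := hcs n
  set D := -3 * x ^ 2 - 4 * A with hD
  have hregx : v.Reg x := hc n
  have key : D * (3 * x ^ 2 + A) ^ 2 - -(4 * A ^ 3 + 27 * B ^ 2) =
      -(t * (54 * (x ^ 3 + A * x) - 27 * t)) := by
    rw [hD, ht]; ring
  have hsr : v.Reg (54 * (x ^ 3 + A * x) - 27 * t) := by
    have h5 : v.Reg (x ^ 3 + A * x) := v.reg_add (reg_pow hregx 3) (v.reg_mul hA hregx)
    have h6 : v.Reg t := reg_cubic hA hB hregx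
    have h7 := v.reg_add (v.reg_mul (reg_nat 54) h5) (v.reg_neg (v.reg_mul (reg_nat 27) h6))
    rw [sub_eq_add_neg]
    exact h7
  have h8 : Sm v n (D * (3 * x ^ 2 + A) ^ 2 - -(4 * A ^ 3 + 27 * B ^ 2)) := by
    rw [key]
    apply sm_neg
    have := sm_mul v htn (hsr : Sm v 0 _)
    rwa [add_zero] at this
  obtain ⟨h9, h10⟩ := ord_eq_of_sm (P := v) (x := -(4 * A ^ 3 + 27 * B ^ 2)) (neg_ne_zero.2 hΔ)
    (N := n) (by rw [v.ord_neg]; exact hn2) h8
  rw [v.ord_neg, ← hN] at h10
  have hD0 : D ≠ 0 := left_ne_zero_of_mul h9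
  have hE0 : 3 * x ^ 2 + A ≠ 0 := fun h0 => by
    apply h9
    rw [h0]; ring
  rw [v.ord_mul hD0 (pow_ne_zero 2 hE0), v.ord_pow] at h10
  have hEr : v.Reg (3 * x ^ 2 + A) := v.reg_add (v.reg_mul reg_three (reg_pow hregx 2)) hA
  have hEo : 0 ≤ v.ord (3 * x ^ 2 + A) := (v.reg_iff hE0).1 hEr
  push_cast at h10
  have hDN : v.ord D ≤ N := by omega
  have hDodd : Odd (v.ord D) := by
    rw [Int.odd_iff] at hodd ⊢
    omega
  -- upstairs
  set X := algebraMap K L x with hX
  set g := θ ^ 2 + X * θ + X ^ 2 + algebraMap K L A with hg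
  have hgt : (θ - X) * g = -algebraMap K L t := by
    rw [hg, ht, map_add, map_add, map_mul, map_pow, ← hX]
    linear_combination hθ
  have hsq : (2 * θ + X) ^ 2 = algebraMap K L D + 4 * g := by
    rw [hg, hD, map_sub, map_mul, map_mul, map_pow, ← hX]
    have h3 : algebraMap K L (-3) = -3 := by rw [map_neg]; congr 1; exact map_ofNat _ 3
    have h4 : algebraMap K L 4 = 4 := map_ofNat _ 4
    rw [h3, h4]
    ring
  have hgs : Sm w (e * n - M) g := by
    by_cases hg0 : g = 0
    · exact Or.inl hg0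
    right
    have ht0 : t ≠ 0 := by
      intro h0
      rw [h0, map_zero, neg_zero] at hgt
      rcases mul_eq_zero.1 hgt with h | h
      · exact hd0 h
      · exact hg0 h
    have h11 := congrArg w.ord hgt
    rw [w.ord_mul hd0 hg0, w.ord_neg, hd1, h.2] at h11
    have h12 := htn.resolve_left ht0
    have h13 := mul_le_mul_of_nonneg_left h12 (by omega : (0 : ℤ) ≤ e)
    linarith
  have h4g : Sm w (e * n - M) (algebraMap K L D + 4 * g - algebraMap K L D) := by
    rw [add_sub_cancel_left]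
    have := sm_mul w (reg_four : Sm w 0 (4 : L)) hgs
    rwa [zero_add] at this
  have hDL : algebraMap K L D ≠ 0 := (_root_.map_ne_zero _).2 hD0
  -- one needs `e * ord D < n - M`
  have hfin : 2 * w.ord (2 * θ + X) = e * v.ord D := by
    have hlt : w.ord (algebraMap K L D) < e * n - M := by
      rw [h.2]
      have h11 := mul_le_mul_of_nonneg_left hDN (by omega : (0 : ℤ) ≤ e)
      have h12 : (n : ℤ) - N ≤ e * (n - N) := by nlinarith
      nlinarith
    obtain ⟨h13, h14⟩ := ord_eq_of_sm (P := w) hDL hlt h4g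
    rw [← hsq, w.ord_pow, h.2] at h14
    push_cast at h14
    exact h14
  obtain ⟨m, hm⟩ := hDodd
  rw [hm] at hfin
  have h16 : Even (e : ℤ) := ⟨w.ord (2 * θ + X) - e * m, by linear_combination -hfin⟩
  exact_mod_cast h16

end above

end Pool.Agent.W343.BSD
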