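import Pool.Agent.W343.BSD.Family

/-!
From the factorisation of the cubic to the family of fields, and scaling.
-/

set_option autoImplicit false
set_option linter.all false
set_option maxHeartbeats 4000000

open Polynomial Module

namespace Pool.Agent.W343.BSD

section single

variable {K L : Type} [Field K] [Field L] [Algebra K L]

theorem fd_of_gen {θ : L} (hi : IsIntegral K θ) (h : IntermediateField.adjoin K {θ} = ⊤) :
    FiniteDimensional K L := by
  have h1 : FiniteDimensional K (IntermediateField.adjoin K {θ}) :=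
    IntermediateField.adjoin.finiteDimensional hi
  rw [h] at h1
  exact Module.Finite.equiv (IntermediateField.topEquiv (F := K) (E := L)).toLinearEquiv

theorem sep_of_gen {θ : L} (hs : (minpoly K θ).Separable)
    (h : IntermediateField.adjoin K {θ} = ⊤) : Algebra.IsSeparable K L := by
  have h1 : Algebra.IsSeparable K (IntermediateField.adjoin K {θ}) :=
    (IntermediateField.isSeparable_adjoin_simple_iff_isSeparable K L).2 hs
  rw [h] at h1
  exact AlgEquiv.Algebra.isSeparable (IntermediateField.topEquiv (F := K) (E := L))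

theorem natDegree_of_gen {θ : L} (hi : IsIntegral K θ)
    (h : IntermediateField.adjoin K {θ} = ⊤) : (minpoly K θ).natDegree = finrank K L := by
  rw [← IntermediateField.adjoin.finrank hi, h, IntermediateField.finrank_top']

theorem gen_scale {θ : L} {c : K} (hc : c ≠ 0) (h : IntermediateField.adjoin K {θ} = ⊤) :
    IntermediateField.adjoin K {algebraMap K L c * θ} = ⊤ := by
  rw [eq_top_iff, ← h, IntermediateField.adjoin_simple_le_iff]
  have h1 : θ = algebraMap K L c⁻¹ * (algebraMap K L c * θ) := by
    rw [← mul_assoc, ← map_mul, inv_mul_cancel₀ hc, map_one, one_mul]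
  have h2 : algebraMap K L c⁻¹ * (algebraMap K L c * θ) ∈
      IntermediateField.adjoin K {algebraMap K L c * θ} :=
    mul_mem (IntermediateField.algebraMap_mem _ _)
      (IntermediateField.mem_adjoin_simple_self K _)
  rwa [← h1] at h2

end single

section family

variable {K : Type} [Field K] {ι : Type} [Fintype ι] {L : ι → Type}
  [∀ i, Field (L i)] [∀ i, Algebra K (L i)]

theorem cubic_separable {a b : K} (hΔ : 4 * a ^ 3 + 27 * b ^ 2 ≠ 0) :
    (X ^ 3 + C a * X + C b : K[X]).Separable := by
  refine ⟨C (4 * a ^ 3 + 27 * b ^ 2)⁻¹ * (27 * C b - 18 * C a * X),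
    C (4 * a ^ 3 + 27 * b ^ 2)⁻¹ * (6 * C a * X ^ 2 - 9 * C b * X + 4 * C a ^ 2), ?_⟩
  have h1 : derivative (X ^ 3 + C a * X + C b : K[X]) = 3 * X ^ 2 + C a := by
    have h3 : (C (3 : K) : K[X]) = 3 := map_ofNat C 3
    rw [derivative_add, derivative_add, derivative_X_pow, derivative_C_mul, derivative_X,
      derivative_C]
    push_cast
    rw [h3]
    ring
  rw [h1]
  have h2 : (C (4 * a ^ 3 + 27 * b ^ 2)⁻¹ : K[X]) * (4 * C a ^ 3 + 27 * C b ^ 2) = 1 := by
    have h3 : (4 * C a ^ 3 + 27 * C b ^ 2 : K[X]) = C (4 * a ^ 3 + 27 * b ^ 2) := by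
      have h4 : (C (4 : K) : K[X]) = 4 := map_ofNat C 4
      have h5 : (C (27 : K) : K[X]) = 27 := map_ofNat C 27
      rw [C_add, C_mul, C_mul, C_pow, C_pow, h4, h5]
    rw [h3, ← C_mul, inv_mul_cancel₀ hΔ, C_1]
  linear_combination h2

theorem isFamily_of_prod {a b : K} {θ : ∀ i, L i} (hΔ : 4 * a ^ 3 + 27 * b ^ 2 ≠ 0)
    (hgen : ∀ i, IntermediateField.adjoin K {θ i} = ⊤)
    (hf : ∏ i, minpoly K (θ i) = X ^ 3 + C a * X + C b) : IsFamily a b θ := by
  classical
  have hsep := cubic_separable hΔ
  have hmon : (X ^ 3 + C a * X + C b : K[X]).Monic := by monicity!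
  have hdeg : (X ^ 3 + C a * X + C b : K[X]).natDegree = 3 := by compute_degree!
  have hdvd : ∀ i, minpoly K (θ i) ∣ X ^ 3 + C a * X + C b := fun i => by
    rw [← hf]; exact Finset.dvd_prod_of_mem _ (Finset.mem_univ i)
  have hi : ∀ i, IsIntegral K (θ i) := by
    intro i
    by_contra h
    have h1 := minpoly.eq_zero h
    have h2 := hdvd i
    rw [h1, zero_dvd_iff] at h2
    exact hmon.ne_zero h2
  refine ⟨fun i => ?_, hgen, fun i j hij h => ?_, ?_, fun i => fd_of_gen (hi i) (hgen i),
    fun i => sep_of_gen (hsep.of_dvd (hdvd i)) (hgen i)⟩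
  · obtain ⟨q, hq⟩ := hdvd i
    have h1 := congrArg (aeval (θ i)) hq
    rw [map_mul, minpoly.aeval, zero_mul, map_add, map_add, map_mul, map_pow, aeval_X, aeval_C,
      aeval_C] at h1
    exact h1
  · have h1 : minpoly K (θ i) * minpoly K (θ j) ∣ X ^ 3 + C a * X + C b := by
      rw [← hf, ← Finset.prod_pair (f := fun i => minpoly K (θ i)) hij]
      exact Finset.prod_dvd_prod_of_subset _ _ _ (Finset.subset_univ _)
    rw [← h] at h1
    exact (minpoly.irreducible (hi i)).not_isUnit (hsep.squarefree _ h1)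
  · rw [← hdeg, ← hf, natDegree_prod_of_monic _ _ (fun i _ => minpoly.monic (hi i))]
    exact Finset.sum_congr rfl fun i _ => (natDegree_of_gen (hi i) (hgen i)).symm

theorem IsFamily.scale {a b : K} {θ : ∀ i, L i} (h : IsFamily a b θ) {c : K} (hc : c ≠ 0) :
    IsFamily (c ^ 4 * a) (c ^ 6 * b) (fun i => algebraMap K (L i) (c ^ 2) * θ i) := by
  have hc2 : c ^ 2 ≠ 0 := pow_ne_zero 2 hc
  refine ⟨fun i => ?_, fun i => gen_scale hc2 (h.gen i), fun i j hij hP => ?_, h.sum, h.fd, h.sep⟩
  · have h1 := h.root i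
    rw [map_mul, map_mul, map_pow, map_pow, map_pow]
    linear_combination (algebraMap K (L i) c) ^ 6 * h1
  · have := h.fd i
    have := h.fd j
    have hi : IsIntegral K (θ i) := Algebra.IsIntegral.isIntegral _
    have hj : IsIntegral K (θ j) := Algebra.IsIntegral.isIntegral _
    have hi' : IsIntegral K (algebraMap K (L i) (c ^ 2) * θ i) := Algebra.IsIntegral.isIntegral _
    set P := minpoly K (algebraMap K (L i) (c ^ 2) * θ i) with hPdef
    set Q := P.comp (C (c ^ 2) * X) with hQ
    have hlin : (C (c ^ 2) * X : K[X]).natDegree = 1 := natDegree_C_mul_X _ hc2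
    have hQi : aeval (θ i) Q = 0 := by
      rw [hQ, aeval_comp, map_mul, aeval_C, aeval_X]
      exact minpoly.aeval _ _
    have hQj : aeval (θ j) Q = 0 := by
      rw [hQ, aeval_comp, map_mul, aeval_C, aeval_X]
      have h2 : P = minpoly K (algebraMap K (L j) (c ^ 2) * θ j) := hP
      rw [h2]
      exact minpoly.aeval _ _
    have hdi := minpoly.dvd K (θ i) hQi
    have hdj := minpoly.dvd K (θ j) hQj
    have hcop : IsCoprime (minpoly K (θ i)) (minpoly K (θ j)) := by
      rw [(minpoly.irreducible hi).coprime_iff_not_dvd]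
      intro hd
      apply h.ne i j hij
      exact Polynomial.eq_of_monic_of_associated (minpoly.monic hi) (minpoly.monic hj)
        ((minpoly.irreducible hi).associated_of_dvd (minpoly.irreducible hj) hd)
    have hmul := hcop.mul_dvd hdi hdj
    have hQ0 : Q ≠ 0 := by
      intro h0
      have h3 := natDegree_comp (p := P) (q := C (c ^ 2) * X)
      rw [← hQ, h0, natDegree_zero, hlin, mul_one] at h3
      have h4 := minpoly.natDegree_pos hi'
      rw [← hPdef] at h4
      omega
    have hdeg := natDegree_le_of_dvd hmul hQ0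
    rw [natDegree_mul (minpoly.ne_zero hi) (minpoly.ne_zero hj), hQ, natDegree_comp, hlin, mul_one,
      natDegree_of_gen hi (h.gen i), hPdef,
      natDegree_of_gen hi' (gen_scale hc2 (h.gen i))] at hdeg
    have h5 := minpoly.natDegree_pos hj
    omega

end family

end Pool.Agent.W343.BSD
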