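import Pool.Agent.W343.BSD.Cubic
import Pool.Agent.W343.BSD.Comb

/-!
The places of the cubic algebra `K[x] / (x ^ 3 + A x + B)` over a place of `K`.
-/

set_option autoImplicit false
set_option linter.all false
set_option maxHeartbeats 4000000

open Module FF Polynomial

namespace Pool.Agent.W343.BSD

open Pool.Agent.H123R3.ZT

section transport

variable {k L L' : Type} [Field k] [Field L] [Algebra k L] [Field L'] [Algebra k L']

/-- transport of a place along an isomorphism -/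
noncomputable def transport (w : Place k L) (φ : L' ≃ₐ[k] L) : Place k L' where
  ord z := w.ord (φ z)
  ord_zero := by rw [map_zero, w.ord_zero]
  ord_mul := by
    intro f g hf hg
    rw [map_mul, w.ord_mul (by simpa using hf) (by simpa using hg)]
  ord_add := by
    intro f g hf hg hfg
    rw [map_add]
    exact w.ord_add (by simpa using hf) (by simpa using hg)
      (by rw [← map_add]; exact (map_ne_zero_iff _ φ.injective).2 hfg)
  ord_const := by intro c hc; rw [AlgEquiv.commutes, w.ord_const hc]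
  surj := by
    obtain ⟨t, h0, ht⟩ := w.surj
    exact ⟨φ.symm t, by simpa using h0, by simpa using ht⟩

theorem transport_reg (w : Place k L) (φ : L' ≃ₐ[k] L) (z : L') :
    (transport w φ).Reg z ↔ w.Reg (φ z) := by
  unfold Place.Reg
  show z = 0 ∨ 0 ≤ w.ord (φ z) ↔ _
  rw [map_eq_zero_iff _ φ.injective]

theorem transport_deg (w : Place k L) (φ : L' ≃ₐ[k] L) : (transport w φ).deg = w.deg := by
  set w' := transport w φ with hw'
  let φ0 : w'.O →+* L := (φ : L' →+* L).comp w'.O.subtype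
  have hφ : ∀ a : w'.O, w.Reg (φ0 a) := fun a => (transport_reg w φ a.1).1 a.2
  let ψ : w'.O →+* w.RF := w.redHom φ0 hφ
  have hψ : ∀ (a : L') (ha : w'.Reg a), ψ ⟨a, ha⟩ = w.red (φ a) := fun a ha => rfl
  have hloc : IsLocalHom ψ := by
    constructor
    rintro ⟨a, hra⟩ ha
    have h1 : w.red (φ a) ≠ 0 := ha.ne_zero
    rw [w'.isUnit_O_iff hra]
    obtain ⟨h2, h3⟩ := ord_of_red ((transport_reg w φ a).1 hra) h1
    exact ⟨fun h => h2 (by rw [h, map_zero]), h3⟩
  let Ψ : w'.RF →+* w.RF := IsLocalRing.ResidueField.lift ψ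
  have hΨ : ∀ a : L', w'.Reg a → Ψ (w'.red a) = w.red (φ a) := by
    intro a ha
    rw [w'.red_of_reg ha]
    exact IsLocalRing.ResidueField.lift_residue_apply ψ ⟨a, ha⟩
  have hsurj : Function.Surjective Ψ := by
    intro y
    obtain ⟨x, hx, rfl⟩ := w.red_surjective y
    refine ⟨w'.red (φ.symm x), ?_⟩
    rw [hΨ _ ((transport_reg w φ _).2 (by simpa using hx))]
    simp
  unfold FF.Place.deg
  refine Algebra.finrank_eq_of_equiv_equiv (RingEquiv.refl k)
    (RingEquiv.ofBijective Ψ ⟨Ψ.injective, hsurj⟩) ?_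
  ext a
  simp only [RingHom.comp_apply]
  show (algebraMap k w.RF) a = Ψ (algebraMap k w'.RF a)
  rw [w.algebraMap_RF, w'.algebraMap_RF, hΨ _ (w'.reg_const a), AlgEquiv.commutes]

end transport

section family

variable {k K : Type} [Field k] [Field K] [Algebra k K] {ι : Type} [Fintype ι] {L : ι → Type}
  [∀ i, Field (L i)] [∀ i, Algebra k (L i)] [∀ i, Algebra K (L i)]
  [∀ i, IsScalarTower k K (L i)]

/-- `K[x] / (x ^ 3 + A x + B)` is the product of the fields `L i = K(θ i)`. -/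
structure IsFamily (A B : K) (θ : ∀ i, L i) : Prop where
  root : ∀ i, θ i ^ 3 + algebraMap K (L i) A * θ i + algebraMap K (L i) B = 0
  gen : ∀ i, IntermediateField.adjoin K {θ i} = ⊤
  ne : ∀ i j, i ≠ j → minpoly K (θ i) ≠ minpoly K (θ j)
  sum : ∑ i, finrank K (L i) = 3
  fd : ∀ i, FiniteDimensional K (L i)
  sep : ∀ i, Algebra.IsSeparable K (L i)

/-- the data of the places over `v` -/
structure FiberData (v : Place k K) (S : ∀ i, Finset (Place k (L i)))
    (e f : (Σ i, Place k (L i)) → ℕ) : Prop where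
  mem : ∀ i w e', Over w v e' → w ∈ S i
  isOver : ∀ i, ∀ w ∈ S i, Over w v (e ⟨i, w⟩)
  pos : ∀ i, ∀ w ∈ S i, 0 < f ⟨i, w⟩
  deg : ∀ i, ∀ w ∈ S i, w.deg = v.deg * f ⟨i, w⟩
  sum : ∀ i, ∑ w ∈ S i, e ⟨i, w⟩ * f ⟨i, w⟩ = finrank K (L i)

omit [Fintype ι] in
theorem exists_fiberData (hfd : ∀ i, FiniteDimensional K (L i))
    (hsep : ∀ i, Algebra.IsSeparable K (L i)) (v : Place k K) :
    ∃ (S : ∀ i, Finset (Place k (L i))) (e f : (Σ i, Place k (L i)) → ℕ), FiberData v S e f := by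
  have h : ∀ i, ∃ (S : Finset (Place k (L i))) (e f : Place k (L i) → ℕ),
      (∀ w e', Over w v e' → w ∈ S) ∧
      (∀ w ∈ S, Over w v (e w) ∧ 0 < f w ∧ w.deg = v.deg * f w) ∧
      ∑ w ∈ S, e w * f w = finrank K (L i) := fun i => by
    have := hfd i
    have := hsep i
    exact exists_fiber v
  choose S e f h1 h2 h3 using h
  exact ⟨S, fun j => e j.1 j.2, fun j => f j.1 j.2, h1, fun i w hw => (h2 i w hw).1,
    fun i w hw => (h2 i w hw).2.1, fun i w hw => (h2 i w hw).2.2, h3⟩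

variable {A B : K} {θ : ∀ i, L i} {v : Place k K} {S : ∀ i, Finset (Place k (L i))}
  {e f : (Σ i, Place k (L i)) → ℕ}

theorem fiber_pos (D : FiberData v S e f) :
    ∀ j ∈ Finset.univ.sigma S, 0 < e j ∧ 0 < f j := by
  rintro ⟨i, w⟩ hj
  rw [Finset.mem_sigma] at hj
  exact ⟨(D.isOver i w hj.2).1, D.pos i w hj.2⟩

theorem fiber_sum (hF : IsFamily A B θ) (D : FiberData v S e f) :
    ∑ j ∈ Finset.univ.sigma S, e j * f j = 3 := by
  rw [Finset.sum_sigma, ← hF.sum]
  exact Finset.sum_congr rfl fun i _ => D.sum i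

/-- simple roots at good places -/
theorem simple_of_good {A B r : v.RF} (hΔ : 4 * A ^ 3 + 27 * B ^ 2 ≠ 0)
    (hr : r ^ 3 + A * r + B = 0) : 3 * r ^ 2 + A ≠ 0 := by
  intro h
  apply hΔ
  have h1 : A = -(3 * r ^ 2) := by linear_combination h
  have h2 : B = 2 * r ^ 3 := by
    rw [h1] at hr
    linear_combination hr
  rw [h1, h2]; ring

theorem reg_27 : v.Reg (27 : K) := reg_nat 27

theorem red_disc (hA : v.Reg A) (hB : v.Reg B) :
    v.red (4 * A ^ 3 + 27 * B ^ 2) = 4 * v.red A ^ 3 + 27 * v.red B ^ 2 := by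
  have h4 : v.red (4 : K) = 4 := red_nat 4
  have h27 : v.red (27 : K) = 27 := red_nat 27
  rw [v.red_add (v.reg_mul reg_four (reg_pow hA 3)) (v.reg_mul reg_27 (reg_pow hB 2)),
    v.red_mul reg_four (reg_pow hA 3), v.red_mul reg_27 (reg_pow hB 2), v.red_pow hA,
    v.red_pow hB, h4, h27]

/-- at a good place, the places of residue degree one are unramified -/
theorem good_unram (hF : IsFamily A B θ) (D : FiberData v S e f) (hpos : 0 < v.deg)
    (hA : v.Reg A) (hB : v.Reg B) (hΔ : v.red (4 * A ^ 3 + 27 * B ^ 2) ≠ 0) :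
    ∀ j ∈ Finset.univ.sigma S, f j = 1 → e j = 1 := by
  rintro ⟨i, w⟩ hj hf
  rw [Finset.mem_sigma] at hj
  have := hF.fd i
  have hov := D.isOver i w hj.2
  have hdeg : w.deg = v.deg := by rw [D.deg i w hj.2, hf, mul_one]
  obtain ⟨r, hr1, hr2⟩ := exists_res_root hov hdeg hpos hA hB (hF.root i)
  rw [red_disc hA hB] at hΔ
  have hd := simple_of_good hΔ hr2
  obtain ⟨c, hc1, hc2, hc3, -⟩ := newton_seq hA hB hr2 hd
  exact lim_ram hov (hF.gen i) (reg_root (hov.reg.2 hA) (hov.reg.2 hB) (hF.root i)) hc1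
    (lim_of_res hov hA hB (hF.root i) hr1 hd hc1 hc2 hc3)

theorem good_root_of_deg (hF : IsFamily A B θ) (D : FiberData v S e f) (hpos : 0 < v.deg)
    (hA : v.Reg A) (hB : v.Reg B) (h : ∃ j ∈ Finset.univ.sigma S, f j = 1) :
    ∃ r : v.RF, r ^ 3 + v.red A * r + v.red B = 0 := by
  obtain ⟨⟨i, w⟩, hj, hf⟩ := h
  rw [Finset.mem_sigma] at hj
  have hov := D.isOver i w hj.2
  have hdeg : w.deg = v.deg := by rw [D.deg i w hj.2, hf, mul_one]
  obtain ⟨r, -, hr2⟩ := exists_res_root hov hdeg hpos hA hB (hF.root i)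
  exact ⟨r, hr2⟩

/-- a root of the reduced cubic gives a place of residue degree one -/
theorem good_deg_of_root (hF : IsFamily A B θ) (D : FiberData v S e f) (hpos : 0 < v.deg)
    (hA : v.Reg A) (hB : v.Reg B) {r : v.RF} (hr : r ^ 3 + v.red A * r + v.red B = 0)
    (hd : 3 * r ^ 2 + v.red A ≠ 0) : ∃ j ∈ Finset.univ.sigma S, f j = 1 := by
  classical
  by_contra hcon
  push Not at hcon
  obtain ⟨⟨i0, w0⟩, hS, -⟩ := comb_none (fiber_pos D) (fiber_sum hF D)
    (fun j hj h => hcon j hj h.2)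
  -- there is only one field
  have hall : ∀ i, i = i0 := by
    intro i
    have hfd := hF.fd i
    have h1 : (S i).Nonempty := by
      by_contra hne
      rw [Finset.not_nonempty_iff_eq_empty] at hne
      have h2 := D.sum i
      rw [hne, Finset.sum_empty] at h2
      have h3 : 0 < finrank K (L i) := Module.finrank_pos
      omega
    obtain ⟨w, hw⟩ := h1
    have h2 : (⟨i, w⟩ : Σ i, Place k (L i)) ∈ Finset.univ.sigma S :=
      Finset.mem_sigma.2 ⟨Finset.mem_univ _, hw⟩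
    rw [hS, Finset.mem_singleton] at h2
    exact congrArg Sigma.fst h2
  have hfd := hF.fd i0
  have h3 : finrank K (L i0) = 3 := by
    rw [← hF.sum]
    symm
    apply Finset.sum_eq_single i0
    · intro i _ hi
      exact absurd (hall i) hi
    · intro h
      exact absurd (Finset.mem_univ _) h
  have hi : IsIntegral K (θ i0) := Algebra.IsIntegral.isIntegral _
  have hmd : (minpoly K (θ i0)).natDegree = 3 := by
    rw [← IntermediateField.adjoin.finrank hi, hF.gen i0, IntermediateField.finrank_top', h3]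
  have hmin : minpoly K (θ i0) = X ^ 3 + C A * X + C B := by
    have hmon : (X ^ 3 + C A * X + C B : K[X]).Monic := by monicity!
    have hdeg : (X ^ 3 + C A * X + C B : K[X]).natDegree = 3 := by compute_degree!
    refine (Polynomial.eq_of_monic_of_dvd_of_natDegree_le (minpoly.monic hi) hmon ?_ ?_).symm
    · apply minpoly.dvd
      rw [map_add, map_add, map_mul, map_pow, aeval_X, aeval_C, aeval_C]
      exact hF.root i0
    · rw [hdeg, hmd]
  obtain ⟨c, hc1, hc2, hc3, hc4⟩ := newton_seq hA hB hr hd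
  have hirr : Fact (Irreducible (minpoly K (θ i0))) := ⟨minpoly.irreducible hi⟩
  have AP : Approx v (minpoly K (θ i0)) c := by
    refine ⟨minpoly.irreducible hi, hc1, fun n => ?_, hc4⟩
    rw [hmin]
    have := hc3 n
    simpa using this
  let φ0 : AdjoinRoot (minpoly K (θ i0)) ≃ₐ[K] L i0 :=
    (IntermediateField.adjoinRootEquivAdjoin K hi).trans
      ((IntermediateField.equivOfEq (hF.gen i0)).trans IntermediateField.topEquiv)
  let φ : L i0 ≃ₐ[k] AdjoinRoot (minpoly K (θ i0)) := AlgEquiv.restrictScalars k φ0.symm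
  let w1 : Place k (L i0) := transport (wpl AP) φ
  have hov : Over w1 v 1 := by
    refine ⟨one_pos, fun a => ?_⟩
    show (wpl AP).ord (φ (algebraMap K (L i0) a)) = _
    have h5 : φ (algebraMap K (L i0) a) = algebraMap K (AdjoinRoot (minpoly K (θ i0))) a :=
      φ0.symm.commutes a
    rw [h5, wpl_alg]
    simp
  have hw1 : w1 ∈ S i0 := D.mem i0 w1 1 hov
  have hdeg1 : w1.deg = v.deg := by
    rw [transport_deg, wpl_deg]
  have h6 := D.deg i0 w1 hw1
  rw [hdeg1] at h6
  have h7 : f ⟨i0, w1⟩ = 1 := by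
    have h8 : v.deg * f ⟨i0, w1⟩ = v.deg * 1 := by rw [mul_one]; exact h6.symm
    exact Nat.eq_of_mul_eq_mul_left hpos h8
  exact hcon ⟨i0, w1⟩ (Finset.mem_sigma.2 ⟨Finset.mem_univ _, hw1⟩) h7

/-- the Euler factor at a good place -/
theorem good_prod (hF : IsFamily A B θ) (D : FiberData v S e f) (hpos : 0 < v.deg)
    (hA : v.Reg A) (hB : v.Reg B) (hΔ : v.red (4 * A ^ 3 + 27 * B ^ 2) ≠ 0)
    {R : Type*} [CommRing R] [CharP R 2] (Y : R) :
    ((∃ r : v.RF, r ^ 3 + v.red A * r + v.red B = 0) →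
      ∏ i, ∏ w ∈ S i, (1 + Y ^ w.deg) = (1 + Y ^ v.deg) ^ 3) ∧
    ((¬ ∃ r : v.RF, r ^ 3 + v.red A * r + v.red B = 0) →
      ∏ i, ∏ w ∈ S i, (1 + Y ^ w.deg) = 1 + Y ^ (v.deg * 3)) := by
  classical
  have h1 : ∏ i, ∏ w ∈ S i, (1 + Y ^ w.deg) =
      ∏ j ∈ Finset.univ.sigma S, (1 + Y ^ (v.deg * f j)) := by
    rw [Finset.prod_sigma]
    refine Finset.prod_congr rfl fun i _ => Finset.prod_congr rfl fun w hw => ?_
    rw [D.deg i w hw]
  rw [h1]
  constructor
  · rintro ⟨r, hr⟩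
    have hΔ' := hΔ
    rw [red_disc hA hB] at hΔ'
    exact prod_split (fiber_pos D) (fiber_sum hF D)
      (good_deg_of_root hF D hpos hA hB hr (simple_of_good hΔ' hr))
      (good_unram hF D hpos hA hB hΔ) Y v.deg
  · intro h
    refine prod_inert (fiber_pos D) (fiber_sum hF D) ?_ Y v.deg
    intro j hj hf
    exact h (good_root_of_deg hF D hpos hA hB ⟨j, hj, hf⟩)

/-- a sequence of approximations from a place of degree one without ramification -/
theorem seq_of_base {i0 : ι} {w0 : Place k (L i0)} (hF : IsFamily A B θ) (hov : Over w0 v 1)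
    (hdeg : w0.deg = v.deg) (hpos : 0 < v.deg) (hA : v.Reg A) (hB : v.Reg B) :
    ∃ c : ℕ → K, (∀ n, v.Reg (c n)) ∧
      (∀ n : ℕ, Sm w0 n (θ i0 - algebraMap K (L i0) (c n))) ∧
      (∀ n : ℕ, Sm v n (c n ^ 3 + A * c n + B)) ∧
      ∀ n m : ℕ, n ≤ m → Sm v n (c m - c n) := by
  have hθ : w0.Reg (θ i0) := reg_root (hov.reg.2 hA) (hov.reg.2 hB) (hF.root i0)
  choose c hc1 hc2 using fun n : ℕ => approx_base hov hdeg hpos hθ n
  have hdown : ∀ (N : ℤ) (x : K), Sm w0 N (algebraMap K (L i0) x) → Sm v N x := by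
    rintro N x (h | h)
    · left; exact (map_eq_zero _).1 h
    · right; rw [hov.2] at h; simpa using h
  refine ⟨c, hc1, hc2, fun n => ?_, fun n m hnm => ?_⟩
  · apply hdown
    have hreg : w0.Reg (algebraMap K (L i0) (c n) ^ 2 + algebraMap K (L i0) (c n) * θ i0 +
        θ i0 ^ 2 + algebraMap K (L i0) A) :=
      w0.reg_add (w0.reg_add (w0.reg_add (reg_pow (hov.reg.2 (hc1 n)) 2)
        (w0.reg_mul (hov.reg.2 (hc1 n)) hθ)) (reg_pow hθ 2)) (hov.reg.2 hA)
    have h1 : algebraMap K (L i0) (c n ^ 3 + A * c n + B) =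
        -((θ i0 - algebraMap K (L i0) (c n)) * (algebraMap K (L i0) (c n) ^ 2 +
          algebraMap K (L i0) (c n) * θ i0 + θ i0 ^ 2 + algebraMap K (L i0) A)) := by
      rw [map_add, map_add, map_mul, map_pow]
      linear_combination hF.root i0
    rw [h1]
    apply sm_neg
    have h2 := sm_mul w0 (hc2 n) (hreg : Sm w0 0 _)
    rwa [add_zero] at h2
  · apply hdown
    have h1 : algebraMap K (L i0) (c m - c n) =
        (θ i0 - algebraMap K (L i0) (c n)) - (θ i0 - algebraMap K (L i0) (c m)) := by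
      rw [map_sub]; ring
    rw [h1]
    exact sm_sub w0 (hc2 n) (sm_mono w0 (by omega) (hc2 m))

/-- odd discriminant: the other places have even ramification -/
theorem odd_even (hF : IsFamily A B θ) (D : FiberData v S e f) (hpos : 0 < v.deg)
    (hA : v.Reg A) (hB : v.Reg B) (h2 : (2 : k) ≠ 0)
    (hΔ : 4 * A ^ 3 + 27 * B ^ 2 ≠ 0) (hodd : Odd (v.ord (4 * A ^ 3 + 27 * B ^ 2)))
    {j0 : Σ i, Place k (L i)} (hj0 : j0 ∈ Finset.univ.sigma S) (h0 : e j0 = 1 ∧ f j0 = 1) :
    ∀ j ∈ Finset.univ.sigma S, j ≠ j0 → Even (e j) := by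
  obtain ⟨i0, w0⟩ := j0
  rw [Finset.mem_sigma] at hj0
  have hov0 := D.isOver i0 w0 hj0.2
  rw [h0.1] at hov0
  have hdeg : w0.deg = v.deg := by rw [D.deg i0 w0 hj0.2, h0.2, mul_one]
  obtain ⟨c, hc1, hc2, hc3, hc4⟩ := seq_of_base hF hov0 hdeg hpos hA hB
  rintro ⟨i, w⟩ hj hne
  rw [Finset.mem_sigma] at hj
  have hov := D.isOver i w hj.2
  refine even_ram hov h2 hA hB (hF.root i) hΔ hodd hc1 hc3 hc4 ?_
  intro hlim
  apply hne
  have := hF.fd i
  have := hF.fd i0
  by_cases hii : i = i0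
  · subst hii
    have : w = w0 := lim_unique hov hov0 (hF.gen i)
      (reg_root (hov.reg.2 hA) (hov.reg.2 hB) (hF.root i))
      (reg_root (hov0.reg.2 hA) (hov0.reg.2 hB) (hF.root i)) hc1 hlim hc2
    rw [this]
  · exfalso
    exact hF.ne i i0 hii (lim_minpoly hov hov0
      (reg_root (hov.reg.2 hA) (hov.reg.2 hB) (hF.root i))
      (reg_root (hov0.reg.2 hA) (hov0.reg.2 hB) (hF.root i0)) hc1 hlim hc2)

/-- The cubic `x ^ 3 + A x + B` has a root in the completion of `K` at `v`: it takes arbitrarily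
small values on `K`. -/
def LocalRoot (v : Place k K) (A B : K) : Prop :=
  ∀ N : ℕ, ∃ x : K, x ^ 3 + A * x + B = 0 ∨ (N : ℤ) ≤ v.ord (x ^ 3 + A * x + B)

/-- the total multiplicity -/
theorem sum_twoPart_deg (D : FiberData v S e f) (hpos : 0 < v.deg) :
    ∑ i, ∑ w ∈ S i, twoPart w.deg = twoPart v.deg * ∑ j ∈ Finset.univ.sigma S, twoPart (f j) := by
  rw [Finset.mul_sum, Finset.sum_sigma]
  refine Finset.sum_congr rfl fun i _ => Finset.sum_congr rfl fun w hw => ?_
  rw [D.deg i w hw, twoPart_mul hpos (D.pos i w hw)]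

theorem bad_three (hF : IsFamily A B θ) (D : FiberData v S e f) :
    ∑ j ∈ Finset.univ.sigma S, twoPart (f j) ≤ 3 := by
  classical
  rw [← fiber_sum hF D]
  exact sum_twoPart_le (fiber_pos D)

theorem bad_odd (hF : IsFamily A B θ) (D : FiberData v S e f) (hpos : 0 < v.deg)
    (hA : v.Reg A) (hB : v.Reg B) (h2 : (2 : k) ≠ 0)
    (hΔ : 4 * A ^ 3 + 27 * B ^ 2 ≠ 0) (hodd : Odd (v.ord (4 * A ^ 3 + 27 * B ^ 2))) :
    ∑ j ∈ Finset.univ.sigma S, twoPart (f j) ≤ 2 := by
  classical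
  by_cases h : ∃ j0 ∈ Finset.univ.sigma S, e j0 = 1 ∧ f j0 = 1
  · obtain ⟨j0, hj0, h0⟩ := h
    rw [sum_twoPart_even (fiber_pos D) (fiber_sum hF D) hj0 h0
      (odd_even hF D hpos hA hB h2 hΔ hodd hj0 h0)]
  · push Not at h
    rw [sum_twoPart_none (fiber_pos D) (fiber_sum hF D) (fun j hj h' => h j hj h'.1 h'.2)]
    norm_num

theorem bad_noRoot (hF : IsFamily A B θ) (D : FiberData v S e f) (hpos : 0 < v.deg)
    (hA : v.Reg A) (hB : v.Reg B) (hroot : ¬ LocalRoot v A B) :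
    ∑ j ∈ Finset.univ.sigma S, twoPart (f j) ≤ 1 := by
  classical
  rw [sum_twoPart_none (fiber_pos D) (fiber_sum hF D)]
  rintro ⟨i, w⟩ hj h0
  rw [Finset.mem_sigma] at hj
  have hov := D.isOver i w hj.2
  rw [h0.1] at hov
  have hdeg : w.deg = v.deg := by rw [D.deg i w hj.2, h0.2, mul_one]
  obtain ⟨c, hc1, hc2, hc3, hc4⟩ := seq_of_base hF hov hdeg hpos hA hB
  apply hroot
  intro N
  exact ⟨c N, hc3 N⟩

end family

end Pool.Agent.W343.BSD
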