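import Pool.Agent.Helper386.D5V.Helper399_FF4b
import Pool.Agent.H123R3.ZT.Const
import Pool.Agent.H525R3.FFp.RR

/-!
Places of a finite separable extension over a place of the base, and approximation.
-/

set_option autoImplicit false
set_option linter.all false

open Module FF Polynomial

namespace Pool.Agent.W343.BSD

open Pool.Agent.H123R3.ZT

section fiber

variable {k K L : Type} [Field k] [Field K] [Algebra k K] [Field L] [Algebra k L] [Algebra K L]
  [IsScalarTower k K L]

theorem over_unique_base {w : Place k L} {v v' : Place k K} {e e' : ℕ} (h : Over w v e)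
    (h' : Over w v' e') : v = v' := by
  apply Place.eq_of_le
  intro f hf hv
  have h1 := h.2 f
  have h2 := h'.2 f
  rw [h1] at h2
  have h3 : 0 ≤ (e : ℤ) * v.ord f := mul_nonneg (Int.natCast_nonneg _) hv
  rw [h2] at h3
  have h4 : (0 : ℤ) < e' := by exact_mod_cast h'.1
  exact nonneg_of_mul_nonneg_right h3 h4

theorem exists_below [FiniteDimensional K L] (w : Place k L) :
    ∃ (e : ℕ) (v : Place k K), Over w v e := by
  apply exists_over w
  by_contra hcon
  push Not at hcon
  have hreg : ∀ a : K, w.Reg (algebraMap K L a) := fun a => Or.inr (hcon a).ge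
  have hall : ∀ z : L, w.Reg z := fun z =>
    w.reg_of_isIntegral (A := K) hreg (Algebra.IsIntegral.isIntegral z)
  obtain ⟨t, ht0, ht⟩ := w.surj
  have h1 := (w.reg_iff (inv_ne_zero ht0)).1 (hall t⁻¹)
  rw [w.ord_inv] at h1
  omega

theorem deg_over {w : Place k L} {v : Place k K} {e : ℕ} (h : Over w v e) :
    w.deg = v.deg * @finrank v.RF w.RF _ _ h.resMap.toRingHom.toAlgebra.toModule := by
  let _ : Algebra v.RF w.RF := h.resMap.toRingHom.toAlgebra
  have : IsScalarTower k v.RF w.RF := IsScalarTower.of_algebraMap_eq fun c =>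
    (h.resMap.commutes c).symm
  exact (Module.finrank_mul_finrank k v.RF w.RF).symm

theorem exists_fiber [FiniteDimensional K L] [Algebra.IsSeparable K L] (v : Place k K) :
    ∃ (S : Finset (Place k L)) (e f : Place k L → ℕ),
      (∀ w e', Over w v e' → w ∈ S) ∧
      (∀ w ∈ S, Over w v (e w) ∧ 0 < f w ∧ w.deg = v.deg * f w) ∧
      ∑ w ∈ S, e w * f w = finrank K L := by
  classical
  obtain ⟨t, ht0, ht⟩ := v.surj
  have htr : v.Reg t := Or.inr (by omega)
  have : IsDiscreteValuationRing v.O := v.isDVR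
  let iA : Algebra v.O L := ((algebraMap K L).comp v.O.subtype).toAlgebra
  let ik : Algebra k v.O := ((algebraMap k K).codRestrict v.O (fun c => v.reg_const c)).toAlgebra
  have : IsScalarTower v.O K L := IsScalarTower.of_algebraMap_eq fun _ => rfl
  have : IsScalarTower k v.O L := IsScalarTower.of_algebraMap_eq fun c => by
    rw [IsScalarTower.algebraMap_apply k K L]
    rfl
  have hirr : (⟨t, htr⟩ : v.O) ≠ 0 := fun h => ht0 (congrArg Subtype.val h)
  have hmax : (Ideal.span {(⟨t, htr⟩ : v.O)}).IsMaximal := by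
    have h1 : Ideal.span {(⟨t, htr⟩ : v.O)} = IsLocalRing.maximalIdeal v.O := by
      apply le_antisymm
      · rw [Ideal.span_le, Set.singleton_subset_iff]
        show (⟨t, htr⟩ : v.O) ∈ IsLocalRing.maximalIdeal v.O
        rw [IsLocalRing.mem_maximalIdeal, mem_nonunits_iff, v.isUnit_O_iff htr]
        rintro ⟨_, h⟩
        omega
      · rintro ⟨f, hf⟩ hm
        rw [IsLocalRing.mem_maximalIdeal, mem_nonunits_iff, v.isUnit_O_iff hf] at hm
        rw [Ideal.mem_span_singleton]
        by_cases hf0 : f = 0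
        · exact ⟨0, Subtype.ext (by simp [hf0])⟩
        · have h2 := (v.reg_iff hf0).1 hf
          have h3 : v.ord f ≠ 0 := fun h => hm ⟨hf0, h⟩
          have h4 : v.Reg (f / t) := by
            right
            rw [v.ord_div hf0 ht0, ht]
            omega
          refine ⟨⟨f / t, h4⟩, Subtype.ext ?_⟩
          show f = t * (f / t)
          field_simp
    rw [h1]
    infer_instance
  obtain ⟨S, hS, hpos, hsum⟩ := fundamental (k := k) (A := v.O) (L := L) K
    (⟨t, htr⟩ : v.O) hirr hmax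
  refine ⟨S, fun w => (w.ord (algebraMap v.O L ⟨t, htr⟩)).toNat, fun w => w.relf v.O, ?_, ?_, hsum⟩
  · intro w e h
    rw [hS]
    refine ⟨fun a => ?_, ?_⟩
    · exact h.reg.2 a.2
    · have h1 : w.ord (algebraMap v.O L ⟨t, htr⟩) = e * v.ord t := h.2 t
      rw [h1, ht]
      have := h.1
      omega
  · intro w hw
    have h1 := (hS w).1 hw
    have h2 : Over w v (w.ord (algebraMap K L t)).toNat :=
      over_of_reg w v t ht0 ht (fun f hf => h1.1 ⟨f, hf⟩) h1.2
    refine ⟨h2, hpos w hw, ?_⟩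
    rw [deg_over h2, ← relf_eq h2]

end fiber

section approx

variable {k K L : Type} [Field k] [Field K] [Algebra k K] [Field L] [Algebra k L] [Algebra K L]
  [IsScalarTower k K L]

/-- places of degree one over `v` with trivial ramification: `K` is dense -/
theorem approx_base {w : Place k L} {v : Place k K} (h : Over w v 1) (hdeg : w.deg = v.deg)
    (hpos : 0 < v.deg) {z : L} (hz : w.Reg z) (n : ℕ) :
    ∃ c : K, v.Reg c ∧ Sm w n (z - algebraMap K L c) := by
  have hsurj : Function.Surjective h.resMap := by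
    have h1 : FiniteDimensional k v.RF := Module.finite_of_finrank_pos hpos
    have h2 : FiniteDimensional k w.RF := Module.finite_of_finrank_pos (by
      have : w.deg = finrank k w.RF := rfl
      omega)
    exact (LinearMap.injective_iff_surjective_of_finrank_eq_finrank
      (f := h.resMap.toLinearMap) hdeg.symm).1 h.resMap.toRingHom.injective
  obtain ⟨t, ht0, ht⟩ := v.surj
  obtain ⟨a, ⟨c, rfl⟩, har, ha⟩ := approx w (algebraMap K L).range (algebraMap K L t) ⟨t, rfl⟩
    ((_root_.map_ne_zero _).2 ht0) (by rw [h.2, ht]; norm_num) (by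
      intro f hf
      obtain ⟨r, hr⟩ := hsurj (w.red f)
      obtain ⟨c, hc, rfl⟩ := v.red_surjective r
      refine ⟨algebraMap K L c, ⟨c, rfl⟩, h.reg.2 hc, ?_⟩
      rw [← hr, h.resMap_red hc]) n z hz
  refine ⟨c, h.reg.1 har, ?_⟩
  rcases ha with ha | ha
  · left; rw [ha, sub_self]
  · right; exact ha

/-- continuity of polynomials with coefficients in `K` -/
theorem poly_close {w : Place k L} (P : K[X]) : ∃ B : ℤ, ∀ (x y : L), w.Reg x → w.Reg y →
    ∀ n : ℤ, Sm w n (x - y) → Sm w (n - B) (aeval x P - aeval y P) := by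
  obtain ⟨B, -, hB⟩ := poly_bound w (P.map (algebraMap K L))
  refine ⟨B, fun x y hx hy n hn => ?_⟩
  obtain ⟨q, h1, h2⟩ := hB x y hx hy
  rw [eval_map_algebraMap, eval_map_algebraMap] at h2
  rw [h2]
  have := sm_mul w hn h1
  rwa [← sub_eq_add_neg] at this

theorem aeval_base (P : K[X]) (c : K) : aeval (algebraMap K L c) P = algebraMap K L (P.eval c) := by
  rw [aeval_algebraMap_apply, coe_aeval_eq_eval]

/-- values of a polynomial at a limit -/
theorem ev_lim {w : Place k L} {v : Place k K} {e : ℕ} (h : Over w v e) {θ : L} (hθ : w.Reg θ)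
    {c : ℕ → K} (hc : ∀ n, v.Reg (c n)) (hlim : ∀ n : ℕ, Sm w n (θ - algebraMap K L (c n)))
    (P : K[X]) (hP : aeval θ P ≠ 0) : ∃ n0 : ℕ, ∀ n, n0 ≤ n → P.eval (c n) ≠ 0 ∧
      w.ord (aeval θ P) = e * v.ord (P.eval (c n)) := by
  obtain ⟨B, hB⟩ := poly_close (w := w) P
  refine ⟨(w.ord (aeval θ P) + B + 1).toNat, fun n hn => ?_⟩
  have h1 := hB θ (algebraMap K L (c n)) hθ (h.reg.2 (hc n)) n (hlim n)
  rw [aeval_base] at h1
  have h2 := ord_eq_of_sm (P := w) (x := aeval θ P) (y := algebraMap K L (P.eval (c n)))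
    (N := n - B) hP (by omega) (by
      have h3 := sm_neg w h1
      rwa [neg_sub] at h3)
  refine ⟨fun h0 => h2.1 (by rw [h0, map_zero]), ?_⟩
  rw [← h2.2, h.2]

theorem ev_lim_zero {w : Place k L} {v : Place k K} {e : ℕ} (h : Over w v e) {θ : L}
    (hθ : w.Reg θ) {c : ℕ → K} (hc : ∀ n, v.Reg (c n))
    (hlim : ∀ n : ℕ, Sm w n (θ - algebraMap K L (c n))) (P : K[X]) (hP : aeval θ P = 0) :
    ∃ B : ℤ, ∀ n : ℕ, P.eval (c n) = 0 ∨ n - B ≤ e * v.ord (P.eval (c n)) := by
  obtain ⟨B, hB⟩ := poly_close (w := w) P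
  refine ⟨B, fun n => ?_⟩
  have h1 := hB θ (algebraMap K L (c n)) hθ (h.reg.2 (hc n)) n (hlim n)
  rw [aeval_base, hP, zero_sub] at h1
  have h2 := sm_neg w h1
  rw [neg_neg] at h2
  rcases h2 with h2 | h2
  · left; exact (map_eq_zero _).1 h2
  · right; rwa [h.2] at h2

theorem exists_aeval [FiniteDimensional K L] {θ : L} (hgen : IntermediateField.adjoin K {θ} = ⊤)
    (z : L) : ∃ P : K[X], aeval θ P = z := by
  have h1 : z ∈ IntermediateField.adjoin K {θ} := by rw [hgen]; trivial
  have h2 : IsAlgebraic K θ := Algebra.IsAlgebraic.isAlgebraic θ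
  rw [← IntermediateField.mem_toSubalgebra,
    IntermediateField.adjoin_simple_toSubalgebra_of_isAlgebraic h2] at h1
  rw [Algebra.adjoin_singleton_eq_range_aeval] at h1
  exact h1

/-- two places over `v` with the same limit agree -/
theorem lim_unique [FiniteDimensional K L] {w w' : Place k L} {v : Place k K} {e e' : ℕ}
    (h : Over w v e) (h' : Over w' v e') {θ : L} (hgen : IntermediateField.adjoin K {θ} = ⊤)
    (hθ : w.Reg θ) (hθ' : w'.Reg θ) {c : ℕ → K} (hc : ∀ n, v.Reg (c n))
    (hlim : ∀ n : ℕ, Sm w n (θ - algebraMap K L (c n)))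
    (hlim' : ∀ n : ℕ, Sm w' n (θ - algebraMap K L (c n))) : w = w' := by
  apply Place.eq_of_le
  intro z hz0 hz
  obtain ⟨P, rfl⟩ := exists_aeval hgen z
  obtain ⟨n0, h0⟩ := ev_lim h hθ hc hlim P hz0
  obtain ⟨n1, h1⟩ := ev_lim h' hθ' hc hlim' P hz0
  have h2 := (h0 (max n0 n1) (le_max_left _ _)).2
  have h3 := (h1 (max n0 n1) (le_max_right _ _)).2
  rw [h2] at hz
  rw [h3]
  have h4 : (0 : ℤ) < e := by exact_mod_cast h.1
  exact mul_nonneg (Int.natCast_nonneg _) (nonneg_of_mul_nonneg_right hz h4)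

/-- a place over `v` at which the generator is a limit has ramification index one -/
theorem lim_ram [FiniteDimensional K L] {w : Place k L} {v : Place k K} {e : ℕ}
    (h : Over w v e) {θ : L} (hgen : IntermediateField.adjoin K {θ} = ⊤)
    (hθ : w.Reg θ) {c : ℕ → K} (hc : ∀ n, v.Reg (c n))
    (hlim : ∀ n : ℕ, Sm w n (θ - algebraMap K L (c n))) : e = 1 := by
  obtain ⟨t, ht0, ht⟩ := w.surj
  obtain ⟨P, rfl⟩ := exists_aeval hgen t
  obtain ⟨n0, h0⟩ := ev_lim h hθ hc hlim P ht0
  have h1 := (h0 n0 le_rfl).2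
  rw [ht] at h1
  have h2 : (e : ℤ) ∣ 1 := ⟨_, h1⟩
  have h3 := Int.eq_one_of_dvd_one (Int.natCast_nonneg e) h2
  exact_mod_cast h3

end approx

section two

variable {k K L L' : Type} [Field k] [Field K] [Algebra k K] [Field L] [Algebra k L] [Algebra K L]
  [IsScalarTower k K L] [Field L'] [Algebra k L'] [Algebra K L'] [IsScalarTower k K L']

theorem lim_minpoly [FiniteDimensional K L] [FiniteDimensional K L'] {w : Place k L}
    {w' : Place k L'} {v : Place k K} {e e' : ℕ} (h : Over w v e) (h' : Over w' v e') {θ : L}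
    {θ' : L'} (hθ : w.Reg θ) (hθ' : w'.Reg θ') {c : ℕ → K} (hc : ∀ n, v.Reg (c n))
    (hlim : ∀ n : ℕ, Sm w n (θ - algebraMap K L (c n)))
    (hlim' : ∀ n : ℕ, Sm w' n (θ' - algebraMap K L' (c n))) : minpoly K θ = minpoly K θ' := by
  have hi : IsIntegral K θ := Algebra.IsIntegral.isIntegral θ
  have hi' : IsIntegral K θ' := Algebra.IsIntegral.isIntegral θ'
  have h1 : aeval θ' (minpoly K θ) = 0 := by
    by_contra hne
    obtain ⟨B, hB⟩ := ev_lim_zero h hθ hc hlim (minpoly K θ) (minpoly.aeval K θ)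
    obtain ⟨n0, h0⟩ := ev_lim h' hθ' hc hlim' (minpoly K θ) hne
    have h2 := h0 n0 le_rfl
    set N : ℤ := v.ord ((minpoly K θ).eval (c n0)) with hN
    have h3 : ∀ n, n0 ≤ n → v.ord ((minpoly K θ).eval (c n)) = N := by
      intro n hn
      have h4 := (h0 n hn).2
      rw [h2.2] at h4
      have h5 : (e' : ℤ) ≠ 0 := by
        have := h'.1
        omega
      exact (mul_left_cancel₀ h5 h4).symm
    have h4 := hB (max n0 (e * N + B + 1).toNat)
    have h5 := h3 (max n0 (e * N + B + 1).toNat) (le_max_left _ _)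
    rcases h4 with h4 | h4
    · exact (h0 _ (le_max_left _ _)).1 h4
    · rw [h5] at h4
      have h6 : (e * N + B + 1).toNat ≤ max n0 (e * N + B + 1).toNat := le_max_right _ _
      omega
  have h2 : minpoly K θ' ∣ minpoly K θ := minpoly.dvd K θ' h1
  exact (Polynomial.eq_of_monic_of_associated (minpoly.monic hi') (minpoly.monic hi)
    ((minpoly.irreducible hi').associated_of_dvd (minpoly.irreducible hi) h2)).symm

end two

end Pool.Agent.W343.BSD
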