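import Pool.Agent.W343.BSD.Main

/-!
The bound for the order of vanishing of the `L`-function in terms of the cubic algebra.
-/

set_option autoImplicit false
set_option linter.all false
set_option maxHeartbeats 4000000

open PowerSeries FF Module

namespace Pool.Agent.W343.BSD

open Pool.Agent.H123R3.ZT

theorem isFF_of_finite {k K L : Type} [Field k] [Field K] [Algebra k K] [FF.IsFF k K] [Field L]
    [Algebra k L] [Algebra K L] [IsScalarTower k K L] [FiniteDimensional K L] : FF.IsFF k L := by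
  have h1 : Algebra.EssFiniteType k K := (inferInstance : FF.IsFF k K).ess
  have h2 : Algebra.trdeg k K = 1 := (inferInstance : FF.IsFF k K).trdeg
  have h3 : Algebra.EssFiniteType K L := inferInstance
  refine ⟨Algebra.EssFiniteType.comp k K L, ?_⟩
  have h4 := trdeg_add_eq k K (A := L)
  rw [(trdeg_eq_zero : Algebra.trdeg K L = 0), add_zero, h2] at h4
  exact h4.symm

section series

/-- the factor of a place in the zeta function modulo two -/
noncomputable abbrev zf (n : ℕ) : Polynomial (ZMod 2) := 1 + Polynomial.X ^ n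

theorem coe_zf (n : ℕ) : ((zf n : Polynomial (ZMod 2)) : PowerSeries (ZMod 2)) = 1 + X ^ n := by
  unfold zf
  rw [Polynomial.coe_add, Polynomial.coe_one, Polynomial.coe_pow, Polynomial.coe_X]

theorem coe_prod {ι : Type*} (s : Finset ι) (f : ι → Polynomial (ZMod 2)) :
    ((∏ i ∈ s, f i : Polynomial (ZMod 2)) : PowerSeries (ZMod 2)) =
      ∏ i ∈ s, (f i : PowerSeries (ZMod 2)) :=
  map_prod (Polynomial.coeToPowerSeries.ringHom (R := ZMod 2)) f s

end series

section global

variable {k K : Type} [Field k] [Finite k] [Field K] [Algebra k K] [FF.IsFF k K] {ι : Type}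
  [Fintype ι] {L : ι → Type} [∀ i, Field (L i)] [∀ i, Algebra k (L i)] [∀ i, Algebra K (L i)]
  [∀ i, IsScalarTower k K (L i)]

/-- the zeta function of `L i` modulo two as a product over the places of `K` -/
theorem zeta_fiber (i : ι) [FF.IsFF k (L i)] [FiniteDimensional K (L i)]
    {S : Place k K → ∀ i, Finset (Place k (L i))} {e f : Place k K → (Σ i, Place k (L i)) → ℕ}
    (D : ∀ v, FiberData v (S v) (e v) (f v)) :
    eulerProd (fun v : Place k K => v.deg)
      (fun v => ∏ w ∈ S v i, (1 + X ^ w.deg : PowerSeries (ZMod 2))) =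
    eulerProd (fun w : Place k (L i) => w.deg) (fun w => 1 + X ^ w.deg) := by
  refine eulerProd_fiber (fun n => places_fin n) (fun n => places_fin n)
    (fun w => dvd_one_add le_rfl) (fun v => S v i) ?_ ?_ ?_
  · intro w
    obtain ⟨e', v, hv⟩ := exists_below (k := k) (K := K) w
    exact ⟨v, (D v).mem i w e' hv⟩
  · intro v v' w hw hw'
    exact over_unique_base ((D v).isOver i w hw) ((D v').isOver i w hw')
  · intro v w hw
    rw [(D v).deg i w hw]
    exact Nat.le_mul_of_pos_right _ ((D v).pos i w hw)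

theorem fin_factor {J : Type*} {d : J → ℕ} (hfin : ∀ n, {v | d v ≤ n}.Finite)
    {F W : J → PowerSeries (ZMod 2)} (hF : ∀ v, (X : PowerSeries (ZMod 2)) ^ d v ∣ F v - 1)
    (hW : ∀ v, (X : PowerSeries (ZMod 2)) ^ d v ∣ W v - 1) (B : Finset J)
    (hB : ∀ v, v ∉ B → F v = W v) :
    eulerProd d F * ∏ v ∈ B, W v = eulerProd d W * ∏ v ∈ B, F v := by
  classical
  let G : J → PowerSeries (ZMod 2) := fun v => if v ∈ B then 1 else F v
  have hG : ∀ v, (X : PowerSeries (ZMod 2)) ^ d v ∣ G v - 1 := by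
    intro v
    show _ ∣ (if v ∈ B then 1 else F v) - 1
    split_ifs
    · rw [sub_self]; exact dvd_zero _
    · exact hF v
  have key : ∀ H : J → PowerSeries (ZMod 2), (∀ v, (X : PowerSeries (ZMod 2)) ^ d v ∣ H v - 1) →
      (∀ v, v ∉ B → F v = H v) → eulerProd d H = eulerProd d G * ∏ v ∈ B, H v := by
    intro H hH hHB
    let H' : J → PowerSeries (ZMod 2) := fun v => if v ∈ B then H v else 1
    have hH' : ∀ v, (X : PowerSeries (ZMod 2)) ^ d v ∣ H' v - 1 := by
      intro v
      show _ ∣ (if v ∈ B then H v else 1) - 1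
      split_ifs
      · exact hH v
      · rw [sub_self]; exact dvd_zero _
    have h1 : H = fun v => G v * H' v := by
      funext v
      show H v = (if v ∈ B then 1 else F v) * (if v ∈ B then H v else 1)
      by_cases hv : v ∈ B
      · rw [if_pos hv, if_pos hv, one_mul]
      · rw [if_neg hv, if_neg hv, mul_one, hHB v hv]
    have h2 : eulerProd d H' = ∏ v ∈ B, H v := by
      rw [eulerProd_of_finset hfin hH' B (fun v hv => if_neg hv)]
      exact Finset.prod_congr rfl fun v hv => if_pos hv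
    rw [← h2, ← eulerProd_mul hfin hG hH', ← h1]
  rw [key F hF (fun v _ => rfl), key W hW hB]
  ring

theorem main_identity (h6 : (6 : k) ≠ 0) {a b : K} {θ : ∀ i, L i}
    (hΔ : 4 * a ^ 3 + 27 * b ^ 2 ≠ 0) (hF : IsFamily a b θ) [∀ i, FF.IsFF k (L i)]
    {PK : Polynomial ℤ} (hPK : IsZetaNumRel k K PK) (hrK : constDeg k K = 1)
    {PL : ι → Polynomial ℤ} (hPL : ∀ i, IsZetaNumRel k (L i) (PL i))
    {S : Place k K → ∀ i, Finset (Place k (L i))} {e f : Place k K → (Σ i, Place k (L i)) → ℕ}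
    (D : ∀ v, FiberData v (S v) (e v) (f v)) (B : Finset (Place k K))
    (hB : ∀ v, v ∉ B → v.red (minDisc v a b) ≠ 0) :
    (((∏ i, (1 + Polynomial.X ^ constDeg k (L i)) ^ 2) * PK.map (Int.castRingHom (ZMod 2)) *
      ∏ v ∈ B, ((1 + Polynomial.X ^ v.deg) * locMod v a b) : Polynomial (ZMod 2)) :
        PowerSeries (ZMod 2)) * red2 (Lfun k a b) =
    (((1 + Polynomial.X) ^ 2 * (∏ i, (PL i).map (Int.castRingHom (ZMod 2))) *
      ∏ v ∈ B, ∏ i, ∏ w ∈ S v i, (1 + Polynomial.X ^ w.deg) : Polynomial (ZMod 2)) :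
        PowerSeries (ZMod 2)) := by
  classical
  have hfd := hF.fd
  have h2 : (2 : k) ≠ 0 := by
    have := two_ne h6
    exact_mod_cast this
  have hq : ((Nat.card k : ℕ) : ZMod 2) = 1 := card_odd h2
  set Φ : Place k K → PowerSeries (ZMod 2) := fun v => ∏ i, ∏ w ∈ S v i, (1 + X ^ w.deg) with hΦ
  set W : Place k K → PowerSeries (ZMod 2) :=
    fun v => (1 + X ^ v.deg) * (locMod v a b : PowerSeries (ZMod 2)) with hW
  have hΦ0 : ∀ i v, (X : PowerSeries (ZMod 2)) ^ v.deg ∣ (∏ w ∈ S v i, (1 + X ^ w.deg)) - 1 := by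
    intro i v
    have h := prod_congr_mod (S v i) (fun w => (1 + X ^ w.deg : PowerSeries (ZMod 2)))
      (fun _ => 1) v.deg (fun w hw => dvd_one_add (by
        rw [(D v).deg i w hw]
        exact Nat.le_mul_of_pos_right _ ((D v).pos i w hw)))
    rwa [Finset.prod_const_one] at h
  have hΦ1 : ∀ v, (X : PowerSeries (ZMod 2)) ^ v.deg ∣ Φ v - 1 := by
    intro v
    have h := prod_congr_mod Finset.univ (fun i => ∏ w ∈ S v i, (1 + X ^ w.deg : PowerSeries (ZMod 2)))
      (fun _ => 1) v.deg (fun i _ => hΦ0 i v)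
    rwa [Finset.prod_const_one] at h
  have hW1 : ∀ v, (X : PowerSeries (ZMod 2)) ^ v.deg ∣ W v - 1 := fun v =>
    one_mod_mul (dvd_one_add le_rfl) (const_locMod v a b)
  have hcoe : ∀ v, Φ v = ((∏ i, ∏ w ∈ S v i, (1 + Polynomial.X ^ w.deg) :
      Polynomial (ZMod 2)) : PowerSeries (ZMod 2)) := by
    intro v
    rw [coe_prod]
    refine Finset.prod_congr rfl fun i _ => ?_
    rw [coe_prod]
    refine Finset.prod_congr rfl fun w _ => ?_
    exact (coe_zf w.deg).symm
  have hcoeW : ∀ v, W v = (((1 + Polynomial.X ^ v.deg) * locMod v a b :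
      Polynomial (ZMod 2)) : PowerSeries (ZMod 2)) := by
    intro v
    rw [Polynomial.coe_mul]
    have := coe_zf v.deg
    unfold zf at this
    rw [this]
  have hgood : ∀ v, v ∉ B → Φ v = W v := by
    intro v hv
    rw [hcoe, hcoeW, good_factor h6 hΔ hF v (D v) (hB v hv)]
  have key := fin_factor (fun n => places_fin n) hΦ1 hW1 B hgood
  have hEΦ : eulerProd (fun v : Place k K => v.deg) Φ =
      ∏ i, eulerProd (fun w : Place k (L i) => w.deg) (fun w => (1 + X ^ w.deg : PowerSeries (ZMod 2))) := by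
    rw [hΦ, eulerProd_prod (fun n => places_fin n) Finset.univ
      (fun i v => ∏ w ∈ S v i, (1 + X ^ w.deg : PowerSeries (ZMod 2))) (fun i v => hΦ0 i v)]
    exact Finset.prod_congr rfl fun i _ => zeta_fiber i D
  have hEW : eulerProd (fun v : Place k K => v.deg) W =
      eulerProd (fun v : Place k K => v.deg) (fun v => (1 + X ^ v.deg : PowerSeries (ZMod 2))) *
      eulerProd (fun v : Place k K => v.deg) (fun v => (locMod v a b : PowerSeries (ZMod 2))) := by
    rw [hW, eulerProd_mul (fun n => places_fin n) (fun v => dvd_one_add le_rfl)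
      (fun v => const_locMod v a b)]
  have hL := lfun_mod (k := k) a b
  have hK := num_mod hq hPK
  rw [hrK, pow_one] at hK
  have hLi := fun i => num_mod hq (hPL i)
  rw [hEΦ, hEW] at key
  have hprod : (∏ i, ((PL i).map (Int.castRingHom (ZMod 2)) : PowerSeries (ZMod 2))) *
      ∏ i, eulerProd (fun w : Place k (L i) => w.deg) (fun w => (1 + X ^ w.deg : PowerSeries (ZMod 2))) =
      ∏ i, (1 + X ^ constDeg k (L i)) ^ 2 := by
    rw [← Finset.prod_mul_distrib, Finset.prod_congr rfl (fun i _ => hLi i)]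
  have e1 : (((∏ i, (1 + Polynomial.X ^ constDeg k (L i)) ^ 2) *
      PK.map (Int.castRingHom (ZMod 2)) *
      ∏ v ∈ B, ((1 + Polynomial.X ^ v.deg) * locMod v a b) : Polynomial (ZMod 2)) :
        PowerSeries (ZMod 2)) = (∏ i, (1 + X ^ constDeg k (L i)) ^ 2) *
        (PK.map (Int.castRingHom (ZMod 2)) : PowerSeries (ZMod 2)) * ∏ v ∈ B, W v := by
    rw [Polynomial.coe_mul, Polynomial.coe_mul, coe_prod, coe_prod]
    congr 2
    · refine Finset.prod_congr rfl fun i _ => ?_
      rw [Polynomial.coe_pow]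
      exact congrArg (fun z : PowerSeries (ZMod 2) => z ^ 2) (coe_zf _)
    · exact funext fun v => (hcoeW v).symm
  have e2 : (((1 + Polynomial.X) ^ 2 * (∏ i, (PL i).map (Int.castRingHom (ZMod 2))) *
      ∏ v ∈ B, ∏ i, ∏ w ∈ S v i, (1 + Polynomial.X ^ w.deg) : Polynomial (ZMod 2)) :
        PowerSeries (ZMod 2)) = (1 + X) ^ 2 *
        (∏ i, ((PL i).map (Int.castRingHom (ZMod 2)) : PowerSeries (ZMod 2))) * ∏ v ∈ B, Φ v := by
    rw [Polynomial.coe_mul, Polynomial.coe_mul, Polynomial.coe_pow, coe_prod, coe_prod]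
    congr 2
    · rw [Polynomial.coe_add, Polynomial.coe_one, Polynomial.coe_X]
    · exact funext fun v => (hcoe v).symm
  rw [e1, e2, ← hprod, ← hK]
  linear_combination (∏ i, ((PL i).map (Int.castRingHom (ZMod 2)) : PowerSeries (ZMod 2))) *
    (PK.map (Int.castRingHom (ZMod 2)) : PowerSeries (ZMod 2)) * red2 (Lfun k a b) * key +
    (∏ i, ((PL i).map (Int.castRingHom (ZMod 2)) : PowerSeries (ZMod 2))) *
    (PK.map (Int.castRingHom (ZMod 2)) : PowerSeries (ZMod 2)) *
    eulerProd (fun v : Place k K => v.deg) (fun v => (1 + X ^ v.deg : PowerSeries (ZMod 2))) *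
    (∏ v ∈ B, Φ v) * hL

theorem coe_inj2 {p q : Polynomial (ZMod 2)}
    (h : (p : PowerSeries (ZMod 2)) = (q : PowerSeries (ZMod 2))) : p = q :=
  Polynomial.coe_injective _ h

theorem one_add_X_ne : (1 + Polynomial.X : Polynomial (ZMod 2)) ≠ 0 := by
  have := one_add_ne (n := 1) one_pos
  rwa [pow_one] at this

theorem mu_one_add_X : mu (1 + Polynomial.X) = 1 := by
  have h := mu_one_add_of_odd (m := 1) odd_one
  rwa [pow_one] at h

theorem localTerm_good {v : Place k K} {a b : K} (h : v.red (minDisc v a b) ≠ 0) :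
    localTerm v a b = 0 := by
  unfold localTerm
  rw [if_pos h]

/-- the bound -/
theorem main_bound (h6 : (6 : k) ≠ 0) {a b : K} {θ : ∀ i, L i}
    (hΔ : 4 * a ^ 3 + 27 * b ^ 2 ≠ 0) (hF : IsFamily a b θ)
    {PK : Polynomial ℤ} (hPK : IsZetaNumRel k K PK) (hrK : constDeg k K = 1)
    {PL : ι → Polynomial ℤ} (hPL : ∀ i, IsZetaNumRel k (L i) (PL i)) (m : ℕ) (G : Polynomial ℤ)
    (hG : Lfun k a b = (((1 - Polynomial.C (Nat.card k : ℤ) * Polynomial.X) ^ m * G :
      Polynomial ℤ) : PowerSeries ℤ)) :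
    m + mu (PK.map (Int.castRingHom (ZMod 2))) + 2 * ∑ i, twoPart (constDeg k (L i)) ≤
      2 + ∑ i, mu ((PL i).map (Int.castRingHom (ZMod 2))) +
        ∑ᶠ v : Place k K, localTerm v a b * twoPart v.deg := by
  classical
  have hfd := hF.fd
  have hFF : ∀ i, FF.IsFF k (L i) := fun i => isFF_of_finite (K := K)
  have h2 : (2 : k) ≠ 0 := by
    have := two_ne h6
    exact_mod_cast this
  have hq : ((Nat.card k : ℕ) : ZMod 2) = 1 := card_odd h2
  have hD := fun v : Place k K => exists_fiberData (L := L) hF.fd hF.sep v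
  choose S e f D using hD
  set B : Finset (Place k K) := (bad_finite (k := k) hΔ).toFinset with hBdef
  have hB : ∀ v, v ∉ B → v.red (minDisc v a b) ≠ 0 := by
    intro v hv
    rw [hBdef, Set.Finite.mem_toFinset] at hv
    exact hv
  have hB' : ∀ v ∈ B, v.red (minDisc v a b) = 0 := by
    intro v hv
    rw [hBdef, Set.Finite.mem_toFinset] at hv
    exact hv
  have hid := main_identity h6 hΔ hF hPK hrK hPL D B hB
  set GG : Polynomial (ZMod 2) := G.map (Int.castRingHom (ZMod 2)) with hGG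
  have hred : red2 (Lfun k a b) =
      (((1 + Polynomial.X) ^ m * GG : Polynomial (ZMod 2)) : PowerSeries (ZMod 2)) := by
    rw [hG, red2_poly]
    congr 1
    rw [Polynomial.map_mul, Polynomial.map_pow, Polynomial.map_sub, Polynomial.map_one,
      Polynomial.map_mul, Polynomial.map_C, Polynomial.map_X]
    have h3 : (Int.castRingHom (ZMod 2)) (Nat.card k : ℤ) = 1 := by
      rw [eq_intCast, Int.cast_natCast, hq]
    rw [h3, map_one, one_mul, CharTwo.sub_eq_add]
  rw [hred, ← Polynomial.coe_mul] at hid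
  have hid' := coe_inj2 hid
  have hPK0 := num_ne_zero hq hPK
  have hPL0 := fun i => num_ne_zero hq (hPL i)
  have hne : ∀ n : ℕ, ((1 + Polynomial.X : Polynomial (ZMod 2)) ^ n) ≠ 0 :=
    fun n => pow_ne_zero n one_add_X_ne
  have hw : ∀ v, ∀ i, ∏ w ∈ S v i, (1 + Polynomial.X ^ w.deg : Polynomial (ZMod 2)) ≠ 0 :=
    fun v i => Finset.prod_ne_zero_iff.2 fun w _ => one_add_ne (deg_pos' w)
  have hw' : ∀ v, ∏ i, ∏ w ∈ S v i, (1 + Polynomial.X ^ w.deg : Polynomial (ZMod 2)) ≠ 0 :=
    fun v => Finset.prod_ne_zero_iff.2 fun i _ => hw v i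
  have hloc : ∀ v ∈ B, (1 + Polynomial.X ^ v.deg) * locMod v a b ≠ 0 := fun v hv =>
    mul_ne_zero (one_add_ne (deg_pos' v)) (bad_factor h6 hΔ hF v (D v) (hB' v hv)).1
  have hR : (1 + Polynomial.X) ^ 2 * (∏ i, (PL i).map (Int.castRingHom (ZMod 2))) *
      ∏ v ∈ B, ∏ i, ∏ w ∈ S v i, (1 + Polynomial.X ^ w.deg) ≠ (0 : Polynomial (ZMod 2)) :=
    mul_ne_zero (mul_ne_zero (hne 2) (Finset.prod_ne_zero_iff.2 fun i _ => hPL0 i))
      (Finset.prod_ne_zero_iff.2 fun v _ => hw' v)
  have hL0 : (1 + Polynomial.X) ^ m * GG ≠ (0 : Polynomial (ZMod 2)) := by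
    intro h
    rw [h, mul_zero] at hid'
    exact hR hid'.symm
  have hGG0 : GG ≠ 0 := right_ne_zero_of_mul hL0
  have hprodloc : ∏ v ∈ B, ((1 + Polynomial.X ^ v.deg) * locMod v a b) ≠ 0 :=
    Finset.prod_ne_zero_iff.2 hloc
  have hmu := congrArg mu hid'
  have hci : ∀ i, (1 + Polynomial.X ^ constDeg k (L i) : Polynomial (ZMod 2)) ≠ 0 :=
    fun i => one_add_ne (constDeg_pos k (L i))
  have hcp : ∏ i, (1 + Polynomial.X ^ constDeg k (L i) : Polynomial (ZMod 2)) ^ 2 ≠ 0 :=
    Finset.prod_ne_zero_iff.2 fun i _ => pow_ne_zero 2 (hci i)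
  have hcm : mu (∏ i, (1 + Polynomial.X ^ constDeg k (L i) : Polynomial (ZMod 2)) ^ 2) =
      2 * ∑ i, twoPart (constDeg k (L i)) := by
    rw [mu_prod _ _ (fun i _ => pow_ne_zero 2 (hci i)), Finset.mul_sum]
    refine Finset.sum_congr rfl fun i _ => ?_
    rw [mu_pow (hci i), mu_one_add (constDeg_pos k (L i))]
  rw [mu_mul (mul_ne_zero (mul_ne_zero hcp hPK0) hprodloc) hL0,
    mu_mul (mul_ne_zero hcp hPK0) hprodloc, mu_mul hcp hPK0, mu_mul (hne _) hGG0,
    hcm, mu_pow one_add_X_ne, mu_one_add_X, mu_prod _ _ hloc,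
    mu_mul (mul_ne_zero (hne 2) (Finset.prod_ne_zero_iff.2 fun i _ => hPL0 i))
      (Finset.prod_ne_zero_iff.2 fun v _ => hw' v),
    mu_mul (hne 2) (Finset.prod_ne_zero_iff.2 fun i _ => hPL0 i), mu_pow one_add_X_ne,
    mu_one_add_X, mu_prod _ _ (fun i _ => hPL0 i), mu_prod _ _ (fun v _ => hw' v)] at hmu
  have e1 : ∑ v ∈ B, mu ((1 + Polynomial.X ^ v.deg) * locMod v a b) =
      ∑ v ∈ B, (twoPart v.deg + mu (locMod v a b)) := by
    refine Finset.sum_congr rfl fun v hv => ?_
    rw [mu_mul (one_add_ne (deg_pos' v)) (bad_factor h6 hΔ hF v (D v) (hB' v hv)).1,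
      mu_one_add (deg_pos' v)]
  have e2 : ∑ v ∈ B, mu (∏ i, ∏ w ∈ S v i, (1 + Polynomial.X ^ w.deg)) =
      ∑ v ∈ B, ∑ i, ∑ w ∈ S v i, twoPart w.deg := by
    refine Finset.sum_congr rfl fun v hv => ?_
    rw [mu_prod _ _ (fun i _ => hw v i)]
    refine Finset.sum_congr rfl fun i _ => ?_
    rw [mu_prod _ _ (fun w _ => one_add_ne (deg_pos' w))]
    exact Finset.sum_congr rfl fun w _ => mu_one_add (deg_pos' w)
  rw [e1, e2] at hmu
  have e3 : ∑ v ∈ B, ∑ i, ∑ w ∈ S v i, twoPart w.deg ≤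
      ∑ v ∈ B, (twoPart v.deg + mu (locMod v a b)) +
        ∑ v ∈ B, localTerm v a b * twoPart v.deg := by
    rw [← Finset.sum_add_distrib]
    exact Finset.sum_le_sum fun v hv => (bad_factor h6 hΔ hF v (D v) (hB' v hv)).2
  have e4 : ∑ᶠ v : Place k K, localTerm v a b * twoPart v.deg =
      ∑ v ∈ B, localTerm v a b * twoPart v.deg := by
    apply finsum_eq_sum_of_support_subset
    intro v hv
    rw [Function.mem_support] at hv
    by_contra h
    apply hv
    rw [localTerm_good (hB v h), zero_mul]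
  rw [e4]
  omega

end global

end Pool.Agent.W343.BSD
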