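import Pool.Agent.W343.BSD.Final

/-!
The notions used in the final statements: places, zeta functions, `L`-functions of elliptic curves.
-/

set_option autoImplicit false
set_option linter.all false
set_option maxHeartbeats 4000000

open PowerSeries FF Module

namespace Pool.Agent.W343.BSD.S

section defs

variable {k K : Type} [Field k] [Field K] [Algebra k K]

/-- The residue field of a place. -/
abbrev Res (v : FF.Place k K) : Type := IsLocalRing.ResidueField v.O

open Classical in
/-- The residue class at `v` of an element of `K` regular at `v` (and `0` for other elements). -/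
noncomputable def red (v : FF.Place k K) (f : K) : Res v :=
  if h : v.Reg f then IsLocalRing.residue v.O ⟨f, h⟩ else 0

/-- The degree of a place: the residue field has `q ^ deg v` elements, where `q` is the number of
elements of `k`. -/
noncomputable def deg (v : FF.Place k K) : ℕ := Nat.log (Nat.card k) (Nat.card (Res v))

/-- The divisors of degree zero. -/
def degZero (k K : Type) [Field k] [Field K] [Algebra k K] : AddSubgroup (FF.Place k K →₀ ℤ) where
  carrier := {D | (D.sum fun v n => n * (deg v : ℤ)) = 0}
  zero_mem' := by simp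
  add_mem' := by
    intro D E hD hE
    classical
    show ((D + E).sum fun v n => n * (deg v : ℤ)) = 0
    rw [Finsupp.sum_add_index' (by intro v; simp) (by intro v m n; ring), hD, hE, add_zero]
  neg_mem' := by
    intro D hD
    show ((-D).sum fun v n => n * (deg v : ℤ)) = 0
    have h : ((-D).sum fun v n => n * (deg v : ℤ)) = -(D.sum fun v n => n * (deg v : ℤ)) := by
      rw [Finsupp.sum_neg_index (by intro v; simp), ← Finsupp.sum_neg]
      exact Finsupp.sum_congr fun v _ => by ring
    rw [h, hD, neg_zero]

/-- The number of divisor classes of degree zero. -/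
noncomputable def classNumber (k K : Type) [Field k] [Field K] [Algebra k K] : ℕ :=
  (principal k K).relIndex (degZero k K)

/-- `P` is the numerator of the zeta function
`∏ (1 - T ^ deg v)⁻¹ = P(T) / ((1 - T ^ r) (1 - q ^ r T ^ r))`, where `r` is the degree of the field
of constants over `k`. -/
def IsZetaNum (k F : Type) [Field k] [Field F] [Algebra k F] (P : Polynomial ℤ) : Prop :=
  (P : PowerSeries ℤ) * eulerProd (fun v : FF.Place k F => deg v) (fun v => 1 - X ^ deg v) =
    (1 - X ^ constDeg k F) *
      (1 - C ((Nat.card k : ℤ) ^ constDeg k F) * X ^ constDeg k F)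

/-- The trace `a_v`: the number of elements of the residue field minus the number of affine points
of the reduction of a minimal model `y ^ 2 = x ^ 3 + A x + B`. It is `q_v + 1 - |E_v(F_v)|` at the
places of good reduction, `1`, `-1`, `0` at the places of split multiplicative, nonsplit
multiplicative, additive reduction. -/
noncomputable def trace (v : FF.Place k K) (a b : K) : ℤ :=
  (Nat.card (Res v) : ℤ) -
    Nat.card {P : Res v × Res v // P.2 ^ 2 = P.1 ^ 3 + red v (minA v a b) * P.1 + red v (minB v a b)}

open Classical in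
/-- The Euler factor at `v`: `1 - a_v T ^ deg v + q_v T ^ (2 deg v)` for good reduction,
`1 - a_v T ^ deg v` for bad reduction. -/
noncomputable def locFactor (v : FF.Place k K) (a b : K) : Polynomial ℤ :=
  1 - Polynomial.C (trace v a b) * Polynomial.X ^ deg v +
    if v.ord (minDisc v a b) = 0 then
      Polynomial.C (Nat.card (Res v) : ℤ) * Polynomial.X ^ (2 * deg v) else 0

/-- The `L`-function `L(T, E) = ∏_v L_v(T)⁻¹` of `E : y ^ 2 = x ^ 3 + a x + b` over `K`. -/
noncomputable def Lfun (k : Type) {K : Type} [Field k] [Field K] [Algebra k K] (a b : K) :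
    PowerSeries ℤ :=
  eulerProd (fun v : FF.Place k K => deg v)
    (fun v => invOfUnit (locFactor v a b : PowerSeries ℤ) 1)

open Classical in
/-- The local term: `0` for good reduction; for multiplicative reduction `1` if the valuation of the
minimal discriminant is even and `0` if it is odd; for additive reduction `1` if the valuation of
the minimal discriminant is odd, and otherwise `2` or `0` according to whether the cubic has a root
in the completion or not. -/
noncomputable def localTerm (v : FF.Place k K) (a b : K) : ℕ :=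
  if v.ord (minDisc v a b) = 0 then 0
  else if minA v a b ≠ 0 ∧ v.ord (minA v a b) = 0 then
    (if Even (v.ord (minDisc v a b)) then 1 else 0)
  else if Odd (v.ord (minDisc v a b)) then 1
  else if LocalRoot v (minA v a b) (minB v a b) then 2 else 0

/-- `L(T, E)` is `(1 - q T) ^ m` times an integral polynomial. -/
def VanishesTo (k : Type) {K : Type} [Field k] [Field K] [Algebra k K] (a b : K) (m : ℕ) : Prop :=
  ∃ G : Polynomial ℤ, Lfun k a b =
    (((1 - Polynomial.C (Nat.card k : ℤ) * Polynomial.X) ^ m * G : Polynomial ℤ) : PowerSeries ℤ)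

end defs

section bridge

variable {k K : Type} [Field k] [Finite k] [Field K] [Algebra k K] [FF.IsFF k K]

theorem red_eq (v : FF.Place k K) (f : K) : red v f = v.red f := rfl

theorem deg_eq (v : FF.Place k K) : deg v = v.deg := by
  unfold deg
  have h1 : Nat.card (Res v) = Nat.card k ^ v.deg := Module.natCard_eq_pow_finrank (K := k) (V := v.RF)
  rw [h1, Nat.log_pow (Finite.one_lt_card (α := k))]

theorem degZero_eq : degZero k K = BSD.degZero k K := by
  ext D
  show (D.sum fun v n => n * (deg v : ℤ)) = 0 ↔ (D.sum fun v n => n * (v.deg : ℤ)) = 0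
  simp only [deg_eq]

theorem classNumber_eq : classNumber k K = BSD.classNumber k K := by
  unfold classNumber BSD.classNumber
  rw [degZero_eq]

theorem isZetaNum_iff (P : Polynomial ℤ) : IsZetaNum k K P ↔ IsZetaNumRel k K P := by
  unfold IsZetaNum IsZetaNumRel
  simp only [deg_eq]

theorem trace_eq (v : FF.Place k K) (a b : K) : trace v a b = BSD.trace v a b := rfl

theorem ord_disc_iff (v : FF.Place k K) {a b : K} (hΔ : 4 * a ^ 3 + 27 * b ^ 2 ≠ 0) :
    v.ord (minDisc v a b) = 0 ↔ v.red (minDisc v a b) ≠ 0 := by
  have hab := ab_of_disc hΔ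
  have hreg : v.Reg (minDisc v a b) :=
    v.reg_add (v.reg_mul reg_four (reg_pow (reg_minA v hab) 3))
      (v.reg_mul reg_27 (reg_pow (reg_minB v hab) 2))
  have h0 := minDisc_ne v hΔ
  have h1 := (v.reg_iff h0).1 hreg
  rw [Ne, v.red_eq_zero_iff hreg]
  constructor
  · rintro h (h2 | h2)
    · exact h0 h2
    · omega
  · intro h
    by_contra h2
    exact h (Or.inr (by omega))

theorem ord_A_iff (v : FF.Place k K) {a b : K} (hΔ : 4 * a ^ 3 + 27 * b ^ 2 ≠ 0) :
    (minA v a b ≠ 0 ∧ v.ord (minA v a b) = 0) ↔ v.red (minA v a b) ≠ 0 := by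
  have hreg := reg_minA v (ab_of_disc hΔ)
  rw [← not_iff_not, not_ne_iff, v.red_eq_zero_iff hreg, ← not_iff_not, not_not]
  constructor
  · rintro ⟨h, h1⟩ (h2 | h2)
    · exact h h2
    · omega
  · intro h
    push Not at h
    refine ⟨h.1, ?_⟩
    have h1 := (v.reg_iff h.1).1 hreg
    omega

theorem locFactor_eq (v : FF.Place k K) {a b : K} (hΔ : 4 * a ^ 3 + 27 * b ^ 2 ≠ 0) :
    locFactor v a b = BSD.locFactor v a b := by
  classical
  unfold locFactor BSD.locFactor
  rw [deg_eq, trace_eq]
  congr 1
  by_cases h : v.ord (minDisc v a b) = 0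
  · rw [if_pos h, if_pos ((ord_disc_iff v hΔ).1 h)]
    rfl
  · rw [if_neg h, if_neg (fun h2 => h ((ord_disc_iff v hΔ).2 h2))]

theorem lfun_eq {a b : K} (hΔ : 4 * a ^ 3 + 27 * b ^ 2 ≠ 0) : Lfun k a b = BSD.Lfun k a b := by
  unfold Lfun BSD.Lfun
  simp only [deg_eq, locFactor_eq _ hΔ]

theorem localTerm_eq (v : FF.Place k K) {a b : K} (hΔ : 4 * a ^ 3 + 27 * b ^ 2 ≠ 0) :
    localTerm v a b = BSD.localTerm v a b := by
  unfold localTerm BSD.localTerm
  by_cases h : v.ord (minDisc v a b) = 0
  · rw [if_pos h, if_pos ((ord_disc_iff v hΔ).1 h)]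
  · rw [if_neg h, if_neg (fun h2 => h ((ord_disc_iff v hΔ).2 h2))]
    by_cases h3 : minA v a b ≠ 0 ∧ v.ord (minA v a b) = 0
    · rw [if_pos h3, if_pos ((ord_A_iff v hΔ).1 h3)]
    · rw [if_neg h3, if_neg (fun h2 => h3 ((ord_A_iff v hΔ).2 h2))]

end bridge

end Pool.Agent.W343.BSD.S
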