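import Pool.Agent.W343.BSD.Comb

/-!
The multiplicity of the root one of polynomials over the field with two elements.
-/

set_option autoImplicit false

open Polynomial

namespace Pool.Agent.W343.BSD

/-- The multiplicity of the root `1` of a polynomial modulo two. -/
noncomputable def mu (P : Polynomial (ZMod 2)) : ℕ := P.rootMultiplicity 1

theorem mu_one : mu 1 = 0 := by
  unfold mu
  rw [← C_1, rootMultiplicity_C]

theorem mu_mul {p q : Polynomial (ZMod 2)} (hp : p ≠ 0) (hq : q ≠ 0) :
    mu (p * q) = mu p + mu q := rootMultiplicity_mul (mul_ne_zero hp hq)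

theorem mu_prod {ι : Type*} (s : Finset ι) (f : ι → Polynomial (ZMod 2))
    (h : ∀ i ∈ s, f i ≠ 0) : mu (∏ i ∈ s, f i) = ∑ i ∈ s, mu (f i) := by
  classical
  induction s using Finset.induction_on with
  | empty => simp [mu_one]
  | insert i s hi ih =>
    rw [Finset.prod_insert hi, Finset.sum_insert hi, mu_mul (h i (Finset.mem_insert_self i s))
      (Finset.prod_ne_zero_iff.2 fun j hj => h j (Finset.mem_insert_of_mem hj)),
      ih fun j hj => h j (Finset.mem_insert_of_mem hj)]

theorem mu_pow {p : Polynomial (ZMod 2)} (hp : p ≠ 0) (n : ℕ) : mu (p ^ n) = n * mu p := by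
  induction n with
  | zero => rw [pow_zero, mu_one, zero_mul]
  | succ n ih => rw [pow_succ, mu_mul (pow_ne_zero n hp) hp, ih]; ring

theorem one_add_ne {n : ℕ} (hn : 0 < n) : (1 + X ^ n : Polynomial (ZMod 2)) ≠ 0 := by
  intro h
  have := congrArg (fun p => coeff p 0) h
  simp [hn.ne] at this

theorem mu_one_add_of_odd {m : ℕ} (hm : Odd m) : mu (1 + X ^ m) = 1 := by
  have hm0 : 0 < m := hm.pos
  have h0 := one_add_ne hm0
  have hroot : (1 + X ^ m : Polynomial (ZMod 2)).IsRoot 1 := by
    simp only [IsRoot.def, eval_add, eval_one, eval_pow, eval_X, one_pow]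
    exact CharTwo.add_self_eq_zero 1
  have h1 : 0 < mu (1 + X ^ m) := (rootMultiplicity_pos h0).2 hroot
  have h2 : ¬ 1 < mu (1 + X ^ m) := by
    intro h
    have h3 := ((one_lt_rootMultiplicity_iff_isRoot h0).1 h).2
    simp only [IsRoot.def, derivative_add, derivative_one, zero_add, derivative_X_pow, eval_mul,
      eval_C, eval_pow, eval_X, one_pow, mul_one] at h3
    have h4 := (ZMod.natCast_eq_zero_iff m 2).1 h3
    obtain ⟨c, hc⟩ := hm
    omega
  omega

theorem mu_one_add {n : ℕ} (hn : 0 < n) : mu (1 + X ^ n) = twoPart n := by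
  obtain ⟨m, hm⟩ : twoPart n ∣ n := pow_padicValNat_dvd
  have hmodd : Odd m := by
    by_contra h
    rw [Nat.not_odd_iff_even] at h
    obtain ⟨c, hc⟩ := h
    have h1 : 2 ^ (padicValNat 2 n + 1) ∣ n := by
      refine ⟨c, ?_⟩
      conv_lhs => rw [hm, hc]
      unfold twoPart
      ring
    exact pow_succ_padicValNat_not_dvd hn.ne' h1
  have h2 : (1 + X ^ n : Polynomial (ZMod 2)) = (1 + X ^ m) ^ twoPart n := by
    unfold twoPart
    rw [add_pow_char_pow, one_pow, ← pow_mul]
    congr 2
    conv_lhs => rw [hm]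
    unfold twoPart
    ring
  rw [h2, mu_pow (one_add_ne hmodd.pos), mu_one_add_of_odd hmodd, mul_one]

end Pool.Agent.W343.BSD
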