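import Pool.Agent.W343.BSD.Zeta

/-!
Function fields over a finite field which need not be algebraically closed in them.
-/

set_option autoImplicit false
set_option linter.all false
set_option maxHeartbeats 4000000

open PowerSeries FF Module

namespace Pool.Agent.W343.BSD

section places

variable {k k' F : Type} [Field k] [Field k'] [Field F] [Algebra k k'] [Algebra k' F]
  [Algebra k F] [IsScalarTower k k' F]

/-- a place over the smaller field of constants is a place over the larger one -/
def upPlace [Finite k'] (v : Place k F) : Place k' F where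
  ord := v.ord
  ord_zero := v.ord_zero
  ord_mul := v.ord_mul
  ord_add := v.ord_add
  ord_const := by
    intro c hc
    have hfin : Fintype k' := Fintype.ofFinite k'
    have h1 : c ^ (Fintype.card k' - 1) = 1 := FiniteField.pow_card_sub_one_eq_one c hc
    have h2 := congrArg (fun z => v.ord (algebraMap k' F z)) h1
    simp only [map_pow, map_one] at h2
    rw [v.ord_pow, v.ord_one] at h2
    have h3 : 1 < Fintype.card k' := Fintype.one_lt_card
    rcases mul_eq_zero.1 h2 with h | h
    · omega
    · exact h
  surj := v.surj

/-- a place over the larger field of constants is a place over the smaller one -/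
def downPlace (v : Place k' F) : Place k F where
  ord := v.ord
  ord_zero := v.ord_zero
  ord_mul := v.ord_mul
  ord_add := v.ord_add
  ord_const := by
    intro c hc
    rw [IsScalarTower.algebraMap_apply k k' F]
    exact v.ord_const ((_root_.map_ne_zero _).2 hc)
  surj := v.surj

/-- the places over the two fields of constants are the same -/
def placeEquiv [Finite k'] : Place k F ≃ Place k' F where
  toFun := upPlace
  invFun := downPlace
  left_inv _ := rfl
  right_inv _ := rfl

theorem deg_down (v : Place k' F) : (downPlace (k := k) v).deg = finrank k k' * v.deg := by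
  let _ : Algebra k v.RF := (downPlace (k := k) v).constHom.toAlgebra
  have : IsScalarTower k k' v.RF := by
    refine IsScalarTower.of_algebraMap_eq fun c => ?_
    show (downPlace (k := k) v).red (algebraMap k F c) = v.red (algebraMap k' F (algebraMap k k' c))
    rw [← IsScalarTower.algebraMap_apply k k' F]
    rfl
  exact (Module.finrank_mul_finrank k k' v.RF).symm

theorem ord_down (v : Place k' F) (x : F) : (downPlace (k := k) v).ord x = v.ord x := rfl

end places

section expand

variable {R : Type*} [CommRing R]

/-- substitution of `X ^ r` in an Euler product -/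
theorem expand_eulerProd {ι : Type*} {d : ι → ℕ} (hfin : ∀ n, {i | d i ≤ n}.Finite) {r : ℕ}
    (hr : r ≠ 0) {f : ι → PowerSeries R} (hf : ∀ i, (X : PowerSeries R) ^ d i ∣ f i - 1) :
    expand r hr (eulerProd d f) =
      eulerProd (fun i => r * d i) (fun i => expand r hr (f i)) := by
  have hfin' : ∀ n, {i | r * d i ≤ n}.Finite := fun n => (hfin n).subset fun i hi => by
    rw [Set.mem_setOf_eq] at hi ⊢
    exact (Nat.le_mul_of_pos_left _ (Nat.pos_of_ne_zero hr)).trans hi
  have hmap : ∀ (k : ℕ) (g : PowerSeries R), (X : PowerSeries R) ^ k ∣ g →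
      (X : PowerSeries R) ^ (r * k) ∣ expand r hr g := by
    rintro k g ⟨q, rfl⟩
    rw [map_mul, map_pow, expand_X, ← pow_mul]
    exact dvd_mul_right _ _
  have hf' : ∀ i, (X : PowerSeries R) ^ (r * d i) ∣ expand r hr (f i) - 1 := fun i => by
    have := hmap _ _ (hf i)
    rwa [map_sub, map_one] at this
  apply eq_of_mod
  intro n
  have h1 := hmap _ _ (eulerProd_mod hfin hf n (hfin n).toFinset (fun i hi => by
    rw [Set.Finite.mem_toFinset]; exact hi))
  rw [map_sub, map_prod] at h1
  have h2 := eulerProd_mod hfin' hf' n (hfin n).toFinset (fun i hi => by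
    rw [Set.Finite.mem_toFinset]
    exact (Nat.le_mul_of_pos_left _ (Nat.pos_of_ne_zero hr)).trans hi)
  have h3 : (X : PowerSeries R) ^ (n + 1) ∣ X ^ (r * (n + 1)) :=
    pow_dvd_pow _ (Nat.le_mul_of_pos_left _ (Nat.pos_of_ne_zero hr))
  exact mod_trans (h3.trans h1) (mod_symm h2)

theorem eulerProd_equiv {ι κ : Type*} (e : ι ≃ κ) (d : κ → ℕ) (hfin : ∀ n, {i | d i ≤ n}.Finite)
    (f : κ → PowerSeries R) :
    eulerProd (fun i => d (e i)) (fun i => f (e i)) = eulerProd d f := by
  ext n
  rw [eulerProd, eulerProd, coeff_mk, coeff_mk]
  congr 1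
  rw [← finprod_comp_equiv e]

end expand

/-- The degree over `k` of the field of constants of `F` (the algebraic closure of `k` in `F`). -/
noncomputable def constDeg (k F : Type) [Field k] [Field F] [Algebra k F] : ℕ :=
  finrank k (algebraicClosure k F)

/-- `P` is the numerator of the zeta function
`∏ (1 - T ^ deg v)⁻¹ = P(T) / ((1 - T ^ r) (1 - q ^ r T ^ r))`, where `r` is the degree of the field
of constants over `k`. -/
def IsZetaNumRel (k F : Type) [Field k] [Field F] [Algebra k F] (P : Polynomial ℤ) : Prop :=
  (P : PowerSeries ℤ) * eulerProd (fun v : FF.Place k F => v.deg) (fun v => 1 - X ^ v.deg) =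
    (1 - X ^ constDeg k F) *
      (1 - C ((Nat.card k : ℤ) ^ constDeg k F) * X ^ constDeg k F)

section rel

variable (k F : Type) [Field k] [Finite k] [Field F] [Algebra k F] [FF.IsFF k F]

instance finite_const : FiniteDimensional k (algebraicClosure k F) := by
  obtain ⟨v, -⟩ := H525R3.FFp.exists_place (k := k) (K := F)
  have hreg : ∀ c : algebraicClosure k F, v.Reg (c : F) := fun c =>
    v.reg_of_isIntegral (A := k) (fun a => v.reg_const a)
      ((mem_algebraicClosure_iff.1 c.2).isIntegral)
  let φ : algebraicClosure k F →ₐ[k] v.RF :=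
    { toFun := fun c => v.red (c : F)
      map_one' := v.red_one
      map_mul' := fun x y => v.red_mul (hreg x) (hreg y)
      map_zero' := v.red_zero
      map_add' := fun x y => v.red_add (hreg x) (hreg y)
      commutes' := fun c => rfl }
  exact FiniteDimensional.of_injective φ.toLinearMap φ.toRingHom.injective

theorem constDeg_pos : 0 < constDeg k F := finrank_pos

theorem exists_num_rel : ∃ P : Polynomial ℤ, IsZetaNumRel k F P ∧ P.eval 1 = classNumber k F := by
  set k' := algebraicClosure k F with hk'
  have hfin : Finite k' := Module.finite_of_finite k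
  have hFF : FF.IsFF k' F := by
    have h1 : Algebra.EssFiniteType k F := (inferInstance : FF.IsFF k F).ess
    have h2 : Algebra.trdeg k F = 1 := (inferInstance : FF.IsFF k F).trdeg
    refine ⟨Algebra.EssFiniteType.of_comp k k' F, ?_⟩
    have h3 := trdeg_add_eq k k' (A := F)
    rw [(trdeg_eq_zero : Algebra.trdeg k k' = 0), zero_add, h2] at h3
    exact h3
  have hconst : ∀ a : F, IsAlgebraic k' a → a ∈ (algebraMap k' F).range := by
    intro a ha
    have h1 : IsAlgebraic k a := ha.restrictScalars k
    exact ⟨⟨a, mem_algebraicClosure_iff.2 h1⟩, rfl⟩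
  obtain ⟨P, hP, hP1⟩ := exists_num k' F hconst
  have hr : constDeg k F ≠ 0 := (constDeg_pos k F).ne'
  have hcard : (Nat.card k' : ℤ) = (Nat.card k : ℤ) ^ constDeg k F := by
    rw [Module.natCard_eq_pow_finrank (K := k) (V := k')]
    push_cast
    rfl
  have hplaces : ∀ n, {v : FF.Place k' F | v.deg ≤ n}.Finite := H107R3.ZT.places_finite
  refine ⟨Polynomial.expand ℤ (constDeg k F) P, ?_, ?_⟩
  · unfold IsZetaNumRel
    unfold IsZetaNum at hP
    have h1 := congrArg (expand (constDeg k F) hr) hP
    rw [map_mul, map_mul, map_sub, map_sub, map_one, map_mul, expand_X, expand_C,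
      expand_eulerProd hplaces hr (fun v => by
        rw [sub_right_comm, sub_self, zero_sub]; exact (dvd_neg).2 dvd_rfl), hcard] at h1
    rw [← h1]
    congr 1
    · ext n
      rw [Polynomial.coeff_coe, coeff_expand, Polynomial.coeff_expand (Nat.pos_of_ne_zero hr)]
      split_ifs
      · rw [Polynomial.coeff_coe]
      · rfl
    · have h2 := eulerProd_equiv (R := ℤ) (placeEquiv (k := k) (k' := k') (F := F))
        (fun v => constDeg k F * v.deg) (fun n => (hplaces n).subset fun v hv =>
          (Nat.le_mul_of_pos_left _ (constDeg_pos k F)).trans hv)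
        (fun v => expand (constDeg k F) hr (1 - X ^ v.deg))
      rw [← h2]
      have h3 : ∀ v : Place k F, v.deg = constDeg k F * (placeEquiv (k' := k') v).deg := fun v =>
        deg_down (k := k) (placeEquiv (k' := k') v)
      have e1 : (fun v : Place k F => v.deg) =
          fun v => constDeg k F * (placeEquiv (k' := k') v).deg := funext h3
      have e2 : (fun v : Place k F => (1 - X ^ v.deg : PowerSeries ℤ)) =
          fun v => expand (constDeg k F) hr (1 - X ^ (placeEquiv (k' := k') v).deg) := by
        funext v
        rw [map_sub, map_one, map_pow, expand_X, ← pow_mul, ← h3]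
      rw [e2, e1]
  · rw [Polynomial.expand_eval, one_pow, hP1]
    norm_cast
    unfold classNumber
    let e : (Place k F →₀ ℤ) ≃+ (Place k' F →₀ ℤ) :=
      Finsupp.domCongr (placeEquiv (k := k) (k' := k') (F := F))
    have he : ∀ (D : Place k F →₀ ℤ) (v : Place k' F), e D v = D (downPlace v) := fun D v => rfl
    have h1 : principal k' F = (principal k F).map e.toAddMonoidHom := by
      ext D
      constructor
      · rintro ⟨f, hf, h⟩
        refine ⟨e.symm D, ⟨f, hf, fun v => ?_⟩, e.apply_symm_apply D⟩
        have h4 := he (e.symm D) (upPlace v)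
        rw [e.apply_symm_apply] at h4
        exact h4.symm.trans (h _)
      · rintro ⟨E, ⟨f, hf, h⟩, rfl⟩
        exact ⟨f, hf, fun v => h (downPlace v)⟩
    have hsum : ∀ E : Place k F →₀ ℤ, (E.sum fun v n => n * (v.deg : ℤ)) =
        constDeg k F * ((e E).sum fun v n => n * (v.deg : ℤ)) := by
      intro E
      have h4 : (e E).sum (fun v n => n * (v.deg : ℤ)) =
          E.sum fun v n => n * ((placeEquiv (k' := k') v).deg : ℤ) :=
        Finsupp.sum_equivMapDomain _ _ _
      rw [h4, Finsupp.mul_sum]
      refine Finsupp.sum_congr fun v _ => ?_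
      rw [show v.deg = constDeg k F * (placeEquiv (k' := k') v).deg from
        deg_down (k := k) (placeEquiv (k' := k') v)]
      push_cast
      ring
    have h2 : degZero k' F = (degZero k F).map e.toAddMonoidHom := by
      ext D
      constructor
      · intro h
        refine ⟨e.symm D, ?_, e.apply_symm_apply D⟩
        show ((e.symm D).sum fun v n => n * (v.deg : ℤ)) = 0
        rw [hsum, e.apply_symm_apply]
        have h' : (D.sum fun v n => n * (v.deg : ℤ)) = 0 := h
        rw [h', mul_zero]
      · rintro ⟨E, h, rfl⟩
        have h' : (E.sum fun v n => n * (v.deg : ℤ)) = 0 := h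
        rw [hsum] at h'
        have h5 : (constDeg k F : ℤ) ≠ 0 := by exact_mod_cast hr
        exact (mul_eq_zero.1 h').resolve_left h5
    rw [h1, h2]
    exact (AddSubgroup.relIndex_map_map_of_injective (principal k F) (degZero k F) e.injective)

end rel

end Pool.Agent.W343.BSD
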