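import Pool.Agent.W343.BSD.Elliptic
import Pool.Agent.W343.BSD.Fam2
import Pool.Agent.W343.BSD.Mu
import Pool.Agent.W343.BSD.Rel

/-!
The bound for the order of vanishing of the `L`-function.
-/

set_option autoImplicit false
set_option linter.all false
set_option maxHeartbeats 4000000

open PowerSeries FF Module

namespace Pool.Agent.W343.BSD

open Pool.Agent.H123R3.ZT

section local_

variable {k K : Type} [Field k] [Finite k] [Field K] [Algebra k K] [FF.IsFF k K] {ι : Type}
  [Fintype ι] {L : ι → Type} [∀ i, Field (L i)] [∀ i, Algebra k (L i)] [∀ i, Algebra K (L i)]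
  [∀ i, IsScalarTower k K (L i)]

theorem deg_pos' (v : FF.Place k K) : 0 < v.deg := H525R3.FFp.deg_pos v

/-- the Euler factors agree at the good places -/
theorem good_factor (h6 : (6 : k) ≠ 0) {a b : K} {θ : ∀ i, L i}
    (hΔ : 4 * a ^ 3 + 27 * b ^ 2 ≠ 0) (hF : IsFamily a b θ) (v : FF.Place k K)
    {S : ∀ i, Finset (Place k (L i))} {e f : (Σ i, Place k (L i)) → ℕ} (D : FiberData v S e f)
    (hv : v.red (minDisc v a b) ≠ 0) :
    ∏ i, ∏ w ∈ S i, (1 + (Polynomial.X : Polynomial (ZMod 2)) ^ w.deg) =
      (1 + Polynomial.X ^ v.deg) * locMod v a b := by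
  have hab := ab_of_disc hΔ
  have hc0 := (minScale_spec v hab).1
  have hF' : IsFamily (minA v a b) (minB v a b)
    (fun i => algebraMap K (L i) (minScale v a b ^ 2) * θ i) := hF.scale hc0
  have hA := reg_minA v hab
  have hB := reg_minB v hab
  obtain ⟨h1, h2⟩ := good_prod hF' D (deg_pos' v) hA hB hv (Polynomial.X : Polynomial (ZMod 2))
  by_cases hr : ∃ r : v.RF, r ^ 3 + v.red (minA v a b) * r + v.red (minB v a b) = 0
  · rw [h1 hr, locMod_good_root h6 v hab hv hr]
    have h3 : (2 : Polynomial (ZMod 2)) = 0 := CharTwo.two_eq_zero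
    rw [mul_comm 2 v.deg, pow_mul]
    linear_combination ((1 + Polynomial.X ^ v.deg) * Polynomial.X ^ v.deg) * h3
  · rw [h2 hr, locMod_good_noRoot h6 v hv hr]
    have h3 : (2 : Polynomial (ZMod 2)) = 0 := CharTwo.two_eq_zero
    rw [mul_comm 2 v.deg, pow_mul, pow_mul]
    linear_combination (-((Polynomial.X ^ v.deg) + (Polynomial.X ^ v.deg) ^ 2)) * h3

/-- the multiplicities at the bad places -/
theorem bad_factor (h6 : (6 : k) ≠ 0) {a b : K} {θ : ∀ i, L i}
    (hΔ : 4 * a ^ 3 + 27 * b ^ 2 ≠ 0) (hF : IsFamily a b θ) (v : FF.Place k K)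
    {S : ∀ i, Finset (Place k (L i))} {e f : (Σ i, Place k (L i)) → ℕ} (D : FiberData v S e f)
    (hv : v.red (minDisc v a b) = 0) :
    locMod v a b ≠ 0 ∧ ∑ i, ∑ w ∈ S i, twoPart w.deg ≤
      twoPart v.deg + mu (locMod v a b) + localTerm v a b * twoPart v.deg := by
  classical
  have hab := ab_of_disc hΔ
  have hc0 := (minScale_spec v hab).1
  have hF' : IsFamily (minA v a b) (minB v a b)
    (fun i => algebraMap K (L i) (minScale v a b ^ 2) * θ i) := hF.scale hc0
  have hA := reg_minA v hab
  have hB := reg_minB v hab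
  have hpos := deg_pos' v
  have hd := minDisc_ne v hΔ
  have h2 : (2 : k) ≠ 0 := by
    have := two_ne h6
    exact_mod_cast this
  rw [sum_twoPart_deg D hpos]
  have h3 := bad_three hF' D
  unfold localTerm
  rw [if_neg (not_not.2 hv)]
  by_cases hmult : v.red (minA v a b) ≠ 0
  · rw [locMod_mult h6 v hab hv hmult, mu_one_add hpos, if_pos hmult]
    refine ⟨one_add_ne hpos, ?_⟩
    by_cases hev : Even (v.ord (minDisc v a b))
    · rw [if_pos hev]
      nlinarith [Nat.zero_le (twoPart v.deg)]
    · rw [if_neg hev]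
      rw [Int.not_even_iff_odd] at hev
      have h4 := bad_odd hF' D hpos hA hB h2 hd hev
      nlinarith [Nat.zero_le (twoPart v.deg)]
  · rw [if_neg hmult]
    push Not at hmult
    rw [locMod_add h6 v hab hv hmult, mu_one]
    refine ⟨one_ne_zero, ?_⟩
    by_cases hodd : Odd (v.ord (minDisc v a b))
    · rw [if_pos hodd]
      have h4 := bad_odd hF' D hpos hA hB h2 hd hodd
      nlinarith [Nat.zero_le (twoPart v.deg)]
    · rw [if_neg hodd]
      by_cases hroot : LocalRoot v (minA v a b) (minB v a b)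
      · rw [if_pos hroot]
        nlinarith [Nat.zero_le (twoPart v.deg)]
      · rw [if_neg hroot]
        have h4 := bad_noRoot hF' D hpos hA hB hroot
        nlinarith [Nat.zero_le (twoPart v.deg)]

end local_

section global

variable {k K : Type} [Field k] [Finite k] [Field K] [Algebra k K] [FF.IsFF k K]

theorem places_fin (n : ℕ) : {v : FF.Place k K | v.deg ≤ n}.Finite := H107R3.ZT.places_finite n

theorem dvd_one_add {n d : ℕ} (h : d ≤ n) :
    (X : PowerSeries (ZMod 2)) ^ d ∣ (1 + X ^ n) - 1 := by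
  rw [add_sub_cancel_left]
  exact pow_dvd_pow _ h

theorem const_locFactor (v : FF.Place k K) (a b : K) :
    (X : PowerSeries ℤ) ^ v.deg ∣ (locFactor v a b : PowerSeries ℤ) - 1 := by
  classical
  have h : (Polynomial.X : Polynomial ℤ) ^ v.deg ∣ locFactor v a b - 1 := by
    unfold locFactor
    have e : (1 - Polynomial.C (trace v a b) * Polynomial.X ^ v.deg +
        if v.red (minDisc v a b) ≠ 0 then
          Polynomial.C (Nat.card v.RF : ℤ) * Polynomial.X ^ (2 * v.deg) else 0) - 1 =
        -(Polynomial.C (trace v a b) * Polynomial.X ^ v.deg) +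
        if v.red (minDisc v a b) ≠ 0 then
          Polynomial.C (Nat.card v.RF : ℤ) * Polynomial.X ^ (2 * v.deg) else 0 := by ring
    rw [e]
    apply dvd_add
    · exact (dvd_neg).2 (dvd_mul_left _ _)
    · split_ifs
      · exact (pow_dvd_pow _ (by omega)).trans (dvd_mul_left _ _)
      · exact dvd_zero _
  have h2 := map_dvd (Polynomial.coeToPowerSeries.ringHom (R := ℤ)) h
  simpa using h2

theorem coeff_zero_locFactor (v : FF.Place k K) (a b : K) :
    constantCoeff (locFactor v a b : PowerSeries ℤ) = ((1 : ℤˣ) : ℤ) := by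
  obtain ⟨q, hq⟩ := const_locFactor v a b
  have h1 : (locFactor v a b : PowerSeries ℤ) = 1 + X ^ v.deg * q := by
    rw [← hq]; ring
  rw [h1, map_add, map_mul, map_pow, constantCoeff_X, zero_pow (deg_pos' v).ne']
  simp

theorem inv_locFactor (v : FF.Place k K) (a b : K) :
    (locFactor v a b : PowerSeries ℤ) * invOfUnit (locFactor v a b : PowerSeries ℤ) 1 = 1 :=
  mul_invOfUnit _ 1 (coeff_zero_locFactor v a b)

theorem const_inv (v : FF.Place k K) (a b : K) :
    (X : PowerSeries ℤ) ^ v.deg ∣ invOfUnit (locFactor v a b : PowerSeries ℤ) 1 - 1 := by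
  obtain ⟨q, hq⟩ := const_locFactor v a b
  have h1 := inv_locFactor v a b
  set J := invOfUnit (locFactor v a b : PowerSeries ℤ) 1
  refine ⟨-(q * J), ?_⟩
  have h2 : (locFactor v a b : PowerSeries ℤ) = 1 + X ^ v.deg * q := by
    rw [← hq]; ring
  rw [h2] at h1
  linear_combination h1

/-- reduction modulo two -/
noncomputable abbrev red2 : PowerSeries ℤ →+* PowerSeries (ZMod 2) :=
  PowerSeries.map (Int.castRingHom (ZMod 2))

theorem red2_poly (P : Polynomial ℤ) :
    red2 (P : PowerSeries ℤ) = ((P.map (Int.castRingHom (ZMod 2)) : Polynomial (ZMod 2)) :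
      PowerSeries (ZMod 2)) := (Polynomial.polynomial_map_coe).symm

theorem const_locMod (v : FF.Place k K) (a b : K) :
    (X : PowerSeries (ZMod 2)) ^ v.deg ∣ (locMod v a b : PowerSeries (ZMod 2)) - 1 := by
  have h := map_dvd red2 (const_locFactor v a b)
  rw [map_sub, map_one, map_pow, red2_poly, PowerSeries.map_X] at h
  exact h

/-- the reduction of the `L`-function modulo two -/
theorem lfun_mod (a b : K) :
    red2 (Lfun k a b) * eulerProd (fun v : FF.Place k K => v.deg)
      (fun v => (locMod v a b : PowerSeries (ZMod 2))) = 1 := by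
  have h1 : Lfun k a b * eulerProd (fun v : FF.Place k K => v.deg)
      (fun v => (locFactor v a b : PowerSeries ℤ)) = 1 := by
    unfold Lfun
    rw [← eulerProd_mul (fun n => places_fin n) (fun v => const_inv v a b)
      (fun v => const_locFactor v a b)]
    have : (fun v : FF.Place k K => invOfUnit (locFactor v a b : PowerSeries ℤ) 1 *
        (locFactor v a b : PowerSeries ℤ)) = fun _ => 1 := by
      funext v
      rw [mul_comm, inv_locFactor]
    rw [this, eulerProd_one]
  have h2 := congrArg red2 h1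
  rw [map_mul, map_one, map_eulerProd (fun n => places_fin n)] at h2
  rw [← h2]
  congr 2
  funext v
  exact (red2_poly _).symm

/-- the numerator of the zeta function modulo two -/
theorem num_mod (hq : ((Nat.card k : ℕ) : ZMod 2) = 1) {P : Polynomial ℤ}
    (hP : IsZetaNumRel k K P) :
    ((P.map (Int.castRingHom (ZMod 2)) : Polynomial (ZMod 2)) : PowerSeries (ZMod 2)) *
      eulerProd (fun v : FF.Place k K => v.deg) (fun v => 1 + X ^ v.deg) =
        (1 + X ^ constDeg k K) ^ 2 := by
  have h1 := congrArg red2 hP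
  rw [map_mul, map_mul, red2_poly, map_eulerProd (fun n => places_fin n)] at h1
  have h20 : (2 : PowerSeries (ZMod 2)) = 0 := by
    have e1 : (2 : PowerSeries (ZMod 2)) = PowerSeries.C (2 : ZMod 2) := by
      rw [map_ofNat]
    rw [e1, show (2 : ZMod 2) = 0 from rfl, map_zero]
  have hneg : ∀ z : PowerSeries (ZMod 2), 1 - z = 1 + z := fun z => by
    linear_combination -z * h20
  have h2 : red2 (1 - X ^ constDeg k K) = 1 + X ^ constDeg k K := by
    rw [map_sub, map_one, map_pow, PowerSeries.map_X, hneg]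
  have h3 : red2 (1 - C ((Nat.card k : ℤ) ^ constDeg k K) * X ^ constDeg k K) =
      1 + X ^ constDeg k K := by
    have : (Int.castRingHom (ZMod 2)) ((Nat.card k : ℤ) ^ constDeg k K) = 1 := by
      rw [map_pow, eq_intCast, Int.cast_natCast, hq, one_pow]
    rw [map_sub, map_one, map_mul, PowerSeries.map_C, this, map_pow, PowerSeries.map_X,
      PowerSeries.C.map_one, one_mul, hneg]
  rw [h2, h3] at h1
  rw [pow_two, ← h1]
  congr 2
  funext v
  rw [map_sub, map_one, map_pow, PowerSeries.map_X, hneg]

theorem num_ne_zero (hq : ((Nat.card k : ℕ) : ZMod 2) = 1) {P : Polynomial ℤ}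
    (hP : IsZetaNumRel k K P) : P.map (Int.castRingHom (ZMod 2)) ≠ 0 := by
  intro h
  have h1 := num_mod hq hP
  rw [h, Polynomial.coe_zero, zero_mul] at h1
  have h2 := congrArg (constantCoeff (R := ZMod 2)) h1
  rw [map_pow, map_add, map_pow, constantCoeff_X, zero_pow (constDeg_pos k K).ne'] at h2
  simp at h2

end global

end Pool.Agent.W343.BSD
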